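import Mathlib

set_option autoImplicit false

open MeasureTheory Complex ComplexConjugate

namespace Pool.Agent.helper21.Fock

/-- lattice index of a point -/
noncomputable def idx (δ : ℝ) (z : ℂ) : ℤ × ℤ := (⌊z.re / δ⌋, ⌊z.im / δ⌋)

/-- lattice point -/
noncomputable def pt (δ : ℝ) (p : ℤ × ℤ) : ℂ := ⟨δ * p.1, δ * p.2⟩

lemma measurable_idx (δ : ℝ) : Measurable (idx δ) := by
  unfold idx
  refine Measurable.prodMk ?_ ?_
  · exact Int.measurable_floor.comp (Complex.measurable_re.div_const δ)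
  · exact Int.measurable_floor.comp (Complex.measurable_im.div_const δ)

lemma abs_sub_floor_le {δ : ℝ} (hδ : 0 < δ) (x : ℝ) : |x - δ * ⌊x / δ⌋| ≤ δ := by
  have h1 := Int.floor_le (x / δ)
  have h2 := Int.lt_floor_add_one (x / δ)
  have h3 : δ * ⌊x / δ⌋ ≤ x := by
    have := mul_le_mul_of_nonneg_left h1 hδ.le
    rwa [mul_div_cancel₀ _ hδ.ne'] at this
  have h4 : x ≤ δ * ⌊x / δ⌋ + δ := by
    have := mul_le_mul_of_nonneg_left h2.le hδ.le
    rw [mul_div_cancel₀ _ hδ.ne'] at this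
    linarith
  rw [abs_le]
  constructor <;> linarith

lemma dist_pt_idx {δ : ℝ} (hδ : 0 < δ) (z : ℂ) : dist z (pt δ (idx δ z)) ≤ 2 * δ := by
  rw [dist_eq_norm]
  refine (Complex.norm_le_abs_re_add_abs_im _).trans ?_
  have h1 := abs_sub_floor_le hδ z.re
  have h2 := abs_sub_floor_le hδ z.im
  simp only [pt, idx, sub_re, sub_im]
  linarith

lemma floor_diff_bound {δ R : ℝ} (hδ : 0 < δ) {x y : ℝ} (h : |x - y| ≤ R) :
    |((⌊y / δ⌋ : ℤ) : ℝ) - ⌊x / δ⌋| ≤ R / δ + 1 := by
  have h1 := Int.floor_le (x / δ)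
  have h2 := Int.lt_floor_add_one (x / δ)
  have h3 := Int.floor_le (y / δ)
  have h4 := Int.lt_floor_add_one (y / δ)
  have h5 : |x / δ - y / δ| ≤ R / δ := by
    rw [← sub_div, abs_div, abs_of_pos hδ]
    gcongr
  rw [abs_le] at h5 ⊢
  constructor <;> linarith [h5.1, h5.2]

/-- class of a lattice point modulo `N` -/
def cl (N : ℕ) (p : ℤ × ℤ) : ZMod N × ZMod N := (p.1, p.2)

/-- representative of a class -/
def rep (N : ℕ) (d : ZMod N × ZMod N) : ℤ × ℤ := (d.1.valMinAbs, d.2.valMinAbs)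

lemma rep_cl_sub {N : ℕ} [NeZero N] {p q : ℤ × ℤ}
    (h1 : 2 * |((q.1 : ℤ) : ℝ) - p.1| < N) (h2 : 2 * |((q.2 : ℤ) : ℝ) - p.2| < N) :
    p + rep N (cl N q - cl N p) = q := by
  have key : ∀ a b : ℤ, 2 * |((b : ℤ) : ℝ) - a| < N →
      (((b : ZMod N) - (a : ZMod N)).valMinAbs : ℤ) = b - a := by
    intro a b hab
    rw [ZMod.valMinAbs_spec]
    have h3 : 2 * |b - a| < (N : ℤ) := by exact_mod_cast hab
    have h4 := abs_lt.mp (show |(b - a) * 2| < (N : ℤ) by rw [abs_mul, abs_two]; linarith)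
    refine ⟨by push_cast; ring, ?_, ?_⟩
    · linarith [h4.1]
    · exact h4.2.le
  ext
  · simp [rep, cl, key _ _ h1]
  · simp [rep, cl, key _ _ h2]

/-- Finite sums of products approximate a bounded uniformly continuous function of two complex
variables near the diagonal. -/
lemma colouring (H : ℂ → ℂ → ℂ) (M : ℝ) (hM : ∀ z w, ‖H z w‖ ≤ M)
    (hUC : ∀ η > 0, ∃ δ > 0, ∀ z z' w w', dist z z' ≤ δ → dist w w' ≤ δ →
      ‖H z w - H z' w'‖ ≤ η) (η : ℝ) (hη : 0 < η) (R : ℝ) :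
    ∃ (ι : Type) (_ : Fintype ι) (f g : ι → ℂ → ℂ),
      (∀ i, Measurable (f i)) ∧ (∀ i, Measurable (g i)) ∧
      (∀ i z, ‖f i z‖ ≤ M) ∧ (∀ i z, ‖g i z‖ ≤ 1) ∧
      (∀ z w, ‖∑ i, f i z * g i w‖ ≤ M) ∧
      (∀ z w, dist z w ≤ R → ‖H z w - ∑ i, f i z * g i w‖ ≤ η) := by
  classical
  obtain ⟨δ₀, hδ₀, hUC⟩ := hUC η hη
  set δ := δ₀ / 2 with hδdef
  have hδ : 0 < δ := by positivity
  obtain ⟨N, hN⟩ := exists_nat_gt (2 * (R / δ + 1))
  obtain ⟨N', hN', hNN⟩ : ∃ N' : ℕ, 0 < N' ∧ 2 * (R / δ + 1) < N' :=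
    ⟨N + 1, Nat.succ_pos _, by push_cast; linarith⟩
  have : NeZero N' := ⟨hN'.ne'⟩
  have hM0 : 0 ≤ M := (norm_nonneg _).trans (hM 0 0)
  let f : (ZMod N' × ZMod N') × (ZMod N' × ZMod N') → ℂ → ℂ := fun i z =>
    if cl N' (idx δ z) = i.1 then H (pt δ (idx δ z)) (pt δ (idx δ z + rep N' i.2)) else 0
  let g : (ZMod N' × ZMod N') × (ZMod N' × ZMod N') → ℂ → ℂ := fun i w =>
    if cl N' (idx δ w) = i.1 + i.2 then 1 else 0
  have hsum : ∀ z w, ∑ i, f i z * g i w = H (pt δ (idx δ z))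
      (pt δ (idx δ z + rep N' (cl N' (idx δ w) - cl N' (idx δ z)))) := by
    intro z w
    rw [Fintype.sum_prod_type]
    simp only [f, g]
    rw [Finset.sum_eq_single (cl N' (idx δ z))]
    · rw [Finset.sum_eq_single (cl N' (idx δ w) - cl N' (idx δ z))]
      · simp
      · intro b _ hb
        have : ¬ (cl N' (idx δ w) = cl N' (idx δ z) + b) := by
          intro h
          apply hb
          rw [h]; abel
        simp [this]
      · simp
    · intro b _ hb
      have : ¬ (cl N' (idx δ z) = b) := fun h => hb h.symm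
      simp [this]
    · simp
  refine ⟨_, inferInstance, f, g, ?_, ?_, ?_, ?_, ?_, ?_⟩
  · intro i
    exact (measurable_of_countable (fun p : ℤ × ℤ =>
      if cl N' p = i.1 then H (pt δ p) (pt δ (p + rep N' i.2)) else 0)).comp (measurable_idx δ)
  · intro i
    exact (measurable_of_countable (fun p : ℤ × ℤ =>
      if cl N' p = i.1 + i.2 then (1 : ℂ) else 0)).comp (measurable_idx δ)
  · intro i z
    simp only [f]
    split_ifs
    · exact hM _ _
    · simpa using hM0
  · intro i z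
    simp only [g]
    split_ifs <;> simp
  · intro z w
    rw [hsum]
    exact hM _ _
  · intro z w hzw
    rw [hsum]
    have hre : |z.re - w.re| ≤ R := by
      have := Complex.abs_re_le_norm (z - w)
      rw [dist_eq_norm] at hzw
      simpa using this.trans hzw
    have him : |z.im - w.im| ≤ R := by
      have := Complex.abs_im_le_norm (z - w)
      rw [dist_eq_norm] at hzw
      simpa using this.trans hzw
    have h1 := floor_diff_bound hδ hre
    have h2 := floor_diff_bound hδ him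
    rw [rep_cl_sub (p := idx δ z) (q := idx δ w)]
    · refine hUC _ _ _ _ ?_ ?_
      · exact (dist_pt_idx hδ z).trans (by rw [hδdef]; linarith)
      · exact (dist_pt_idx hδ w).trans (by rw [hδdef]; linarith)
    · simp only [idx]; linarith
    · simp only [idx]; linarith

end Pool.Agent.helper21.Fock
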