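import Mathlib

/-!
# Toeplitz and band-dominated operators on closed subspaces of `L^2(ℂ, μ)`: definitions

Here `μ` is a measure on `ℂ`, `F` is a closed subspace of `L^2(ℂ, μ)`,
`P = F.orthogonalProjectionOnto` is the orthogonal projection onto `F` and `F.subtypeL` is the
inclusion of `F` into `L^2(ℂ, μ)`.
-/

set_option autoImplicit false

open MeasureTheory Complex ComplexConjugate Nat

namespace Pool.Agent.helper21.Fock

/-- The Gaussian measure `dμ(z) = (1/π) exp(-|z|^2) dz` on `ℂ`. -/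
noncomputable def gaussianMeasure : Measure ℂ :=
  (volume : Measure ℂ).withDensity fun z => ENNReal.ofReal (Real.exp (-‖z‖ ^ 2) / Real.pi)

/-- The Wirtinger derivative `∂f/∂z = (1/2) (∂f/∂x - i ∂f/∂y)`. -/
noncomputable def wirtinger (f : ℂ → ℂ) (z : ℂ) : ℂ :=
  (1 / 2) * (fderiv ℝ f z 1 - I * fderiv ℝ f z I)

/-- `ψ` has the form `ψ(z) = (1/(k-1)!) e^{|z|^2} ∂_z^{k-1} (e^{-|z|^2} g(z))`, `g` entire. -/
structure TrueFockForm (k : ℕ) (ψ : ℂ → ℂ) : Prop where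
  form : ∃ g : ℂ → ℂ, Differentiable ℂ g ∧ ∀ z, ψ z = 1 / ((k - 1)! : ℂ) * cexp ((‖z‖ : ℂ) ^ 2) *
      wirtinger^[k - 1] (fun w => cexp (-(‖w‖ : ℂ) ^ 2) * g w) z

/-- `ψ` has the form `ψ(z) = ∑_{j<n} h_j(z) conj(z)^j` with `h_j` entire. -/
structure PolyFockForm (n : ℕ) (ψ : ℂ → ℂ) : Prop where
  form : ∃ h : Fin n → ℂ → ℂ, (∀ j, Differentiable ℂ (h j)) ∧
    ∀ z, ψ z = ∑ j, h j z * conj z ^ (j : ℕ)

/-- `B` is a band operator on `L^2(ℂ, μ)`: there is a real `ω` such that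
`M_{1_{K'}} B M_{1_K} = 0` for all measurable sets `K`, `K'` whose points are all at distance
greater than `ω`; that is, if `x` vanishes a.e. off `K`, then `B x` vanishes a.e. on `K'`. -/
structure BandOp {μ : Measure ℂ} (B : Lp ℂ 2 μ →L[ℂ] Lp ℂ 2 μ) : Prop where
  width : ∃ ω : ℝ, ∀ K K' : Set ℂ, MeasurableSet K → MeasurableSet K' →
    (∀ z ∈ K, ∀ w ∈ K', ω < dist z w) →
    ∀ x : Lp ℂ 2 μ, (∀ᵐ z ∂μ, z ∉ K → x z = 0) → ∀ᵐ z ∂μ, z ∈ K' → (B x) z = 0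

/-- `T` is a band-dominated operator on `F`: `T P` is a norm limit of band operators. -/
structure BandDominated {μ : Measure ℂ} (F : Submodule ℂ (Lp ℂ 2 μ)) [CompleteSpace F]
    (T : F →L[ℂ] F) : Prop where
  approx : ∀ ε : ℝ, 0 < ε → ∃ B : Lp ℂ 2 μ →L[ℂ] Lp ℂ 2 μ, BandOp B ∧
    ‖F.subtypeL ∘L T ∘L F.orthogonalProjectionOnto - B‖ < ε

/-- `T` is a Toeplitz operator on `F` with bounded symbol `f`: `T x = P (f x)`. -/
structure ToeplitzOp {μ : Measure ℂ} (F : Submodule ℂ (Lp ℂ 2 μ)) [CompleteSpace F]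
    (T : F →L[ℂ] F) : Prop where
  symbol : ∃ f : ℂ → ℂ, Measurable f ∧ (∃ C : ℝ, ∀ z, ‖f z‖ ≤ C) ∧
    ∀ x : F, ∃ y : Lp ℂ 2 μ, (∀ᵐ z ∂μ, y z = f z * (x : Lp ℂ 2 μ) z) ∧
      T x = F.orthogonalProjectionOnto y

/-- `T` belongs to the `C*`-algebra generated by the Toeplitz operators on `F` with bounded
symbols: `T` is a norm limit of elements of the (unital) `*`-algebra generated by them inside the
bounded operators on `F`. The Toeplitz operator with symbol `1` is the identity. -/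
structure ToeplitzGenerated {μ : Measure ℂ} (F : Submodule ℂ (Lp ℂ 2 μ)) [CompleteSpace F]
    (T : F →L[ℂ] F) : Prop where
  approx : ∀ ε : ℝ, 0 < ε → ∃ S ∈ StarAlgebra.adjoin ℂ {S : F →L[ℂ] F | ToeplitzOp F S},
    ‖T - S‖ < ε

end Pool.Agent.helper21.Fock
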