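import Mathlib
import Pool.Agent.helper21.FockStmt

/-!
# Definitions: Gaussian measure, polyanalytic Fock spaces, band-dominated operators
-/

set_option autoImplicit false

open MeasureTheory Complex ENNReal ComplexConjugate Nat

namespace Pool.Agent.helper21.Fock

lemma integrable_gauss_real {b : ℝ} (hb : 0 < b) :
    Integrable (fun v : ℂ => Real.exp (-b * ‖v‖ ^ 2)) := by
  have h := GaussianFourier.integrable_cexp_neg_mul_sq_norm_add (V := ℂ) (b := (b : ℂ))
    (by simpa using hb) 0 0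
  have h2 := h.norm
  refine h2.congr (Filter.Eventually.of_forall fun v => ?_)
  simp only [Complex.norm_exp]
  congr 1
  simp only [zero_mul, add_zero, ← Complex.ofReal_neg, ← Complex.ofReal_pow,
    ← Complex.ofReal_mul, Complex.ofReal_re]

instance : IsProbabilityMeasure gaussianMeasure := by
  constructor
  rw [gaussianMeasure, withDensity_apply _ MeasurableSet.univ, Measure.restrict_univ]
  have h0 : ∀ z : ℂ, 0 ≤ Real.exp (-‖z‖ ^ 2) / Real.pi := fun z => by positivity
  have hi : Integrable fun z : ℂ => Real.exp (-‖z‖ ^ 2) / Real.pi := by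
    have := (integrable_gauss_real (b := 1) one_pos).div_const Real.pi
    simpa using this
  rw [← ofReal_integral_eq_lintegral_ofReal hi (Filter.Eventually.of_forall h0)]
  rw [integral_div]
  have := GaussianFourier.integral_rexp_neg_mul_sq_norm (V := ℂ) (b := 1) one_pos
  simp only [neg_mul, one_mul, div_one, Complex.finrank_real_complex] at this
  rw [this]
  norm_num

/-- The Hilbert space `L^2(ℂ, μ)`. -/
abbrev GaussL2 : Type := Lp ℂ 2 gaussianMeasure

/-- The multiplication operator `M_f` on `L^2(ℂ, μ)` with symbol `f ∈ L^∞(ℂ)`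
(the Gaussian measure and Lebesgue measure have the same null sets). -/
noncomputable def mulOp (f : Lp ℂ ∞ gaussianMeasure) : GaussL2 →L[ℂ] GaussL2 :=
  (ContinuousLinearMap.mul ℂ ℂ).holderL gaussianMeasure ∞ 2 2 f

/-- The indicator function of a measurable set, as an element of `L^∞(ℂ)`. -/
noncomputable def indLinfty (K : Set ℂ) (hK : MeasurableSet K) : Lp ℂ ∞ gaussianMeasure :=
  indicatorConstLp ∞ hK (measure_ne_top gaussianMeasure K) 1

/-- `T` is a band operator: `sup {dist(K,K') : M_{1_{K'}} T M_{1_K} ≠ 0} < ∞`, that is, for some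
`ω` one has `M_{1_{K'}} T M_{1_K} = 0` whenever all points of `K` and `K'` are at distance
greater than `ω`. -/
def IsBand (T : GaussL2 →L[ℂ] GaussL2) : Prop :=
  ∃ ω : ℝ, ∀ (K K' : Set ℂ) (hK : MeasurableSet K) (hK' : MeasurableSet K'),
    (∀ z ∈ K, ∀ w ∈ K', ω < dist z w) →
      mulOp (indLinfty K' hK') ∘L T ∘L mulOp (indLinfty K hK) = 0

/-- The band-dominated operators on `L^2(ℂ, μ)`: norm limits of band operators. -/
def BDO : Set (GaussL2 →L[ℂ] GaussL2) := closure {T | IsBand T}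

/-- The band-dominated operators on a closed subspace `F` of `L^2(ℂ, μ)`: those `T` with
`T P ∈ BDO`, `P` the orthogonal projection onto `F`. -/
def bandDominated (F : Submodule ℂ GaussL2) [F.HasOrthogonalProjection] : Set (F →L[ℂ] F) :=
  {T | F.subtypeL ∘L T ∘L F.orthogonalProjectionOnto ∈ BDO}

/-- The Toeplitz operator `T_f g = P (f g)` on a closed subspace `F` of `L^2(ℂ, μ)`. -/
noncomputable def toeplitz (F : Submodule ℂ GaussL2) [F.HasOrthogonalProjection]
    (f : Lp ℂ ∞ gaussianMeasure) : F →L[ℂ] F :=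
  F.orthogonalProjectionOnto ∘L mulOp f ∘L F.subtypeL

/-- The `C*`-algebra generated by the Toeplitz operators with bounded symbols on `F`: the norm
closure of the unital `*`-algebra generated by them inside the bounded operators on `F`
(note that the Toeplitz operator with symbol `1` is the identity). -/
def toeplitzCStar (F : Submodule ℂ GaussL2) [CompleteSpace F] : Set (F →L[ℂ] F) :=
  {T | ∀ ε : ℝ, 0 < ε → ∃ S ∈ StarAlgebra.adjoin ℂ (Set.range (toeplitz F)), ‖T - S‖ < ε}

/-- The polyanalytic Fock space `F^2_n`: all `f ∈ L^2(ℂ, μ)` of the form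
`f(z) = ∑_{j<n} h_j(z) conj(z)^j` with `h_j` entire. -/
def polyFock (n : ℕ) : Submodule ℂ GaussL2 where
  carrier := {f | ∃ h : Fin n → ℂ → ℂ, (∀ j, Differentiable ℂ (h j)) ∧
    f =ᵐ[gaussianMeasure] fun z => ∑ j, h j z * conj z ^ (j : ℕ)}
  zero_mem' := by
    refine ⟨fun _ _ => 0, fun j => differentiable_const _, ?_⟩
    filter_upwards [Lp.coeFn_zero ℂ 2 gaussianMeasure] with z hz
    rw [hz]
    simp
  add_mem' := by
    rintro a b ⟨h, hh, ha⟩ ⟨h', hh', hb⟩
    refine ⟨fun j z => h j z + h' j z, fun j => (hh j).add (hh' j), ?_⟩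
    filter_upwards [Lp.coeFn_add a b, ha, hb] with z hz haz hbz
    rw [hz, Pi.add_apply, haz, hbz, ← Finset.sum_add_distrib]
    exact Finset.sum_congr rfl fun j _ => by ring
  smul_mem' := by
    rintro c a ⟨h, hh, ha⟩
    refine ⟨fun j z => c * h j z, fun j => (hh j).const_mul c, ?_⟩
    filter_upwards [Lp.coeFn_smul c a, ha] with z hz haz
    rw [hz, Pi.smul_apply, haz, smul_eq_mul, Finset.mul_sum]
    exact Finset.sum_congr rfl fun j _ => by ring

lemma contDiff_wirtinger {f : ℂ → ℂ} (hf : ContDiff ℝ (⊤ : ℕ∞) f) :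
    ContDiff ℝ (⊤ : ℕ∞) (wirtinger f) := by
  have h1 : ContDiff ℝ (⊤ : ℕ∞) (fderiv ℝ f) := hf.fderiv_right (by simp)
  unfold wirtinger
  exact contDiff_const.mul ((h1.clm_apply contDiff_const).sub
    (contDiff_const.mul (h1.clm_apply contDiff_const)))

lemma contDiff_wirtinger_iterate {f : ℂ → ℂ} (hf : ContDiff ℝ (⊤ : ℕ∞) f) (m : ℕ) :
    ContDiff ℝ (⊤ : ℕ∞) (wirtinger^[m] f) := by
  induction m with
  | zero => simpa using hf
  | succ m ih => rw [Function.iterate_succ_apply']; exact contDiff_wirtinger ih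

lemma wirtinger_add {f g : ℂ → ℂ} (hf : ContDiff ℝ (⊤ : ℕ∞) f) (hg : ContDiff ℝ (⊤ : ℕ∞) g) :
    wirtinger (fun z => f z + g z) = fun z => wirtinger f z + wirtinger g z := by
  ext z
  have h1 : DifferentiableAt ℝ f z := (hf.differentiable (by simp)).differentiableAt
  have h2 : DifferentiableAt ℝ g z := (hg.differentiable (by simp)).differentiableAt
  simp only [wirtinger]
  rw [fderiv_fun_add h1 h2]
  simp only [add_apply]
  ring

lemma wirtinger_const_mul {f : ℂ → ℂ} (hf : ContDiff ℝ (⊤ : ℕ∞) f) (c : ℂ) :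
    wirtinger (fun z => c * f z) = fun z => c * wirtinger f z := by
  ext z
  have h1 : DifferentiableAt ℝ f z := (hf.differentiable (by simp)).differentiableAt
  simp only [wirtinger]
  rw [fderiv_const_mul h1]
  simp only [smul_apply, smul_eq_mul]
  ring

lemma wirtinger_iterate_add {f g : ℂ → ℂ} (hf : ContDiff ℝ (⊤ : ℕ∞) f)
    (hg : ContDiff ℝ (⊤ : ℕ∞) g) (m : ℕ) :
    wirtinger^[m] (fun z => f z + g z) = fun z => wirtinger^[m] f z + wirtinger^[m] g z := by
  induction m with
  | zero => simp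
  | succ m ih =>
    rw [Function.iterate_succ_apply', ih,
      wirtinger_add (contDiff_wirtinger_iterate hf m) (contDiff_wirtinger_iterate hg m)]
    simp only [Function.iterate_succ_apply']

lemma wirtinger_iterate_const_mul {f : ℂ → ℂ} (hf : ContDiff ℝ (⊤ : ℕ∞) f) (c : ℂ) (m : ℕ) :
    wirtinger^[m] (fun z => c * f z) = fun z => c * wirtinger^[m] f z := by
  induction m with
  | zero => simp
  | succ m ih =>
    rw [Function.iterate_succ_apply', ih, wirtinger_const_mul (contDiff_wirtinger_iterate hf m)]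
    simp only [Function.iterate_succ_apply']

lemma contDiff_gauss_mul {g : ℂ → ℂ} (hg : Differentiable ℂ g) :
    ContDiff ℝ (⊤ : ℕ∞) fun w : ℂ => cexp (-(‖w‖ : ℂ) ^ 2) * g w := by
  have h1 : ContDiff ℝ (⊤ : ℕ∞) fun w : ℂ => ((‖w‖ ^ 2 : ℝ) : ℂ) :=
    Complex.ofRealCLM.contDiff.comp (contDiff_norm_sq ℝ)
  have h2 : ContDiff ℝ (⊤ : ℕ∞) fun w : ℂ => cexp (-(‖w‖ : ℂ) ^ 2) := by
    have h3 : (fun w : ℂ => cexp (-(‖w‖ : ℂ) ^ 2)) = fun w : ℂ => cexp (-((‖w‖ ^ 2 : ℝ) : ℂ)) := by
      funext w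
      congr 1
      push_cast
      ring
    rw [h3]
    exact (h1.neg).cexp
  exact h2.mul ((hg.contDiff).restrict_scalars ℝ)

/-- The true polyanalytic Fock space `F^2_{(k)}`, `k ≥ 1`: all `f ∈ L^2(ℂ, μ)` of the form
`f(z) = (1/(k-1)!) e^{|z|^2} ∂_z^{k-1} (e^{-|z|^2} g(z))` with `g` entire. -/
def trueFock (k : ℕ) : Submodule ℂ GaussL2 where
  carrier := {f | ∃ g : ℂ → ℂ, Differentiable ℂ g ∧
    f =ᵐ[gaussianMeasure] fun z => 1 / ((k - 1)! : ℂ) * cexp ((‖z‖ : ℂ) ^ 2) *
      wirtinger^[k - 1] (fun w => cexp (-(‖w‖ : ℂ) ^ 2) * g w) z}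
  zero_mem' := by
    refine ⟨fun _ => 0, differentiable_const _, ?_⟩
    filter_upwards [Lp.coeFn_zero ℂ 2 gaussianMeasure] with z hz
    have h0 : ∀ m : ℕ, wirtinger^[m] (fun w : ℂ => cexp (-(‖w‖ : ℂ) ^ 2) * (fun _ => 0) w) z = 0 := by
      intro m
      have := wirtinger_iterate_const_mul (contDiff_gauss_mul (differentiable_const (0 : ℂ))) 0 m
      have h2 := congrFun this z
      simpa using h2
    rw [hz, h0]
    simp
  add_mem' := by
    rintro a b ⟨g, hg, ha⟩ ⟨g', hg', hb⟩
    refine ⟨fun z => g z + g' z, hg.add hg', ?_⟩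
    filter_upwards [Lp.coeFn_add a b, ha, hb] with z hz haz hbz
    have := congrFun (wirtinger_iterate_add (contDiff_gauss_mul hg) (contDiff_gauss_mul hg')
      (k - 1)) z
    rw [hz, Pi.add_apply, haz, hbz, ← mul_add, ← this]
    congr 2
    refine congrArg (fun F => wirtinger^[k - 1] F z) ?_
    funext w
    ring
  smul_mem' := by
    rintro c a ⟨g, hg, ha⟩
    refine ⟨fun z => c * g z, hg.const_mul c, ?_⟩
    filter_upwards [Lp.coeFn_smul c a, ha] with z hz haz
    have := congrFun (wirtinger_iterate_const_mul (contDiff_gauss_mul hg) c (k - 1)) z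
    rw [hz, Pi.smul_apply, haz, smul_eq_mul]
    calc c * (1 / ((k - 1)! : ℂ) * cexp ((‖z‖ : ℂ) ^ 2) *
        wirtinger^[k - 1] (fun w => cexp (-(‖w‖ : ℂ) ^ 2) * g w) z)
        = 1 / ((k - 1)! : ℂ) * cexp ((‖z‖ : ℂ) ^ 2) *
          (c * wirtinger^[k - 1] (fun w => cexp (-(‖w‖ : ℂ) ^ 2) * g w) z) := by ring
      _ = _ := by
        rw [← this]
        congr 2
        refine congrArg (fun F => wirtinger^[k - 1] F z) ?_
        funext w
        ring

end Pool.Agent.helper21.Fock
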