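import Mathlib
import Pool.Agent.helper21.FockDefs

set_option autoImplicit false

open MeasureTheory Complex ENNReal ComplexConjugate

namespace Pool.Agent.helper21.Fock

lemma mulOp_ae (f : Lp ℂ ∞ gaussianMeasure) (x : GaussL2) :
    mulOp f x =ᵐ[gaussianMeasure] fun z => f z * x z := by
  unfold mulOp
  rw [ContinuousLinearMap.holderL_apply_apply]
  filter_upwards [ContinuousLinearMap.coeFn_holder (r := 2) (ContinuousLinearMap.mul ℂ ℂ) f x]
    with z hz
  rw [hz]
  simp

lemma indLinfty_ae (K : Set ℂ) (hK : MeasurableSet K) :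
    indLinfty K hK =ᵐ[gaussianMeasure] K.indicator fun _ => (1 : ℂ) := by
  unfold indLinfty
  exact indicatorConstLp_coeFn

lemma ind_apply_ae (K : Set ℂ) (hK : MeasurableSet K) (x : GaussL2) :
    mulOp (indLinfty K hK) x =ᵐ[gaussianMeasure] K.indicator x := by
  filter_upwards [mulOp_ae (indLinfty K hK) x, indLinfty_ae K hK] with z h1 h2
  rw [h1, h2]
  by_cases hz : z ∈ K <;> simp [hz]

lemma inner_eq_integral (x y : GaussL2) :
    inner ℂ x y = ∫ z, conj (x z) * y z ∂gaussianMeasure := by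
  rw [L2.inner_def]
  refine integral_congr_ae (Filter.Eventually.of_forall fun z => ?_)
  simp [mul_comm]

lemma mulOp_star_inner (f : Lp ℂ ∞ gaussianMeasure) (x y : GaussL2) :
    inner ℂ (mulOp f x) y = inner ℂ x (mulOp (star f) y) := by
  rw [inner_eq_integral, inner_eq_integral]
  refine integral_congr_ae ?_
  filter_upwards [mulOp_ae f x, mulOp_ae (star f) y, Lp.coeFn_star f] with z h1 h2 h3
  rw [h1, h2, h3]
  simp
  ring

lemma adjoint_mulOp (f : Lp ℂ ∞ gaussianMeasure) :
    ContinuousLinearMap.adjoint (mulOp f) = mulOp (star f) := by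
  symm
  rw [ContinuousLinearMap.eq_adjoint_iff]
  intro x y
  have := mulOp_star_inner (star f) x y
  rwa [star_star] at this

lemma star_mulOp (f : Lp ℂ ∞ gaussianMeasure) : star (mulOp f) = mulOp (star f) :=
  adjoint_mulOp f

lemma star_indLinfty (K : Set ℂ) (hK : MeasurableSet K) :
    star (indLinfty K hK) = indLinfty K hK := by
  apply Lp.ext
  filter_upwards [Lp.coeFn_star (indLinfty K hK), indLinfty_ae K hK] with z h1 h2
  rw [h1, Pi.star_apply, h2]
  by_cases hz : z ∈ K <;> simp [hz]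

lemma ind_add_compl (K : Set ℂ) (hK : MeasurableSet K) (x : GaussL2) :
    mulOp (indLinfty K hK) x + mulOp (indLinfty Kᶜ hK.compl) x = x := by
  apply Lp.ext
  filter_upwards [Lp.coeFn_add (mulOp (indLinfty K hK) x) (mulOp (indLinfty Kᶜ hK.compl) x),
    ind_apply_ae K hK x, ind_apply_ae Kᶜ hK.compl x] with z h1 h2 h3
  rw [h1, Pi.add_apply, h2, h3]
  by_cases hz : z ∈ K <;> simp [hz]

/-! ### The algebra of band operators -/

lemma isBand_mulOp (f : Lp ℂ ∞ gaussianMeasure) : IsBand (mulOp f) := by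
  refine ⟨0, fun K K' hK hK' h => ?_⟩
  ext1 x
  apply Lp.ext
  simp only [ContinuousLinearMap.coe_comp', Function.comp_apply, zero_apply]
  filter_upwards [ind_apply_ae K' hK' (mulOp f (mulOp (indLinfty K hK) x)),
    mulOp_ae f (mulOp (indLinfty K hK) x), ind_apply_ae K hK x,
    Lp.coeFn_zero ℂ 2 gaussianMeasure] with z h1 h2 h3 h4
  rw [h1, h4]
  by_cases hz : z ∈ K'
  · have hzK : z ∉ K := fun hzK => by simpa using h z hzK z hz
    simp [hz, h2, h3, hzK]
  · simp [hz]

lemma isBand_add {S T : GaussL2 →L[ℂ] GaussL2} (hS : IsBand S) (hT : IsBand T) :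
    IsBand (S + T) := by
  obtain ⟨a, ha⟩ := hS
  obtain ⟨b, hb⟩ := hT
  refine ⟨max a b, fun K K' hK hK' h => ?_⟩
  have h1 := ha K K' hK hK' fun z hz w hw => (le_max_left a b).trans_lt (h z hz w hw)
  have h2 := hb K K' hK hK' fun z hz w hw => (le_max_right a b).trans_lt (h z hz w hw)
  rw [ContinuousLinearMap.add_comp, ContinuousLinearMap.comp_add, h1, h2, add_zero]

lemma isBand_smul (c : ℂ) {T : GaussL2 →L[ℂ] GaussL2} (hT : IsBand T) : IsBand (c • T) := by
  obtain ⟨b, hb⟩ := hT
  refine ⟨b, fun K K' hK hK' h => ?_⟩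
  rw [ContinuousLinearMap.smul_comp, ContinuousLinearMap.comp_smul, hb K K' hK hK' h, smul_zero]

lemma isBand_comp {S T : GaussL2 →L[ℂ] GaussL2} (hS : IsBand S) (hT : IsBand T) :
    IsBand (S ∘L T) := by
  obtain ⟨a, ha⟩ := hS
  obtain ⟨b, hb⟩ := hT
  refine ⟨a + max b 0 + 1, fun K K' hK hK' h => ?_⟩
  rcases K.eq_empty_or_nonempty with rfl | hne
  · ext1 x
    have : mulOp (indLinfty ∅ hK) x = 0 := by
      apply Lp.ext
      filter_upwards [ind_apply_ae ∅ hK x, Lp.coeFn_zero ℂ 2 gaussianMeasure] with z h1 h4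
      rw [h1, h4]; simp
    simp [this]
  set L : Set ℂ := Metric.cthickening (max b 0) K with hL
  have hLm : MeasurableSet L := Metric.isClosed_cthickening.measurableSet
  have h1 : mulOp (indLinfty Lᶜ hLm.compl) ∘L T ∘L mulOp (indLinfty K hK) = 0 := by
    refine hb K Lᶜ hK hLm.compl fun z hz w hw => ?_
    by_contra hcon
    apply hw
    rw [hL]
    refine Metric.mem_cthickening_of_dist_le w z (max b 0) K hz ?_
    rw [dist_comm]
    exact (not_lt.mp hcon).trans (le_max_left _ _)
  have h2 : mulOp (indLinfty K' hK') ∘L S ∘L mulOp (indLinfty L hLm) = 0 := by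
    refine ha L K' hLm hK' fun w hw v hv => ?_
    have hw' : w ∈ Metric.thickening (max b 0 + 1) K :=
      Metric.cthickening_subset_thickening' (by positivity) (by linarith) K hw
    rw [Metric.mem_thickening_iff] at hw'
    obtain ⟨z, hz, hzw⟩ := hw'
    have h3 := h z hz v hv
    have h4 := dist_triangle z w v
    rw [dist_comm] at hzw
    linarith
  ext1 x
  have e1 : T (mulOp (indLinfty K hK) x) = mulOp (indLinfty L hLm) (T (mulOp (indLinfty K hK) x)) := by
    have := ind_add_compl L hLm (T (mulOp (indLinfty K hK) x))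
    have h5 : mulOp (indLinfty Lᶜ hLm.compl) (T (mulOp (indLinfty K hK) x)) = 0 := by
      have := congrArg (fun A => A x) h1
      simpa using this
    rw [h5, add_zero] at this
    exact this.symm
  have e2 : mulOp (indLinfty K' hK') (S (mulOp (indLinfty L hLm) (T (mulOp (indLinfty K hK) x)))) = 0 := by
    have := congrArg (fun A => A (T (mulOp (indLinfty K hK) x))) h2
    simpa using this
  simp only [ContinuousLinearMap.coe_comp', Function.comp_apply, zero_apply]
  rw [e1]
  exact e2

lemma isBand_star {T : GaussL2 →L[ℂ] GaussL2} (hT : IsBand T) : IsBand (star T) := by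
  obtain ⟨b, hb⟩ := hT
  refine ⟨b, fun K K' hK hK' h => ?_⟩
  have h1 := hb K' K hK' hK fun z hz w hw => by rw [dist_comm]; exact h w hw z hz
  have h2 := congrArg star h1
  have h3 : star (mulOp (indLinfty K hK) ∘L T ∘L mulOp (indLinfty K' hK'))
      = mulOp (indLinfty K' hK') ∘L star T ∘L mulOp (indLinfty K hK) := by
    change star (mulOp (indLinfty K hK) * (T * mulOp (indLinfty K' hK')))
      = mulOp (indLinfty K' hK') * (star T * mulOp (indLinfty K hK))
    rw [star_mul, star_mul, star_mulOp, star_mulOp, star_indLinfty, star_indLinfty, mul_assoc]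
  rw [← h3, h2, star_zero]

lemma BDO_of_isBand {T : GaussL2 →L[ℂ] GaussL2} (hT : IsBand T) : T ∈ BDO :=
  subset_closure hT

lemma BDO_add {S T : GaussL2 →L[ℂ] GaussL2} (hS : S ∈ BDO) (hT : T ∈ BDO) : S + T ∈ BDO :=
  map_mem_closure₂ continuous_add hS hT fun _ h1 _ h2 => isBand_add h1 h2

lemma BDO_mul {S T : GaussL2 →L[ℂ] GaussL2} (hS : S ∈ BDO) (hT : T ∈ BDO) : S * T ∈ BDO :=
  map_mem_closure₂ continuous_mul hS hT fun _ h1 _ h2 => isBand_comp h1 h2

lemma BDO_star {T : GaussL2 →L[ℂ] GaussL2} (hT : T ∈ BDO) : star T ∈ BDO :=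
  map_mem_closure continuous_star hT fun _ h => isBand_star h

lemma BDO_smul (c : ℂ) {T : GaussL2 →L[ℂ] GaussL2} (hT : T ∈ BDO) : c • T ∈ BDO :=
  map_mem_closure (continuous_const_smul c) hT fun _ h => isBand_smul c h

lemma isClosed_BDO : IsClosed BDO := isClosed_closure

end Pool.Agent.helper21.Fock
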