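import Mathlib
import Pool.Agent.helper21.FockDefs

set_option autoImplicit false

open MeasureTheory Complex ENNReal ComplexConjugate

namespace Pool.Agent.helper21.Fock

lemma measurable_gdens : Measurable fun z : ℂ => ENNReal.ofReal (Real.exp (-‖z‖ ^ 2) / Real.pi) := by
  fun_prop

lemma lintegral_gauss (F : ℂ → ℝ≥0∞) :
    ∫⁻ z, F z ∂gaussianMeasure
      = ∫⁻ z, ENNReal.ofReal (Real.exp (-‖z‖ ^ 2) / Real.pi) * F z := by
  rw [gaussianMeasure, lintegral_withDensity_eq_lintegral_mul_non_measurable]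
  · rfl
  · exact measurable_gdens
  · exact Filter.Eventually.of_forall fun _ => ENNReal.ofReal_lt_top

lemma cauchy_schwarz_weighted (ν : Measure ℂ) (g b : ℂ → ℝ≥0∞) (hg : AEMeasurable g ν)
    (hb : AEMeasurable b ν) :
    (∫⁻ w, g w * b w ∂ν) ^ 2 ≤ (∫⁻ w, g w ∂ν) * ∫⁻ w, g w * b w ^ 2 ∂ν := by
  have h2 : (2 : ℝ).HolderConjugate 2 := by
    rw [Real.holderConjugate_iff]; norm_num
  have key := ENNReal.lintegral_mul_le_Lp_mul_Lq ν h2 (f := fun w => g w ^ (1/2 : ℝ))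
    (g := fun w => g w ^ (1/2 : ℝ) * b w) (hg.pow_const _) ((hg.pow_const _).mul hb)
  have e1 : ∀ w, ((fun w => g w ^ (1/2 : ℝ)) * fun w => g w ^ (1/2 : ℝ) * b w) w = g w * b w := by
    intro w
    simp only [Pi.mul_apply]
    rw [← mul_assoc, ← ENNReal.rpow_add_of_nonneg _ _ (by norm_num) (by norm_num)]
    norm_num
  have e2 : ∀ w, (g w ^ (1/2 : ℝ)) ^ (2 : ℝ) = g w := by
    intro w
    rw [← ENNReal.rpow_mul]; norm_num
  have e3 : ∀ w, (g w ^ (1/2 : ℝ) * b w) ^ (2 : ℝ) = g w * b w ^ 2 := by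
    intro w
    rw [ENNReal.mul_rpow_of_nonneg _ _ (by norm_num), e2]
    norm_num
  simp only [e1, e2, e3] at key
  calc (∫⁻ w, g w * b w ∂ν) ^ 2
      ≤ ((∫⁻ w, g w ∂ν) ^ (1/2 : ℝ) * (∫⁻ w, g w * b w ^ 2 ∂ν) ^ (1/2 : ℝ)) ^ 2 := by
        gcongr
    _ = _ := by
        rw [mul_pow, ← ENNReal.rpow_natCast, ← ENNReal.rpow_natCast, ← ENNReal.rpow_mul,
          ← ENNReal.rpow_mul]
        norm_num

/-- Schur/Young estimate with respect to the Gaussian measure. -/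
lemma schur_lintegral (γ a : ℂ → ℝ≥0∞) (hγ : Measurable γ) (ha : AEMeasurable a) :
    ∫⁻ z, (∫⁻ w, ENNReal.ofReal (Real.exp (‖z‖ ^ 2 / 2)) * ENNReal.ofReal (Real.exp (‖w‖ ^ 2 / 2)) *
        γ (z - w) * a w ∂gaussianMeasure) ^ 2 ∂gaussianMeasure
      ≤ ((∫⁻ u, γ u) * ENNReal.ofReal (1 / Real.pi)) ^ 2 * ∫⁻ w, a w ^ 2 ∂gaussianMeasure := by
  set c : ℝ≥0∞ := ENNReal.ofReal (1 / Real.pi) with hc
  set b : ℂ → ℝ≥0∞ := fun w => ENNReal.ofReal (Real.exp (-‖w‖ ^ 2 / 2)) * a w with hb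
  have hcfin : c ≠ ∞ := ENNReal.ofReal_ne_top
  have hbm : AEMeasurable b := by
    have : Measurable fun w : ℂ => ENNReal.ofReal (Real.exp (-‖w‖ ^ 2 / 2)) := by fun_prop
    exact this.aemeasurable.mul ha
  have hγ1 : ∀ z : ℂ, Measurable fun w => γ (z - w) := fun z => hγ.comp (by fun_prop)
  have h1 : ∀ z : ℂ, (∫⁻ w, ENNReal.ofReal (Real.exp (‖z‖ ^ 2 / 2)) *
      ENNReal.ofReal (Real.exp (‖w‖ ^ 2 / 2)) * γ (z - w) * a w ∂gaussianMeasure)
      = ENNReal.ofReal (Real.exp (‖z‖ ^ 2 / 2)) * (c * ∫⁻ w, γ (z - w) * b w) := by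
    intro z
    rw [lintegral_gauss, ← lintegral_const_mul' _ _ hcfin,
      ← lintegral_const_mul' _ _ ENNReal.ofReal_ne_top]
    congr 1
    ext w
    have : ENNReal.ofReal (Real.exp (-‖w‖ ^ 2) / Real.pi) * ENNReal.ofReal (Real.exp (‖w‖ ^ 2 / 2))
        = c * ENNReal.ofReal (Real.exp (-‖w‖ ^ 2 / 2)) := by
      rw [hc, ← ENNReal.ofReal_mul (by positivity), ← ENNReal.ofReal_mul (by positivity)]
      congr 1
      rw [div_mul_eq_mul_div, ← Real.exp_add, one_div, inv_mul_eq_div]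
      ring_nf
    calc _ = (ENNReal.ofReal (Real.exp (-‖w‖ ^ 2) / Real.pi) * ENNReal.ofReal (Real.exp (‖w‖ ^ 2 / 2)))
          * (ENNReal.ofReal (Real.exp (‖z‖ ^ 2 / 2)) * γ (z - w) * a w) := by ring
      _ = _ := by rw [this, hb]; ring
  simp_rw [h1]
  rw [lintegral_gauss]
  have h2 : ∀ z : ℂ, ENNReal.ofReal (Real.exp (-‖z‖ ^ 2) / Real.pi) *
      (ENNReal.ofReal (Real.exp (‖z‖ ^ 2 / 2)) * (c * ∫⁻ w, γ (z - w) * b w)) ^ 2
      = c ^ 3 * (∫⁻ w, γ (z - w) * b w) ^ 2 := by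
    intro z
    have : ENNReal.ofReal (Real.exp (-‖z‖ ^ 2) / Real.pi) *
        (ENNReal.ofReal (Real.exp (‖z‖ ^ 2 / 2))) ^ 2 = c := by
      rw [hc, ← ENNReal.ofReal_pow (by positivity), ← ENNReal.ofReal_mul (by positivity)]
      congr 1
      rw [div_mul_eq_mul_div, ← Real.exp_nat_mul, ← Real.exp_add]
      have : -‖z‖ ^ 2 + (2 : ℕ) * (‖z‖ ^ 2 / 2) = 0 := by push_cast; ring
      rw [this, Real.exp_zero]
    calc _ = (ENNReal.ofReal (Real.exp (-‖z‖ ^ 2) / Real.pi) *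
        (ENNReal.ofReal (Real.exp (‖z‖ ^ 2 / 2))) ^ 2) * c ^ 2 * (∫⁻ w, γ (z - w) * b w) ^ 2 := by ring
      _ = _ := by rw [this]; ring
  simp_rw [h2]
  set G := ∫⁻ u, γ u with hG
  have hGz : ∀ z : ℂ, ∫⁻ w, γ (z - w) = G := by
    intro z
    rw [hG]
    exact lintegral_sub_left_eq_self γ z
  have hGw : ∀ w : ℂ, ∫⁻ z, γ (z - w) = G := by
    intro w
    rw [hG]
    exact lintegral_sub_right_eq_self γ w
  calc ∫⁻ z, c ^ 3 * (∫⁻ w, γ (z - w) * b w) ^ 2
      ≤ ∫⁻ z, c ^ 3 * (G * ∫⁻ w, γ (z - w) * b w ^ 2) := by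
        refine lintegral_mono fun z => ?_
        have := cauchy_schwarz_weighted volume (fun w => γ (z - w)) b (hγ1 z).aemeasurable hbm
        rw [hGz z] at this
        gcongr
    _ = c ^ 3 * G * ∫⁻ z, ∫⁻ w, γ (z - w) * b w ^ 2 := by
        have hm : AEMeasurable (fun z : ℂ => ∫⁻ w, γ (z - w) * b w ^ 2) := by
          have : AEMeasurable (fun p : ℂ × ℂ => γ (p.1 - p.2) * b p.2 ^ 2)
              ((volume : Measure ℂ).prod volume) := by
            refine AEMeasurable.mul (hγ.comp (by fun_prop)).aemeasurable ?_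
            exact (hbm.comp_quasiMeasurePreserving Measure.quasiMeasurePreserving_snd).pow_const 2
          exact this.lintegral_prod_right'
        simp_rw [← mul_assoc]
        rw [lintegral_const_mul'' _ hm]
    _ = c ^ 3 * G * ∫⁻ w, ∫⁻ z, γ (z - w) * b w ^ 2 := by
        congr 1
        rw [lintegral_lintegral_swap]
        have : AEMeasurable (fun p : ℂ × ℂ => γ (p.1 - p.2) * b p.2 ^ 2)
            ((volume : Measure ℂ).prod volume) := by
          refine AEMeasurable.mul (hγ.comp (by fun_prop)).aemeasurable ?_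
          exact (hbm.comp_quasiMeasurePreserving Measure.quasiMeasurePreserving_snd).pow_const 2
        exact this
    _ = c ^ 3 * G * ∫⁻ w, G * b w ^ 2 := by
        congr 1
        refine lintegral_congr fun w => ?_
        have hm : Measurable fun z : ℂ => γ (z - w) := hγ.comp (by fun_prop)
        rw [lintegral_mul_const _ hm, hGw]
    _ = c ^ 3 * G ^ 2 * ∫⁻ w, b w ^ 2 := by
        rw [lintegral_const_mul'' _ (hbm.pow_const 2)]; ring
    _ = (G * c) ^ 2 * ∫⁻ w, a w ^ 2 ∂gaussianMeasure := by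
        rw [lintegral_gauss]
        have : ∀ w : ℂ, ENNReal.ofReal (Real.exp (-‖w‖ ^ 2) / Real.pi) * a w ^ 2 = c * b w ^ 2 := by
          intro w
          rw [hb, hc]
          simp only
          rw [mul_pow, ← mul_assoc, ← ENNReal.ofReal_pow (by positivity),
            ← ENNReal.ofReal_mul (by positivity)]
          congr 2
          rw [← Real.exp_nat_mul, one_div, inv_mul_eq_div]
          congr 2
          push_cast; ring
        simp_rw [this]
        rw [lintegral_const_mul'' _ (hbm.pow_const 2)]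
        ring

end Pool.Agent.helper21.Fock

namespace Pool.Agent.helper21.Fock

lemma enorm_sq_eq (x : GaussL2) : ‖x‖ₑ ^ 2 = ∫⁻ z, ‖x z‖ₑ ^ 2 ∂gaussianMeasure := by
  rw [Lp.enorm_def, eLpNorm_eq_lintegral_rpow_enorm_toReal (by norm_num) (by norm_num)]
  simp only [ENNReal.toReal_ofNat, one_div]
  rw [← ENNReal.rpow_natCast, ← ENNReal.rpow_mul]
  norm_num

/-- The weight `exp(|z|²/2)` as an extended nonnegative real. -/
noncomputable def wt (z : ℂ) : ℝ≥0∞ := ENNReal.ofReal (Real.exp (‖z‖ ^ 2 / 2))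

lemma measurable_wt : Measurable wt := by unfold wt; fun_prop

lemma gauss_ac_volume : gaussianMeasure ≪ (volume : Measure ℂ) :=
  withDensity_absolutelyContinuous _ _

lemma volume_ac_gauss : (volume : Measure ℂ) ≪ gaussianMeasure := by
  refine withDensity_absolutelyContinuous' measurable_gdens.aemeasurable ?_
  refine Filter.Eventually.of_forall fun z => ?_
  have : 0 < Real.exp (-‖z‖ ^ 2) / Real.pi := by positivity
  simpa using this

lemma norm_le_of_pointwise (x y : GaussL2) (γ : ℂ → ℝ) (hγm : Measurable γ)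
    (hγ0 : ∀ u, 0 ≤ γ u) (hγi : Integrable γ)
    (h : ∀ᵐ z ∂gaussianMeasure, ‖y z‖ₑ ≤
      ∫⁻ w, wt z * wt w * ENNReal.ofReal (γ (z - w)) * ‖x w‖ₑ ∂gaussianMeasure) :
    ‖y‖ ≤ (∫ u, γ u) / Real.pi * ‖x‖ := by
  have hxm : AEMeasurable (fun w => ‖x w‖ₑ) (volume : Measure ℂ) := by
    have : AEMeasurable (fun w => ‖x w‖ₑ) gaussianMeasure :=
      (Lp.aestronglyMeasurable x).enorm
    exact this.mono_ac volume_ac_gauss
  have h1 : ‖y‖ₑ ^ 2 ≤ ((∫⁻ u, ENNReal.ofReal (γ u)) * ENNReal.ofReal (1 / Real.pi)) ^ 2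
      * ‖x‖ₑ ^ 2 := by
    rw [enorm_sq_eq y, enorm_sq_eq x]
    calc ∫⁻ z, ‖y z‖ₑ ^ 2 ∂gaussianMeasure
        ≤ ∫⁻ z, (∫⁻ w, wt z * wt w * ENNReal.ofReal (γ (z - w)) * ‖x w‖ₑ ∂gaussianMeasure) ^ 2
            ∂gaussianMeasure := by
          refine lintegral_mono_ae ?_
          filter_upwards [h] with z hz
          gcongr
      _ ≤ _ := schur_lintegral (fun u => ENNReal.ofReal (γ u)) (fun w => ‖x w‖ₑ)
          hγm.ennreal_ofReal hxm
  have hI : 0 ≤ ∫ u, γ u := integral_nonneg (μ := (volume : Measure ℂ)) (fun u => hγ0 u)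
  rw [← ofReal_integral_eq_lintegral_ofReal hγi (Filter.Eventually.of_forall hγ0),
    ← ENNReal.ofReal_mul hI, ← ofReal_norm, ← ofReal_norm,
    ← mul_pow, ← ENNReal.ofReal_mul (by positivity), ← ENNReal.ofReal_pow (norm_nonneg _),
    ← ENNReal.ofReal_pow (by positivity)] at h1
  rw [ENNReal.ofReal_le_ofReal_iff (by positivity)] at h1
  have h3 := (abs_le.mp (abs_le_of_sq_le_sq h1 (by positivity))).2
  calc ‖y‖ ≤ _ := h3
    _ = _ := by ring

end Pool.Agent.helper21.Fock
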