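import Mathlib
import Pool.Agent.helper21.FockDefs
import Pool.Agent.helper21.FockSchur
import Pool.Agent.helper21.FockOps
import Pool.Agent.helper21.FockColor

set_option autoImplicit false

open MeasureTheory Complex ENNReal ComplexConjugate

namespace Pool.Agent.helper21.Fock

/-- Reproducing kernel data for a subspace `F` of `L^2(ℂ, μ)`. -/
structure RKData (F : Submodule ℂ GaussL2) where
  φ : ℂ → ℝ
  cont : Continuous φ
  C : ℝ
  growth : ∀ v, |φ v| ≤ C * Real.exp (‖v‖ ^ 2 / 4)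
  ae_ne : ∀ᵐ v : ℂ, φ v ≠ 0
  K : ℂ → GaussL2
  K_ae : ∀ z, K z =ᵐ[gaussianMeasure] fun w => cexp (conj z * w) * (φ (w - z) : ℂ)
  K_mem : ∀ z, K z ∈ F
  repr : ∀ f ∈ F, ∀ᵐ z ∂gaussianMeasure, f z = inner ℂ (K z) f
  inner_K : ∀ z w, inner ℂ (K z) (K w) = cexp (conj w * z) * (φ (z - w) : ℂ)

namespace RKData

variable {F : Submodule ℂ GaussL2} (D : RKData F)

lemma phi_neg (v : ℂ) : D.φ (-v) = D.φ v := by
  have h1 := D.inner_K v 0
  have h2 := D.inner_K 0 v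
  have h3 := inner_conj_symm (𝕜 := ℂ) (D.K v) (D.K 0)
  rw [h1, h2] at h3
  simpa using h3

/-- normalised kernel -/
noncomputable def k (z : ℂ) : GaussL2 := ((Real.exp (-‖z‖ ^ 2 / 2) : ℝ) : ℂ) • D.K z

/-- the kernel `κ(z,w) = ⟨k_z, k_w⟩` -/
noncomputable def κ (z w : ℂ) : ℂ := inner ℂ (D.k z) (D.k w)

lemma kappa_eq (z w : ℂ) : D.κ z w =
    ((Real.exp (-‖z‖ ^ 2 / 2) * Real.exp (-‖w‖ ^ 2 / 2) : ℝ) : ℂ) *
      (cexp (conj w * z) * (D.φ (z - w) : ℂ)) := by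
  unfold κ k
  rw [inner_smul_left, inner_smul_right, D.inner_K]
  simp only [conj_ofReal]
  push_cast
  ring

lemma cnorm_sub_sq (z w : ℂ) : ‖z - w‖ ^ 2 = ‖z‖ ^ 2 + ‖w‖ ^ 2 - 2 * (conj w * z).re := by
  rw [← Complex.normSq_eq_norm_sq, ← Complex.normSq_eq_norm_sq, ← Complex.normSq_eq_norm_sq,
    Complex.normSq_sub]
  simp [mul_comm]

lemma kappa_eq' (z w : ℂ) : D.κ z w =
    cexp (I * ((conj w * z).im : ℂ)) * ((Real.exp (-‖z - w‖ ^ 2 / 2) * D.φ (z - w) : ℝ) : ℂ) := by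
  rw [kappa_eq]
  have h1 : cexp (conj w * z) = cexp (((conj w * z).re : ℂ)) * cexp (I * ((conj w * z).im : ℂ)) := by
    rw [← Complex.exp_add]
    congr 1
    rw [mul_comm I]
    exact (Complex.re_add_im _).symm
  rw [h1]
  have h2 : Real.exp (-‖z - w‖ ^ 2 / 2) = Real.exp (-‖z‖ ^ 2 / 2) * Real.exp (-‖w‖ ^ 2 / 2) *
      Real.exp ((conj w * z).re) := by
    rw [← Real.exp_add, ← Real.exp_add]
    congr 1
    rw [cnorm_sub_sq]; ring
  rw [h2]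
  push_cast
  ring

lemma norm_kappa (z w : ℂ) : ‖D.κ z w‖ = Real.exp (-‖z - w‖ ^ 2 / 2) * |D.φ (z - w)| := by
  rw [kappa_eq', norm_mul, mul_comm I, Complex.norm_exp_ofReal_mul_I, one_mul, Complex.norm_real,
    Real.norm_eq_abs, abs_mul, abs_of_pos (Real.exp_pos _)]

lemma norm_k_sq (z : ℂ) : ‖D.k z‖ ^ 2 = D.φ 0 := by
  have h := D.kappa_eq' z z
  have h2 : D.κ z z = ((‖D.k z‖ ^ 2 : ℝ) : ℂ) := by
    unfold κ
    rw [inner_self_eq_norm_sq_to_K]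
    simp
  have h3 : (conj z * z).im = 0 := by
    simp [mul_comm]
  rw [h2, h3] at h
  simp only [sub_self, norm_zero] at h
  have h4 : ((‖D.k z‖ ^ 2 : ℝ) : ℂ) = ((D.φ 0 : ℝ) : ℂ) := by
    rw [h]; simp
  exact_mod_cast h4

lemma phi_zero_nonneg : 0 ≤ D.φ 0 := by
  rw [← D.norm_k_sq 0]; positivity

lemma C_nonneg : 0 ≤ D.C := by
  have := D.growth 0
  have h2 := abs_nonneg (D.φ 0)
  simp at this
  linarith

/-- nearby normalised kernels agree up to a phase -/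
lemma kernel_close (ε : ℝ) (hε : 0 < ε) : ∃ δ > 0, ∀ z z' : ℂ, dist z z' ≤ δ →
    ∃ c : ℂ, ‖c‖ = 1 ∧ ‖D.k z - c • D.k z'‖ ≤ ε := by
  have hcont : Continuous fun u : ℂ => 2 * D.φ 0 - 2 * (Real.exp (-‖u‖ ^ 2 / 2) * D.φ u) := by
    have := D.cont
    fun_prop
  have h0 : Filter.Tendsto (fun u : ℂ => 2 * D.φ 0 - 2 * (Real.exp (-‖u‖ ^ 2 / 2) * D.φ u))
      (nhds 0) (nhds 0) := by
    have := hcont.tendsto 0
    simpa using this
  rw [Metric.tendsto_nhds_nhds] at h0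
  obtain ⟨δ, hδ, h⟩ := h0 (ε ^ 2) (by positivity)
  refine ⟨δ / 2, by positivity, fun z z' hzz => ?_⟩
  set c : ℂ := cexp (-(I * ((conj z' * z).im : ℂ))) with hc
  have hc1 : ‖c‖ = 1 := by
    rw [hc]
    have : -(I * ((conj z' * z).im : ℂ)) = ((-(conj z' * z).im : ℝ) : ℂ) * I := by
      push_cast; ring
    rw [this, Complex.norm_exp_ofReal_mul_I]
  refine ⟨c, hc1, ?_⟩
  have h1 : ‖D.k z - c • D.k z'‖ ^ 2 =
      2 * D.φ 0 - 2 * (Real.exp (-‖z - z'‖ ^ 2 / 2) * D.φ (z - z')) := by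
    rw [norm_sub_sq (𝕜 := ℂ), norm_smul, hc1, one_mul, norm_k_sq, norm_k_sq, inner_smul_right]
    have : c * inner ℂ (D.k z) (D.k z') = ((Real.exp (-‖z - z'‖ ^ 2 / 2) * D.φ (z - z') : ℝ) : ℂ) := by
      change c * D.κ z z' = _
      rw [kappa_eq', hc, ← mul_assoc, ← Complex.exp_add]
      simp
    rw [this]
    simp only [RCLike.re_to_complex, ofReal_re]
    ring
  have h2 : dist (z - z') 0 < δ := by
    rw [dist_zero_right, ← dist_eq_norm]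
    linarith
  have h3 := h h2
  rw [Real.dist_eq, sub_zero] at h3
  have h4 := (abs_lt.mp h3).2
  rw [← h1] at h4
  exact (abs_le.mp (abs_le_of_sq_le_sq h4.le hε.le)).2

lemma norm_k (z : ℂ) : ‖D.k z‖ = ‖D.k 0‖ := by
  have h1 := D.norm_k_sq z
  have h2 := D.norm_k_sq 0
  rw [← h2] at h1
  exact (pow_left_inj₀ (norm_nonneg _) (norm_nonneg _) two_ne_zero).mp h1

/-- phase invariant product -/
noncomputable def G (A : GaussL2 →L[ℂ] GaussL2) (z w : ℂ) : ℂ :=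
  inner ℂ (D.k z) (A (D.k w)) * inner ℂ (D.k w) (D.k z)

lemma norm_inner_k_le (A : GaussL2 →L[ℂ] GaussL2) (z w : ℂ) :
    ‖inner ℂ (D.k z) (A (D.k w))‖ ≤ ‖A‖ * ‖D.k 0‖ ^ 2 := by
  calc ‖inner ℂ (D.k z) (A (D.k w))‖ ≤ ‖D.k z‖ * ‖A (D.k w)‖ := norm_inner_le_norm _ _
    _ ≤ ‖D.k z‖ * (‖A‖ * ‖D.k w‖) := by gcongr; exact A.le_opNorm _
    _ = _ := by rw [D.norm_k z, D.norm_k w]; ring

lemma norm_G_le (A : GaussL2 →L[ℂ] GaussL2) (z w : ℂ) :
    ‖D.G A z w‖ ≤ ‖A‖ * ‖D.k 0‖ ^ 4 := by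
  unfold G
  rw [norm_mul]
  have h1 := D.norm_inner_k_le A z w
  have h2 : ‖inner ℂ (D.k w) (D.k z)‖ ≤ ‖D.k 0‖ ^ 2 := by
    refine (norm_inner_le_norm _ _).trans ?_
    rw [D.norm_k z, D.norm_k w]
    exact le_of_eq (by ring)
  calc _ ≤ (‖A‖ * ‖D.k 0‖ ^ 2) * ‖D.k 0‖ ^ 2 := by gcongr
    _ = _ := by ring

lemma G_phase (A : GaussL2 →L[ℂ] GaussL2) (a b : GaussL2) (c d : ℂ) (hc : ‖c‖ = 1) (hd : ‖d‖ = 1) :
    inner ℂ (c • a) (A (d • b)) * inner ℂ (d • b) (c • a) = inner ℂ a (A b) * inner ℂ b a := by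
  rw [map_smul, inner_smul_left, inner_smul_right, inner_smul_left, inner_smul_right]
  have h1 : conj c * c = 1 := by
    rw [mul_comm, Complex.mul_conj, Complex.normSq_eq_norm_sq, hc]; simp
  have h2 : conj d * d = 1 := by
    rw [mul_comm, Complex.mul_conj, Complex.normSq_eq_norm_sq, hd]; simp
  calc _ = (conj c * c) * (conj d * d) * (inner ℂ a (A b) * inner ℂ b a) := by ring
    _ = _ := by rw [h1, h2]; ring

lemma G_uc (A : GaussL2 →L[ℂ] GaussL2) (η : ℝ) (hη : 0 < η) :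
    ∃ δ > 0, ∀ z z' w w' : ℂ, dist z z' ≤ δ → dist w w' ≤ δ →
      ‖D.G A z w - D.G A z' w'‖ ≤ η := by
  set N := ‖D.k 0‖ with hN
  have hN0 : 0 ≤ N := norm_nonneg _
  set ε := η / (4 * (‖A‖ + 1) * (N + 1) ^ 3) with hε
  have hε0 : 0 < ε := by positivity
  obtain ⟨δ, hδ, h⟩ := D.kernel_close ε hε0
  refine ⟨δ, hδ, fun z z' w w' hz hw => ?_⟩
  obtain ⟨c, hc, hzc⟩ := h z z' hz
  obtain ⟨d, hd, hwd⟩ := h w w' hw
  unfold G
  rw [← G_phase A (D.k z') (D.k w') c d hc hd]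
  set a1 := D.k z
  set a2 := c • D.k z'
  set b1 := D.k w
  set b2 := d • D.k w'
  have ha1 : ‖a1‖ = N := D.norm_k z
  have ha2 : ‖a2‖ = N := by simp only [a2, norm_smul, hc, one_mul, D.norm_k z']; rfl
  have hb1 : ‖b1‖ = N := D.norm_k w
  have hb2 : ‖b2‖ = N := by simp only [b2, norm_smul, hd, one_mul, D.norm_k w']; rfl
  have e : inner ℂ a1 (A b1) * inner ℂ b1 a1 - inner ℂ a2 (A b2) * inner ℂ b2 a2
      = (inner ℂ (a1 - a2) (A b1) + inner ℂ a2 (A (b1 - b2))) * inner ℂ b1 a1 +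
        inner ℂ a2 (A b2) * (inner ℂ (b1 - b2) a1 + inner ℂ b2 (a1 - a2)) := by
    simp only [inner_sub_left, inner_sub_right, map_sub]
    ring
  rw [e]
  have n1 : ‖(inner ℂ (a1 - a2) (A b1) : ℂ)‖ ≤ ε * (‖A‖ * N) := by
    refine (norm_inner_le_norm _ _).trans ?_
    have := A.le_opNorm b1
    rw [hb1] at this
    gcongr
  have n2 : ‖(inner ℂ a2 (A (b1 - b2)) : ℂ)‖ ≤ N * (‖A‖ * ε) := by
    refine (norm_inner_le_norm _ _).trans ?_
    have := A.le_opNorm (b1 - b2)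
    rw [ha2]
    gcongr
    exact this.trans (by gcongr)
  have n3 : ‖(inner ℂ b1 a1 : ℂ)‖ ≤ N * N := by
    refine (norm_inner_le_norm _ _).trans ?_
    rw [hb1, ha1]
  have n4 : ‖(inner ℂ a2 (A b2) : ℂ)‖ ≤ N * (‖A‖ * N) := by
    refine (norm_inner_le_norm _ _).trans ?_
    have := A.le_opNorm b2
    rw [hb2] at this
    rw [ha2]
    gcongr
  have n5 : ‖(inner ℂ (b1 - b2) a1 : ℂ)‖ ≤ ε * N := by
    refine (norm_inner_le_norm _ _).trans ?_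
    rw [ha1]
    gcongr
  have n6 : ‖(inner ℂ b2 (a1 - a2) : ℂ)‖ ≤ N * ε := by
    refine (norm_inner_le_norm _ _).trans ?_
    rw [hb2]
    gcongr
  calc _ ≤ (ε * (‖A‖ * N) + N * (‖A‖ * ε)) * (N * N) + N * (‖A‖ * N) * (ε * N + N * ε) := by
        refine (norm_add_le _ _).trans ?_
        rw [norm_mul, norm_mul]
        have m1 := (norm_add_le (inner ℂ (a1 - a2) (A b1)) (inner ℂ a2 (A (b1 - b2)))).trans
          (add_le_add n1 n2)
        have m2 := (norm_add_le (inner ℂ (b1 - b2) a1) (inner ℂ b2 (a1 - a2))).trans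
          (add_le_add n5 n6)
        gcongr
    _ = 4 * ‖A‖ * N ^ 3 * ε := by ring
    _ ≤ 4 * (‖A‖ + 1) * (N + 1) ^ 3 * ε := by
        have : N ^ 3 ≤ (N + 1) ^ 3 := by gcongr; linarith
        have h2 : 4 * ‖A‖ ≤ 4 * (‖A‖ + 1) := by linarith
        gcongr
    _ = η := by rw [hε]; field_simp

end RKData

end Pool.Agent.helper21.Fock
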