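import Mathlib
import Pool.Agent.helper21.FockRK

set_option autoImplicit false

open MeasureTheory Complex ENNReal ComplexConjugate

namespace Pool.Agent.helper21.Fock

lemma enorm_sq_ind_le (K : Set ℂ) (hK : MeasurableSet K) (x : GaussL2) :
    ‖mulOp (indLinfty K hK) x‖ ≤ ‖x‖ := by
  have h : ‖mulOp (indLinfty K hK) x‖ₑ ^ 2 ≤ ‖x‖ₑ ^ 2 := by
    rw [enorm_sq_eq, enorm_sq_eq]
    refine lintegral_mono_ae ?_
    filter_upwards [ind_apply_ae K hK x] with z hz
    rw [hz]
    by_cases hzK : z ∈ K <;> simp [hzK]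
  rw [← ofReal_norm, ← ofReal_norm, ← ENNReal.ofReal_pow (norm_nonneg _),
    ← ENNReal.ofReal_pow (norm_nonneg _), ENNReal.ofReal_le_ofReal_iff (by positivity)] at h
  exact (abs_le.mp (abs_le_of_sq_le_sq h (norm_nonneg _))).2

namespace RKData

variable {F : Submodule ℂ GaussL2} (D : RKData F)

lemma k_ae (z : ℂ) : D.k z =ᵐ[gaussianMeasure] fun w =>
    ((Real.exp (-‖z‖ ^ 2 / 2) : ℝ) : ℂ) * (cexp (conj z * w) * (D.φ (w - z) : ℂ)) := by
  unfold k
  filter_upwards [Lp.coeFn_smul ((Real.exp (-‖z‖ ^ 2 / 2) : ℝ) : ℂ) (D.K z), D.K_ae z] with w h1 h2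
  rw [h1, Pi.smul_apply, h2, smul_eq_mul]

lemma tail_bound (z : ℂ) (s : ℝ) (hs : 0 ≤ s) :
    ‖mulOp (indLinfty (Metric.ball z s)ᶜ Metric.isOpen_ball.measurableSet.compl) (D.k z)‖ ^ 2 ≤
      D.C ^ 2 * (∫ u : ℂ, Real.exp (-(1/4) * ‖u‖ ^ 2)) / Real.pi * Real.exp (-s ^ 2 / 4) := by
  set I0 := ∫ u : ℂ, Real.exp (-(1/4) * ‖u‖ ^ 2) with hI0
  have hI0nn : 0 ≤ I0 := integral_nonneg fun u => (Real.exp_pos _).le
  have hC := D.C_nonneg
  have h : ‖mulOp (indLinfty (Metric.ball z s)ᶜ Metric.isOpen_ball.measurableSet.compl) (D.k z)‖ₑ ^ 2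
      ≤ ENNReal.ofReal (D.C ^ 2 * I0 / Real.pi * Real.exp (-s ^ 2 / 4)) := by
    rw [enorm_sq_eq, lintegral_gauss]
    have hb : ∀ᵐ v : ℂ, ENNReal.ofReal (Real.exp (-‖v‖ ^ 2) / Real.pi) *
        ‖mulOp (indLinfty (Metric.ball z s)ᶜ Metric.isOpen_ball.measurableSet.compl) (D.k z) v‖ₑ ^ 2
        ≤ ENNReal.ofReal (D.C ^ 2 / Real.pi * Real.exp (-s ^ 2 / 4)) *
          ENNReal.ofReal (Real.exp (-(1/4) * ‖v - z‖ ^ 2)) := by
      have h1 := volume_ac_gauss (ind_apply_ae (Metric.ball z s)ᶜ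
        Metric.isOpen_ball.measurableSet.compl (D.k z))
      have h2 := volume_ac_gauss (D.k_ae z)
      filter_upwards [h1, h2] with v h1 h2
      rw [h1]
      by_cases hv : v ∈ (Metric.ball z s)ᶜ
      · rw [Set.indicator_of_mem hv, h2]
        have hvs : s ≤ ‖v - z‖ := by
          rw [← dist_eq_norm]
          simpa using hv
        have e1 : ‖((Real.exp (-‖z‖ ^ 2 / 2) : ℝ) : ℂ) * (cexp (conj z * v) * (D.φ (v - z) : ℂ))‖ₑ ^ 2
            = ENNReal.ofReal ((Real.exp (-‖z‖ ^ 2 / 2) * (Real.exp ((conj z * v).re) *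
              |D.φ (v - z)|)) ^ 2) := by
          rw [← ofReal_norm, ← ENNReal.ofReal_pow (norm_nonneg _)]
          congr 2
          rw [norm_mul, norm_mul, Complex.norm_exp, Complex.norm_real, Complex.norm_real,
            Real.norm_eq_abs, Real.norm_eq_abs, abs_of_pos (Real.exp_pos _)]
        rw [e1, ← ENNReal.ofReal_mul (by positivity), ← ENNReal.ofReal_mul (by positivity)]
        refine ENNReal.ofReal_le_ofReal ?_
        have e2 : Real.exp (-‖v‖ ^ 2) / Real.pi * (Real.exp (-‖z‖ ^ 2 / 2) *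
            (Real.exp ((conj z * v).re) * |D.φ (v - z)|)) ^ 2
            = Real.exp (-‖v - z‖ ^ 2) / Real.pi * |D.φ (v - z)| ^ 2 := by
          rw [mul_pow, mul_pow, ← Real.exp_nat_mul, ← Real.exp_nat_mul]
          have : Real.exp (-‖v - z‖ ^ 2) = Real.exp (-‖v‖ ^ 2) *
              (Real.exp ((2 : ℕ) * (-‖z‖ ^ 2 / 2)) * Real.exp ((2 : ℕ) * (conj z * v).re)) := by
            rw [← Real.exp_add, ← Real.exp_add]
            congr 1
            rw [cnorm_sub_sq]
            push_cast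
            ring
          rw [this]
          ring
        rw [e2]
        have g := D.growth (v - z)
        have g2 : |D.φ (v - z)| ^ 2 ≤ (D.C * Real.exp (‖v - z‖ ^ 2 / 4)) ^ 2 := by gcongr
        calc Real.exp (-‖v - z‖ ^ 2) / Real.pi * |D.φ (v - z)| ^ 2
            ≤ Real.exp (-‖v - z‖ ^ 2) / Real.pi * (D.C * Real.exp (‖v - z‖ ^ 2 / 4)) ^ 2 := by
              gcongr
          _ = D.C ^ 2 / Real.pi * Real.exp (-‖v - z‖ ^ 2 / 4) *
              Real.exp (-(1/4) * ‖v - z‖ ^ 2) := by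
              rw [mul_pow, ← Real.exp_nat_mul]
              have : Real.exp (-‖v - z‖ ^ 2) * Real.exp ((2 : ℕ) * (‖v - z‖ ^ 2 / 4))
                  = Real.exp (-‖v - z‖ ^ 2 / 4) * Real.exp (-(1/4) * ‖v - z‖ ^ 2) := by
                rw [← Real.exp_add, ← Real.exp_add]
                congr 1
                push_cast
                ring
              calc _ = D.C ^ 2 / Real.pi * (Real.exp (-‖v - z‖ ^ 2) *
                    Real.exp ((2 : ℕ) * (‖v - z‖ ^ 2 / 4))) := by ring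
                _ = _ := by rw [this]; ring
          _ ≤ _ := by
              have : Real.exp (-‖v - z‖ ^ 2 / 4) ≤ Real.exp (-s ^ 2 / 4) := by
                apply Real.exp_le_exp.mpr
                have : s ^ 2 ≤ ‖v - z‖ ^ 2 := by gcongr
                linarith
              gcongr
      · rw [Set.indicator_of_notMem hv]
        simp
    refine (lintegral_mono_ae hb).trans ?_
    rw [lintegral_const_mul' _ _ ENNReal.ofReal_ne_top]
    have e3 : ∫⁻ v : ℂ, ENNReal.ofReal (Real.exp (-(1/4) * ‖v - z‖ ^ 2))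
        = ENNReal.ofReal I0 := by
      rw [lintegral_sub_right_eq_self (fun u : ℂ => ENNReal.ofReal (Real.exp (-(1/4) * ‖u‖ ^ 2))) z,
        hI0, ofReal_integral_eq_lintegral_ofReal (integrable_gauss_real (by norm_num))
          (Filter.Eventually.of_forall fun u => (Real.exp_pos _).le)]
    rw [e3, ← ENNReal.ofReal_mul (by positivity)]
    apply ENNReal.ofReal_le_ofReal
    apply le_of_eq
    ring
  rw [← ofReal_norm, ← ENNReal.ofReal_pow (norm_nonneg _),
    ENNReal.ofReal_le_ofReal_iff (by positivity)] at h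
  exact h

/-- Off-diagonal decay of the kernel of a compressed band operator. -/
lemma band_decay {T : GaussL2 →L[ℂ] GaussL2} (hT : IsBand T) :
    ∃ C' : ℝ, 0 ≤ C' ∧ ∀ z w, ‖inner ℂ (D.k z) (T (D.k w))‖ ≤
      C' * Real.exp (-(1/64) * ‖z - w‖ ^ 2) := by
  obtain ⟨ω₀, hω₀⟩ := hT
  set ω := max ω₀ 0 with hω
  have hωnn : 0 ≤ ω := le_max_right _ _
  set N := ‖D.k 0‖ with hN
  have hN0 : 0 ≤ N := norm_nonneg _
  set I0 := ∫ u : ℂ, Real.exp (-(1/4) * ‖u‖ ^ 2) with hI0
  have hI0nn : 0 ≤ I0 := integral_nonneg fun u => (Real.exp_pos _).le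
  set B := Real.sqrt (D.C ^ 2 * I0 / Real.pi) with hB
  have hBnn : 0 ≤ B := Real.sqrt_nonneg _
  have tail : ∀ (z : ℂ) (s : ℝ), 0 ≤ s →
      ‖mulOp (indLinfty (Metric.ball z s)ᶜ Metric.isOpen_ball.measurableSet.compl) (D.k z)‖ ≤
        B * Real.exp (-s ^ 2 / 8) := by
    intro z s hs
    have h := D.tail_bound z s hs
    rw [← hI0] at h
    have e : (B * Real.exp (-s ^ 2 / 8)) ^ 2 = D.C ^ 2 * I0 / Real.pi * Real.exp (-s ^ 2 / 4) := by
      rw [mul_pow, hB, Real.sq_sqrt (by positivity), ← Real.exp_nat_mul]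
      congr 2
      push_cast; ring
    rw [← e] at h
    exact (abs_le.mp (abs_le_of_sq_le_sq h (by positivity))).2
  refine ⟨(2 * N * ‖T‖ * B + ‖T‖ * N ^ 2) * Real.exp (ω ^ 2 / 32), by positivity, fun z w => ?_⟩
  set r := ‖z - w‖ with hr
  have hr0 : 0 ≤ r := norm_nonneg _
  rcases le_or_gt r ω with hrω | hrω
  · have h1 := D.norm_inner_k_le T z w
    have h2 : (1 : ℝ) ≤ Real.exp (ω ^ 2 / 32) * Real.exp (-(1/64) * r ^ 2) := by
      rw [← Real.exp_add]
      apply Real.one_le_exp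
      have : r ^ 2 ≤ ω ^ 2 := by gcongr
      nlinarith [sq_nonneg ω]
    calc _ ≤ ‖T‖ * N ^ 2 := h1
      _ ≤ (‖T‖ * N ^ 2) * (Real.exp (ω ^ 2 / 32) * Real.exp (-(1/64) * r ^ 2)) := by
        exact le_mul_of_one_le_right (by positivity) h2
      _ ≤ (2 * N * ‖T‖ * B + ‖T‖ * N ^ 2) * (Real.exp (ω ^ 2 / 32) * Real.exp (-(1/64) * r ^ 2)) := by
        have : 0 ≤ 2 * N * ‖T‖ * B := by positivity
        gcongr
        linarith
      _ = _ := by ring
  · set s := (r - ω) / 2 with hs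
    have hs0 : 0 ≤ s := by rw [hs]; linarith
    set K := Metric.ball w s with hK
    set K' := Metric.ball z s with hK'
    have hKm : MeasurableSet K := Metric.isOpen_ball.measurableSet
    have hKm' : MeasurableSet K' := Metric.isOpen_ball.measurableSet
    have h0 : mulOp (indLinfty K' hKm') ∘L T ∘L mulOp (indLinfty K hKm) = 0 := by
      refine hω₀ K K' hKm hKm' fun v hv v' hv' => ?_
      have h1 : dist v w < s := hv
      have h2 : dist v' z < s := hv'
      have h3 : dist z w = r := dist_eq_norm z w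
      have h4 := dist_triangle4 z v' v w
      rw [dist_comm z v'] at h4
      have h5 : ω < dist v' v := by
        have : r = 2 * s + ω := by rw [hs]; ring
        linarith
      rw [dist_comm]
      exact (le_max_left _ _).trans_lt h5
    have e1 : (inner ℂ (D.k z) (T (D.k w)) : ℂ) =
        inner ℂ (mulOp (indLinfty K'ᶜ hKm'.compl) (D.k z)) (T (mulOp (indLinfty K hKm) (D.k w)))
        + inner ℂ (D.k z) (T (mulOp (indLinfty Kᶜ hKm.compl) (D.k w))) := by
      have s1 := ind_add_compl K hKm (D.k w)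
      have s2 := ind_add_compl K' hKm' (D.k z)
      have z1 : (inner ℂ (mulOp (indLinfty K' hKm') (D.k z))
          (T (mulOp (indLinfty K hKm) (D.k w))) : ℂ) = 0 := by
        rw [mulOp_star_inner, star_indLinfty]
        have := congrArg (fun A => A (D.k w)) h0
        simp only [ContinuousLinearMap.coe_comp, Function.comp_apply, zero_apply] at this
        rw [this, inner_zero_right]
      calc (inner ℂ (D.k z) (T (D.k w)) : ℂ)
          = inner ℂ (D.k z) (T (mulOp (indLinfty K hKm) (D.k w)))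
            + inner ℂ (D.k z) (T (mulOp (indLinfty Kᶜ hKm.compl) (D.k w))) := by
            rw [← inner_add_right, ← map_add, s1]
        _ = _ := by
            congr 1
            conv_lhs => rw [← s2]
            rw [inner_add_left, z1, zero_add]
    rw [e1]
    have b1 : ‖(inner ℂ (mulOp (indLinfty K'ᶜ hKm'.compl) (D.k z))
        (T (mulOp (indLinfty K hKm) (D.k w))) : ℂ)‖ ≤ (B * Real.exp (-s ^ 2 / 8)) * (‖T‖ * N) := by
      refine (norm_inner_le_norm _ _).trans ?_
      have t1 := tail z s hs0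
      have t2 : ‖T (mulOp (indLinfty K hKm) (D.k w))‖ ≤ ‖T‖ * N := by
        refine (T.le_opNorm _).trans ?_
        have := enorm_sq_ind_le K hKm (D.k w)
        rw [D.norm_k w] at this
        gcongr
      gcongr
    have b2 : ‖(inner ℂ (D.k z) (T (mulOp (indLinfty Kᶜ hKm.compl) (D.k w))) : ℂ)‖ ≤
        N * (‖T‖ * (B * Real.exp (-s ^ 2 / 8))) := by
      refine (norm_inner_le_norm _ _).trans ?_
      rw [D.norm_k z]
      have t1 := tail w s hs0
      have t2 : ‖T (mulOp (indLinfty Kᶜ hKm.compl) (D.k w))‖ ≤ ‖T‖ * (B * Real.exp (-s ^ 2 / 8)) := by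
        refine (T.le_opNorm _).trans ?_
        gcongr
      gcongr
    have b3 : Real.exp (-s ^ 2 / 8) ≤ Real.exp (ω ^ 2 / 32) * Real.exp (-(1/64) * r ^ 2) := by
      rw [← Real.exp_add]
      apply Real.exp_le_exp.mpr
      rw [hs]
      nlinarith [sq_nonneg (r - 2 * ω)]
    calc _ ≤ (B * Real.exp (-s ^ 2 / 8)) * (‖T‖ * N) + N * (‖T‖ * (B * Real.exp (-s ^ 2 / 8))) :=
          (norm_add_le _ _).trans (add_le_add b1 b2)
      _ = (2 * N * ‖T‖ * B) * Real.exp (-s ^ 2 / 8) := by ring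
      _ ≤ (2 * N * ‖T‖ * B) * (Real.exp (ω ^ 2 / 32) * Real.exp (-(1/64) * r ^ 2)) := by gcongr
      _ ≤ (2 * N * ‖T‖ * B + ‖T‖ * N ^ 2) * (Real.exp (ω ^ 2 / 32) * Real.exp (-(1/64) * r ^ 2)) := by
        have : 0 ≤ ‖T‖ * N ^ 2 := by positivity
        gcongr
        linarith
      _ = _ := by ring

end RKData

end Pool.Agent.helper21.Fock
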