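import Mathlib
import Pool.Agent.helper21.FockDecay

set_option autoImplicit false

open MeasureTheory Complex ENNReal ComplexConjugate

namespace Pool.Agent.helper21.Fock
namespace RKData

variable {F : Submodule ℂ GaussL2} (D : RKData F)

/-- `ρ(u) = |κ(z,w)|²` for `u = z - w`. -/
noncomputable def ρ (u : ℂ) : ℝ := (Real.exp (-‖u‖ ^ 2 / 2) * |D.φ u|) ^ 2

lemma rho_nonneg (u : ℂ) : 0 ≤ D.ρ u := by unfold ρ; positivity

lemma continuous_rho : Continuous D.ρ := by
  have := D.cont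
  unfold ρ
  fun_prop

lemma G_one (z w : ℂ) : D.G 1 z w = ((D.ρ (z - w) : ℝ) : ℂ) := by
  unfold G ρ
  have h1 : (inner ℂ (D.k w) (D.k z) : ℂ) = conj (inner ℂ (D.k z) (D.k w)) :=
    (inner_conj_symm _ _).symm
  rw [one_apply_eq_self, h1, Complex.mul_conj, Complex.normSq_eq_norm_sq]
  have := D.norm_kappa z w
  unfold κ at this
  rw [this]

lemma norm_kappa_le (z w : ℂ) : ‖D.κ z w‖ ≤ D.C * Real.exp (-(1/4) * ‖z - w‖ ^ 2) := by
  rw [norm_kappa]
  have h := D.growth (z - w)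
  calc _ ≤ Real.exp (-‖z - w‖ ^ 2 / 2) * (D.C * Real.exp (‖z - w‖ ^ 2 / 4)) := by gcongr
    _ = D.C * (Real.exp (-‖z - w‖ ^ 2 / 2) * Real.exp (‖z - w‖ ^ 2 / 4)) := by ring
    _ = _ := by
      rw [← Real.exp_add]
      congr 2
      ring

/-- the symbol `H_ε = G_T / (|κ|² + ε)` -/
noncomputable def Hs (T : GaussL2 →L[ℂ] GaussL2) (ε : ℝ) (z w : ℂ) : ℂ :=
  D.G T z w / (D.G 1 z w + ε)

lemma den_norm (ε : ℝ) (hε : 0 < ε) (z w : ℂ) : ε ≤ ‖D.G 1 z w + (ε : ℂ)‖ := by
  rw [G_one, ← Complex.ofReal_add, Complex.norm_real, Real.norm_eq_abs, abs_of_nonneg]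
  · linarith [D.rho_nonneg (z - w)]
  · linarith [D.rho_nonneg (z - w)]

lemma Hs_bound (T : GaussL2 →L[ℂ] GaussL2) (ε : ℝ) (hε : 0 < ε) (z w : ℂ) :
    ‖D.Hs T ε z w‖ ≤ ‖T‖ * ‖D.k 0‖ ^ 4 / ε := by
  unfold Hs
  rw [norm_div]
  have h1 := D.norm_G_le T z w
  have h2 := D.den_norm ε hε z w
  gcongr

lemma Hs_uc (T : GaussL2 →L[ℂ] GaussL2) (ε : ℝ) (hε : 0 < ε) (η : ℝ) (hη : 0 < η) :
    ∃ δ > 0, ∀ z z' w w' : ℂ, dist z z' ≤ δ → dist w w' ≤ δ →
      ‖D.Hs T ε z w - D.Hs T ε z' w'‖ ≤ η := by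
  set M := ‖T‖ * ‖D.k 0‖ ^ 4 with hM
  have hM0 : 0 ≤ M := by positivity
  set e1 := η * ε / 2 with he1
  set e2 := η * ε ^ 2 / (2 * (M + 1)) with he2
  obtain ⟨δ1, hδ1, h1⟩ := D.G_uc T e1 (by positivity)
  obtain ⟨δ2, hδ2, h2⟩ := D.G_uc 1 e2 (by positivity)
  refine ⟨min δ1 δ2, lt_min hδ1 hδ2, fun z z' w w' hz hw => ?_⟩
  have g1 := h1 z z' w w' (hz.trans (min_le_left _ _)) (hw.trans (min_le_left _ _))
  have g2 := h2 z z' w w' (hz.trans (min_le_right _ _)) (hw.trans (min_le_right _ _))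
  unfold Hs
  set a := D.G T z w
  set a' := D.G T z' w'
  set b := D.G 1 z w + (ε : ℂ)
  set b' := D.G 1 z' w' + (ε : ℂ)
  have hb : ε ≤ ‖b‖ := D.den_norm ε hε z w
  have hb' : ε ≤ ‖b'‖ := D.den_norm ε hε z' w'
  have ha' : ‖a'‖ ≤ M := D.norm_G_le T z' w'
  have hbb : ‖b' - b‖ ≤ e2 := by
    have : b' - b = -(D.G 1 z w - D.G 1 z' w') := by simp only [b, b']; ring
    rw [this, norm_neg]
    exact g2
  have hb0 : b ≠ 0 := by intro h; rw [h, norm_zero] at hb; linarith
  have hb0' : b' ≠ 0 := by intro h; rw [h, norm_zero] at hb'; linarith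
  have e : a / b - a' / b' = (a - a') / b + a' * (b' - b) / (b * b') := by
    field_simp
    ring
  rw [e]
  calc ‖(a - a') / b + a' * (b' - b) / (b * b')‖
      ≤ ‖(a - a') / b‖ + ‖a' * (b' - b) / (b * b')‖ := norm_add_le _ _
    _ ≤ e1 / ε + M * e2 / (ε * ε) := by
        rw [norm_div, norm_div, norm_mul, norm_mul]
        gcongr
    _ ≤ η / 2 + η / 2 := by
        have p1 : e1 / ε = η / 2 := by rw [he1]; field_simp
        have p2 : M * e2 / (ε * ε) ≤ η / 2 := by
          have : M * e2 / (ε * ε) = (M / (M + 1)) * (η / 2) := by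
            rw [he2]; field_simp
          rw [this]
          have : M / (M + 1) ≤ 1 := by
            rw [div_le_one (by positivity)]; linarith
          calc M / (M + 1) * (η / 2) ≤ 1 * (η / 2) := by gcongr
            _ = η / 2 := one_mul _
        linarith
    _ = η := by ring

lemma h_sub_Hs (T : GaussL2 →L[ℂ] GaussL2) (ε : ℝ) (hε : 0 < ε) (z w : ℂ) :
    (inner ℂ (D.k z) (T (D.k w)) : ℂ) - D.Hs T ε z w * D.κ z w =
      inner ℂ (D.k z) (T (D.k w)) * ((ε / (D.ρ (z - w) + ε) : ℝ) : ℂ) := by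
  unfold Hs
  have h1 := D.G_one z w
  have h2 : (D.G 1 z w : ℂ) = D.κ z w * inner ℂ (D.k w) (D.k z) := rfl
  have h3 : D.G T z w = inner ℂ (D.k z) (T (D.k w)) * inner ℂ (D.k w) (D.k z) := rfl
  have hd : (D.G 1 z w + (ε : ℂ)) ≠ 0 := by
    intro h
    have := D.den_norm ε hε z w
    rw [h, norm_zero] at this
    linarith
  have e1 : ((ε / (D.ρ (z - w) + ε) : ℝ) : ℂ) = (ε : ℂ) / (D.G 1 z w + ε) := by
    rw [h1]; push_cast; rfl
  rw [e1, h3]
  have e2 : (inner ℂ (D.k z) (T (D.k w)) : ℂ) * inner ℂ (D.k w) (D.k z) / (D.G 1 z w + ε) * D.κ z w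
      = inner ℂ (D.k z) (T (D.k w)) * (D.G 1 z w) / (D.G 1 z w + ε) := by
    rw [h2]; ring
  rw [e2]
  field_simp
  ring

/-- Main approximation: the kernel of a compressed band operator is approximated, in the
Schur norm, by finite sums `∑ f_i(z) κ(z,w) g_i(w)`. -/
lemma main_approx {T : GaussL2 →L[ℂ] GaussL2} (hT : IsBand T) (η : ℝ) (hη : 0 < η) :
    ∃ (ι : Type) (_ : Fintype ι) (f g : ι → ℂ → ℂ) (B : ℝ) (γ : ℂ → ℝ),
      (∀ i, Measurable (f i)) ∧ (∀ i, Measurable (g i)) ∧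
      (∀ i z, ‖f i z‖ ≤ B) ∧ (∀ i z, ‖g i z‖ ≤ B) ∧
      Measurable γ ∧ (∀ u, 0 ≤ γ u) ∧ Integrable γ ∧ (∫ u, γ u) / Real.pi ≤ η ∧
      ∀ z w, ‖(inner ℂ (D.k z) (T (D.k w)) : ℂ) - ∑ i, f i z * g i w * D.κ z w‖ ≤ γ (z - w) := by
  obtain ⟨C', hC', hdec⟩ := D.band_decay hT
  have hC := D.C_nonneg
  have hpi := Real.pi_pos
  -- step 1: choose ε
  have hint1 : Integrable fun u : ℂ => C' * Real.exp (-(1/64) * ‖u‖ ^ 2) :=
    (integrable_gauss_real (by norm_num)).const_mul _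
  have hlim : Filter.Tendsto (fun n : ℕ => ∫ u : ℂ, C' * Real.exp (-(1/64) * ‖u‖ ^ 2) *
      ((1 / ((n : ℝ) + 1)) / (D.ρ u + 1 / ((n : ℝ) + 1)))) Filter.atTop (nhds (∫ u : ℂ, (0 : ℝ))) := by
    refine tendsto_integral_of_dominated_convergence
      (fun u : ℂ => C' * Real.exp (-(1/64) * ‖u‖ ^ 2)) ?_ hint1 ?_ ?_
    · intro n
      refine Continuous.aestronglyMeasurable ?_
      have := D.continuous_rho
      have hne : ∀ u, D.ρ u + 1 / ((n : ℝ) + 1) ≠ 0 := by
        intro u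
        have h1 := D.rho_nonneg u
        have h2 : (0 : ℝ) < 1 / ((n : ℝ) + 1) := by positivity
        positivity
      fun_prop (disch := assumption)
    · intro n
      refine Filter.Eventually.of_forall fun u => ?_
      have h1 := D.rho_nonneg u
      have h2 : (0 : ℝ) < 1 / ((n : ℝ) + 1) := by positivity
      rw [Real.norm_eq_abs, abs_of_nonneg (by positivity)]
      refine mul_le_of_le_one_right (by positivity) ?_
      rw [div_le_one (by positivity)]
      linarith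
    · filter_upwards [D.ae_ne] with u hu
      have hρ : 0 < D.ρ u := by
        unfold ρ
        have := abs_pos.mpr hu
        positivity
      have t1 : Filter.Tendsto (fun n : ℕ => (1 / ((n : ℝ) + 1))) Filter.atTop (nhds 0) :=
        tendsto_one_div_add_atTop_nhds_zero_nat
      have t2 : Filter.Tendsto (fun n : ℕ => (1 / ((n : ℝ) + 1)) / (D.ρ u + 1 / ((n : ℝ) + 1)))
          Filter.atTop (nhds (0 / (D.ρ u + 0))) :=
        t1.div (t1.const_add _) (by rw [add_zero]; exact hρ.ne')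
      have t3 := t2.const_mul (C' * Real.exp (-(1/64) * ‖u‖ ^ 2))
      simpa using t3
  rw [integral_zero] at hlim
  have hη3 : 0 < η * Real.pi / 3 := by positivity
  obtain ⟨n, hn⟩ := ((hlim.eventually (gt_mem_nhds hη3))).exists
  set ε : ℝ := 1 / ((n : ℝ) + 1) with hε
  have hε0 : 0 < ε := by positivity
  set γ1 : ℂ → ℝ := fun u => C' * Real.exp (-(1/64) * ‖u‖ ^ 2) * (ε / (D.ρ u + ε)) with hγ1
  have hγ1c : Continuous γ1 := by
    have := D.continuous_rho
    have hne : ∀ u, D.ρ u + ε ≠ 0 := by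
      intro u
      have h1 := D.rho_nonneg u
      positivity
    simp only [hγ1]
    fun_prop (disch := assumption)
  have hγ1nn : ∀ u, 0 ≤ γ1 u := fun u => by
    have h1 := D.rho_nonneg u
    simp only [hγ1]
    positivity
  have hγ1i : Integrable γ1 := by
    refine hint1.mono' hγ1c.aestronglyMeasurable (Filter.Eventually.of_forall fun u => ?_)
    have h1 := D.rho_nonneg u
    rw [Real.norm_eq_abs, abs_of_nonneg (hγ1nn u)]
    refine mul_le_of_le_one_right (by positivity) ?_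
    rw [div_le_one (by positivity)]
    linarith
  -- step 2: colouring
  set M := ‖T‖ * ‖D.k 0‖ ^ 4 / ε with hM
  have hM0 : 0 ≤ M := by positivity
  set I4 := ∫ u : ℂ, Real.exp (-(1/4) * ‖u‖ ^ 2) with hI4
  set I8 := ∫ u : ℂ, Real.exp (-(1/8) * ‖u‖ ^ 2) with hI8
  have hI4nn : 0 ≤ I4 := integral_nonneg fun u => (Real.exp_pos _).le
  have hI8nn : 0 ≤ I8 := integral_nonneg fun u => (Real.exp_pos _).le
  set η' := η * Real.pi / (3 * (D.C * I4 + 1)) with hη'
  have hη'0 : 0 < η' := by positivity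
  obtain ⟨R, hR0, hR⟩ : ∃ R : ℝ, 0 ≤ R ∧ 2 * M * D.C * Real.exp (-R ^ 2 / 8) * I8 ≤ η * Real.pi / 3 := by
    have t1 : Filter.Tendsto (fun R : ℝ => 2 * M * D.C * Real.exp (-R ^ 2 / 8) * I8)
        Filter.atTop (nhds (2 * M * D.C * 0 * I8)) := by
      refine Filter.Tendsto.mul_const _ (Filter.Tendsto.const_mul _ ?_)
      refine Real.tendsto_exp_atBot.comp ?_
      have : (fun R : ℝ => -R ^ 2 / 8) = fun R : ℝ => -((1 / 8) * R ^ 2) := by
        funext R; ring
      rw [this]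
      refine Filter.tendsto_neg_atTop_atBot.comp ?_
      exact Filter.Tendsto.const_mul_atTop (by norm_num) (Filter.tendsto_pow_atTop two_ne_zero)
    rw [mul_zero, zero_mul] at t1
    have := (t1.eventually (gt_mem_nhds hη3)).and (Filter.eventually_ge_atTop 0)
    obtain ⟨R, h1, h2⟩ := this.exists
    exact ⟨R, h2, h1.le⟩
  obtain ⟨ι, hι, f, g, hf, hg, hfb, hgb, hsumb, happ⟩ :=
    colouring (D.Hs T ε) M (D.Hs_bound T ε hε0) (D.Hs_uc T ε hε0) η' hη'0 R
  set γ2 : ℂ → ℝ := fun u => η' * (D.C * Real.exp (-(1/4) * ‖u‖ ^ 2)) +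
    2 * M * D.C * Real.exp (-R ^ 2 / 8) * Real.exp (-(1/8) * ‖u‖ ^ 2) with hγ2
  have hγ2c : Continuous γ2 := by simp only [hγ2]; fun_prop
  have hγ2nn : ∀ u, 0 ≤ γ2 u := fun u => by simp only [hγ2]; positivity
  have hγ2i : Integrable γ2 :=
    (((integrable_gauss_real (by norm_num)).const_mul _).const_mul _).add
      ((integrable_gauss_real (by norm_num)).const_mul _)
  refine ⟨ι, hι, f, g, max M 1, fun u => γ1 u + γ2 u, hf, hg,
    fun i z => (hfb i z).trans (le_max_left _ _), fun i z => (hgb i z).trans (le_max_right _ _),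
    (hγ1c.add hγ2c).measurable, fun u => add_nonneg (hγ1nn u) (hγ2nn u), hγ1i.add hγ2i, ?_, ?_⟩
  · rw [integral_add hγ1i hγ2i, div_le_iff₀ hpi]
    have i2 : ∫ u, γ2 u = η' * (D.C * I4) + 2 * M * D.C * Real.exp (-R ^ 2 / 8) * I8 := by
      simp only [hγ2]
      rw [integral_add (((integrable_gauss_real (by norm_num)).const_mul _).const_mul _)
        ((integrable_gauss_real (by norm_num)).const_mul _)]
      rw [integral_const_mul, integral_const_mul, integral_const_mul]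
    rw [i2]
    have i3 : η' * (D.C * I4) ≤ η * Real.pi / 3 := by
      rw [hη']
      have : η * Real.pi / (3 * (D.C * I4 + 1)) * (D.C * I4)
          = (η * Real.pi / 3) * ((D.C * I4) / (D.C * I4 + 1)) := by
        field_simp
      rw [this]
      refine mul_le_of_le_one_right hη3.le ?_
      rw [div_le_one (by positivity)]
      linarith
    have : ∫ u, γ1 u < η * Real.pi / 3 := hn
    linarith
  · intro z w
    set h : ℂ := inner ℂ (D.k z) (T (D.k w)) with hh
    set u := z - w with hu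
    have e1 : h - ∑ i, f i z * g i w * D.κ z w
        = (h - D.Hs T ε z w * D.κ z w) + (D.Hs T ε z w - ∑ i, f i z * g i w) * D.κ z w := by
      rw [sub_mul, Finset.sum_mul]; ring
    rw [e1]
    have n1 : ‖h - D.Hs T ε z w * D.κ z w‖ ≤ γ1 u := by
      rw [hh, D.h_sub_Hs T ε hε0 z w, norm_mul, Complex.norm_real, Real.norm_eq_abs, abs_of_nonneg]
      · simp only [hγ1]
        have := hdec z w
        have h1 := D.rho_nonneg u
        gcongr
      · have h1 := D.rho_nonneg u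
        positivity
    have n2 : ‖(D.Hs T ε z w - ∑ i, f i z * g i w) * D.κ z w‖ ≤ γ2 u := by
      rw [norm_mul]
      have hk := D.norm_kappa_le z w
      rcases le_or_gt (dist z w) R with hd | hd
      · have := happ z w hd
        calc _ ≤ η' * (D.C * Real.exp (-(1/4) * ‖z - w‖ ^ 2)) := by gcongr
          _ ≤ γ2 u := by
            simp only [hγ2]
            have : 0 ≤ 2 * M * D.C * Real.exp (-R ^ 2 / 8) * Real.exp (-(1/8) * ‖u‖ ^ 2) := by
              positivity
            linarith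
      · have s1 : ‖D.Hs T ε z w - ∑ i, f i z * g i w‖ ≤ 2 * M := by
          refine (norm_sub_le _ _).trans ?_
          have := D.Hs_bound T ε hε0 z w
          have := hsumb z w
          linarith
        have s2 : Real.exp (-(1/4) * ‖z - w‖ ^ 2) ≤
            Real.exp (-R ^ 2 / 8) * Real.exp (-(1/8) * ‖u‖ ^ 2) := by
          rw [← Real.exp_add]
          apply Real.exp_le_exp.mpr
          rw [dist_eq_norm] at hd
          have : R ^ 2 ≤ ‖z - w‖ ^ 2 := by gcongr
          rw [← hu] at this ⊢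
          linarith
        calc _ ≤ (2 * M) * (D.C * Real.exp (-(1/4) * ‖z - w‖ ^ 2)) := by gcongr
          _ ≤ (2 * M) * (D.C * (Real.exp (-R ^ 2 / 8) * Real.exp (-(1/8) * ‖u‖ ^ 2))) := by gcongr
          _ ≤ γ2 u := by
            simp only [hγ2]
            have : 0 ≤ η' * (D.C * Real.exp (-(1/4) * ‖u‖ ^ 2)) := by positivity
            linarith
    exact (norm_add_le _ _).trans (add_le_add n1 n2)

end RKData
end Pool.Agent.helper21.Fock
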