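import Mathlib
import Pool.Agent.helper21.FockApprox

set_option autoImplicit false

open MeasureTheory Complex ENNReal ComplexConjugate

namespace Pool.Agent.helper21.Fock

/-- A bounded measurable function as an element of `L^∞`. -/
noncomputable def bddLp (f : ℂ → ℂ) (hf : Measurable f) (B : ℝ) (hB : ∀ z, ‖f z‖ ≤ B) :
    Lp ℂ ∞ gaussianMeasure :=
  (memLp_top_of_bound hf.aestronglyMeasurable B (Filter.Eventually.of_forall hB)).toLp f

lemma bddLp_ae (f : ℂ → ℂ) (hf : Measurable f) (B : ℝ) (hB : ∀ z, ‖f z‖ ≤ B) :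
    bddLp f hf B hB =ᵐ[gaussianMeasure] f := MemLp.coeFn_toLp _

lemma enorm_inner_le_lintegral (x y : GaussL2) :
    ‖(inner ℂ x y : ℂ)‖ₑ ≤ ∫⁻ w, ‖x w‖ₑ * ‖y w‖ₑ ∂gaussianMeasure := by
  rw [inner_eq_integral]
  refine (enorm_integral_le_lintegral_enorm _).trans ?_
  refine lintegral_mono fun w => ?_
  rw [enorm_mul]
  simp [enorm_eq_nnnorm]

lemma coeFn_finset_sum {ι : Type} (s : Finset ι) (f : ι → GaussL2) :
    ∀ᵐ z ∂gaussianMeasure, (∑ i ∈ s, f i : GaussL2) z = ∑ i ∈ s, f i z := by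
  classical
  induction s using Finset.induction_on with
  | empty =>
    filter_upwards [Lp.coeFn_zero ℂ 2 gaussianMeasure] with z hz
    simp only [Finset.sum_empty]
    rw [hz]
    rfl
  | insert a s ha ih =>
    rw [Finset.sum_insert ha]
    filter_upwards [Lp.coeFn_add (f a) (∑ i ∈ s, f i), ih] with z h1 h2
    rw [h1, Pi.add_apply, h2, Finset.sum_insert ha]

namespace RKData

variable {F : Submodule ℂ GaussL2} (D : RKData F)

lemma K_eq_k (z : ℂ) : D.K z = ((Real.exp (‖z‖ ^ 2 / 2) : ℝ) : ℂ) • D.k z := by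
  unfold k
  rw [smul_smul, ← Complex.ofReal_mul, ← Real.exp_add]
  have : ‖z‖ ^ 2 / 2 + -‖z‖ ^ 2 / 2 = 0 := by ring
  rw [this]
  simp

lemma conj_K (z w : ℂ) (h : D.K z w = cexp (conj z * w) * (D.φ (w - z) : ℂ)) :
    conj (D.K z w) = inner ℂ (D.K z) (D.K w) := by
  rw [h, D.inner_K]
  have : D.φ (w - z) = D.φ (z - w) := by
    have := D.phi_neg (z - w)
    rwa [neg_sub] at this
  rw [this]
  simp only [map_mul, conj_ofReal, ← Complex.exp_conj, Complex.conj_conj]
  rw [mul_comm z]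

variable [F.HasOrthogonalProjection]

lemma proj_formula (x : GaussL2) :
    ∀ᵐ z ∂gaussianMeasure, F.starProjection x z = inner ℂ (D.K z) x := by
  filter_upwards [D.repr (F.starProjection x) (F.starProjection_apply_mem x)] with z hz
  rw [hz, ← F.inner_starProjection_left_eq_right,
    F.starProjection_eq_self_iff.mpr (D.K_mem z)]

lemma op_bound (T : GaussL2 →L[ℂ] GaussL2) {ι : Type} [Fintype ι] (f g : ι → ℂ → ℂ) (B : ℝ)
    (hf : ∀ i, Measurable (f i)) (hg : ∀ i, Measurable (g i)) (hfB : ∀ i z, ‖f i z‖ ≤ B)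
    (hgB : ∀ i z, ‖g i z‖ ≤ B) (γ : ℂ → ℝ) (hγm : Measurable γ) (hγ0 : ∀ u, 0 ≤ γ u)
    (hγi : Integrable γ)
    (h : ∀ z w, ‖(inner ℂ (D.k z) (T (D.k w)) : ℂ) - ∑ i, f i z * g i w * D.κ z w‖ ≤ γ (z - w))
    (x : GaussL2) (hx : x ∈ F) :
    ‖F.starProjection (T x) - ∑ i, F.starProjection (mulOp (bddLp (f i) (hf i) B (hfB i))
      (F.starProjection (mulOp (bddLp (g i) (hg i) B (hgB i)) x)))‖ ≤
        (∫ u, γ u) / Real.pi * ‖x‖ := by
  set P := F.starProjection with hP
  set f' : ι → Lp ℂ ∞ gaussianMeasure := fun i => bddLp (f i) (hf i) B (hfB i) with hf'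
  set g' : ι → Lp ℂ ∞ gaussianMeasure := fun i => bddLp (g i) (hg i) B (hgB i) with hg'
  set y : GaussL2 := P (T x) - ∑ i, mulOp (f' i) (P (mulOp (g' i) x)) with hy
  have hPy : P y = P (T x) - ∑ i, P (mulOp (f' i) (P (mulOp (g' i) x))) := by
    rw [hy, map_sub, map_sum]
    congr 1
    exact F.starProjection_eq_self_iff.mpr (F.starProjection_apply_mem (T x))
  rw [← hPy]
  have hle : ‖P y‖ ≤ ‖y‖ := F.norm_starProjection_apply_le y
  refine hle.trans ?_
  refine norm_le_of_pointwise x y γ hγm hγ0 hγi ?_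
  -- pointwise formula for `y`
  have hsum : ∀ᵐ z ∂gaussianMeasure, (∑ i, mulOp (f' i) (P (mulOp (g' i) x)) : GaussL2) z
      = ∑ i, (mulOp (f' i) (P (mulOp (g' i) x))) z :=
    coeFn_finset_sum _ _
  have hm : ∀ᵐ z ∂gaussianMeasure, ∀ i, (mulOp (f' i) (P (mulOp (g' i) x))) z =
      f i z * inner ℂ (D.K z) (mulOp (g' i) x) := by
    rw [ae_all_iff]
    intro i
    filter_upwards [mulOp_ae (f' i) (P (mulOp (g' i) x)), bddLp_ae (f i) (hf i) B (hfB i),
      D.proj_formula (mulOp (g' i) x)] with z h1 h2 h3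
    rw [h1, h3, hf', h2]
  filter_upwards [Lp.coeFn_sub (P (T x)) (∑ i, mulOp (f' i) (P (mulOp (g' i) x))), hsum, hm,
    D.proj_formula (T x)] with z h1 h2 h3 h4
  have hyz : y z = inner ℂ (D.K z) (T x) - ∑ i, f i z * inner ℂ (D.K z) (mulOp (g' i) x) := by
    rw [hy, h1, Pi.sub_apply, h4, h2]
    congr 1
    exact Finset.sum_congr rfl fun i _ => h3 i
  -- representation by an element `Rz`
  set Rz : GaussL2 := P (ContinuousLinearMap.adjoint T (D.K z)) -
    ∑ i, conj (f i z) • mulOp (star (g' i)) (D.K z) with hRz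
  have hin : inner ℂ Rz x = inner ℂ (D.K z) (T x) - ∑ i, f i z * inner ℂ (D.K z) (mulOp (g' i) x) := by
    rw [hRz, inner_sub_left, sum_inner]
    congr 1
    · rw [hP, F.inner_starProjection_left_eq_right, F.starProjection_eq_self_iff.mpr hx,
        ContinuousLinearMap.adjoint_inner_left]
    · refine Finset.sum_congr rfl fun i _ => ?_
      rw [inner_smul_left, Complex.conj_conj, mulOp_star_inner, star_star]
  rw [hyz, ← hin]
  refine (enorm_inner_le_lintegral Rz x).trans ?_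
  refine lintegral_mono_ae ?_
  -- pointwise formula for `Rz`
  have hsum2 : ∀ᵐ w ∂gaussianMeasure, (∑ i, conj (f i z) • mulOp (star (g' i)) (D.K z) : GaussL2) w
      = ∑ i, conj (f i z) * (mulOp (star (g' i)) (D.K z)) w := by
    have := coeFn_finset_sum Finset.univ
      (fun i => conj (f i z) • mulOp (star (g' i)) (D.K z))
    have h5 : ∀ᵐ w ∂gaussianMeasure, ∀ i, (conj (f i z) • mulOp (star (g' i)) (D.K z) : GaussL2) w
        = conj (f i z) * (mulOp (star (g' i)) (D.K z)) w := by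
      rw [ae_all_iff]
      intro i
      filter_upwards [Lp.coeFn_smul (conj (f i z)) (mulOp (star (g' i)) (D.K z))] with w hw
      rw [hw, Pi.smul_apply, smul_eq_mul]
    filter_upwards [this, h5] with w hw h5
    rw [hw]
    exact Finset.sum_congr rfl fun i _ => h5 i
  have hm2 : ∀ᵐ w ∂gaussianMeasure, ∀ i, (mulOp (star (g' i)) (D.K z)) w =
      conj (g i w) * D.K z w := by
    rw [ae_all_iff]
    intro i
    filter_upwards [mulOp_ae (star (g' i)) (D.K z), Lp.coeFn_star (g' i),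
      bddLp_ae (g i) (hg i) B (hgB i)] with w h1 h2 h3
    rw [h1, h2, Pi.star_apply, hg', h3]
    rfl
  filter_upwards [Lp.coeFn_sub (P (ContinuousLinearMap.adjoint T (D.K z)))
    (∑ i, conj (f i z) • mulOp (star (g' i)) (D.K z)), hsum2, hm2,
    D.proj_formula (ContinuousLinearMap.adjoint T (D.K z)), D.K_ae z] with w g1 g2 g3 g4 g5
  have hRw : Rz w = inner ℂ (D.K w) (ContinuousLinearMap.adjoint T (D.K z)) -
      ∑ i, conj (f i z) * (conj (g i w) * D.K z w) := by
    rw [hRz, g1, Pi.sub_apply, g4, g2]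
    congr 1
    exact Finset.sum_congr rfl fun i _ => by rw [g3 i]
  have hconj : conj (Rz w) = ((Real.exp (‖z‖ ^ 2 / 2) * Real.exp (‖w‖ ^ 2 / 2) : ℝ) : ℂ) *
      ((inner ℂ (D.k z) (T (D.k w)) : ℂ) - ∑ i, f i z * g i w * D.κ z w) := by
    rw [hRw, map_sub, inner_conj_symm, ContinuousLinearMap.adjoint_inner_left, map_sum, mul_sub,
      Finset.mul_sum]
    have hKK := D.conj_K z w g5
    congr 1
    · rw [D.K_eq_k z, D.K_eq_k w, map_smul, inner_smul_left, inner_smul_right, conj_ofReal]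
      push_cast
      ring
    · refine Finset.sum_congr rfl fun i _ => ?_
      rw [map_mul, map_mul, Complex.conj_conj, Complex.conj_conj, hKK, D.K_eq_k z, D.K_eq_k w,
        inner_smul_left, inner_smul_right, conj_ofReal]
      unfold κ
      push_cast
      ring
  have hnorm : ‖Rz w‖ ≤ Real.exp (‖z‖ ^ 2 / 2) * Real.exp (‖w‖ ^ 2 / 2) * γ (z - w) := by
    rw [← Complex.norm_conj, hconj, norm_mul, Complex.norm_real, Real.norm_eq_abs,
      abs_of_pos (by positivity)]
    exact mul_le_mul_of_nonneg_left (h z w) (by positivity)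
  have : ‖Rz w‖ₑ ≤ wt z * wt w * ENNReal.ofReal (γ (z - w)) := by
    rw [← ofReal_norm, wt, wt, ← ENNReal.ofReal_mul (by positivity),
      ← ENNReal.ofReal_mul (by positivity)]
    exact ENNReal.ofReal_le_ofReal hnorm
  gcongr

end RKData
end Pool.Agent.helper21.Fock
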