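import Mathlib
import Pool.Agent.helper21.FockMain

/-!
# The definitions of `FockStmt` agree with those of `FockDefs`
-/

set_option autoImplicit false

open MeasureTheory Complex ENNReal ComplexConjugate

namespace Pool.Agent.helper21.Fock

lemma bandOp_iff (B : GaussL2 →L[ℂ] GaussL2) : BandOp B ↔ IsBand B := by
  constructor
  · rintro ⟨ω, h⟩
    refine ⟨ω, fun K K' hK hK' hd => ?_⟩
    ext1 x
    have h1 := h K K' hK hK' hd (mulOp (indLinfty K hK) x) (by
      filter_upwards [ind_apply_ae K hK x] with z hz hzK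
      rw [hz]; simp [hzK])
    apply Lp.ext
    simp only [ContinuousLinearMap.coe_comp', Function.comp_apply, zero_apply]
    filter_upwards [ind_apply_ae K' hK' (B (mulOp (indLinfty K hK) x)), h1,
      Lp.coeFn_zero ℂ 2 gaussianMeasure] with z h2 h3 h4
    rw [h2, h4]
    by_cases hz : z ∈ K'
    · simp [hz, h3 hz]
    · simp [hz]
  · rintro ⟨ω, h⟩
    refine ⟨ω, fun K K' hK hK' hd x hx => ?_⟩
    have h1 := h K K' hK hK' hd
    have h2 : mulOp (indLinfty K hK) x = x := by
      apply Lp.ext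
      filter_upwards [ind_apply_ae K hK x, hx] with z h3 h4
      rw [h3]
      by_cases hz : z ∈ K
      · simp [hz]
      · simp [hz, h4 hz]
    have h5 : mulOp (indLinfty K' hK') (B x) = 0 := by
      have := congrArg (fun A => A x) h1
      simp only [ContinuousLinearMap.coe_comp', Function.comp_apply, h2] at this
      simpa using this
    have h6 := ind_apply_ae K' hK' (B x)
    rw [h5] at h6
    filter_upwards [h6, Lp.coeFn_zero ℂ 2 gaussianMeasure] with z h7 h8 hz
    rw [h8] at h7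
    simpa [hz] using h7.symm

lemma toeplitzOp_iff (F : Submodule ℂ GaussL2) [CompleteSpace F] (T : F →L[ℂ] F) :
    ToeplitzOp F T ↔ T ∈ Set.range (toeplitz F) := by
  constructor
  · rintro ⟨f, hf, ⟨C, hC⟩, h⟩
    refine ⟨bddLp f hf C hC, ?_⟩
    ext1 x
    obtain ⟨y, hy, hTx⟩ := h x
    rw [hTx]
    simp only [toeplitz, ContinuousLinearMap.coe_comp', Function.comp_apply]
    congr 1
    apply Lp.ext
    filter_upwards [mulOp_ae (bddLp f hf C hC) (F.subtypeL x), bddLp_ae f hf C hC, hy] with z h1 h2 h3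
    rw [h1, h2, h3]
    rfl
  · rintro ⟨f, rfl⟩
    have hm := (Lp.aestronglyMeasurable f).aemeasurable
    obtain ⟨g, hg, hfg⟩ := hm
    set C : ℝ := ‖f‖ with hC
    have hb : ∀ᵐ z ∂gaussianMeasure, ‖f z‖ ≤ C := by
      have := Lp.memLp f
      have h1 := ae_le_eLpNormEssSup (f := (f : ℂ → ℂ)) (μ := gaussianMeasure)
      filter_upwards [h1] with z hz
      rw [hC, Lp.norm_def, eLpNorm_exponent_top]
      have h2 : eLpNormEssSup (f : ℂ → ℂ) gaussianMeasure ≠ ∞ := by
        have := (Lp.memLp f).eLpNorm_ne_top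
        rwa [eLpNorm_exponent_top] at this
      rw [← toReal_enorm]
      exact ENNReal.toReal_mono h2 hz
    refine ⟨{z | ‖g z‖ ≤ C}.indicator g, hg.indicator (measurableSet_le hg.norm measurable_const),
      ⟨C, fun z => ?_⟩, fun x => ⟨mulOp f x, ?_, rfl⟩⟩
    · by_cases hz : z ∈ {z | ‖g z‖ ≤ C}
      · rw [Set.indicator_of_mem hz]; exact hz
      · rw [Set.indicator_of_notMem hz, norm_zero, hC]; exact norm_nonneg _
    · filter_upwards [mulOp_ae f x, hfg, hb] with z h1 h2 h3
      rw [h1]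
      rw [h2] at h3
      rw [Set.indicator_of_mem (show z ∈ {z | ‖g z‖ ≤ C} from h3), h2]

lemma bandDominated_iff (F : Submodule ℂ GaussL2) [CompleteSpace F] (T : F →L[ℂ] F) :
    BandDominated F T ↔ T ∈ bandDominated F := by
  constructor
  · rintro ⟨h⟩
    refine Metric.mem_closure_iff.mpr fun ε hε => ?_
    obtain ⟨B, hB, hT⟩ := h ε hε
    exact ⟨B, (bandOp_iff B).mp hB, by rw [dist_eq_norm]; exact hT⟩
  · intro h
    refine ⟨fun ε hε => ?_⟩
    obtain ⟨B, hB, hT⟩ := Metric.mem_closure_iff.mp h ε hε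
    exact ⟨B, (bandOp_iff B).mpr hB, by rw [dist_eq_norm] at hT; exact hT⟩

lemma toeplitzGenerated_iff (F : Submodule ℂ GaussL2) [CompleteSpace F] (T : F →L[ℂ] F) :
    ToeplitzGenerated F T ↔ T ∈ toeplitzCStar F := by
  have h : {S : F →L[ℂ] F | ToeplitzOp F S} = Set.range (toeplitz F) :=
    Set.ext fun S => toeplitzOp_iff F S
  constructor
  · rintro ⟨hT⟩ ε hε
    rw [← h]
    exact hT ε hε
  · intro hT
    refine ⟨fun ε hε => ?_⟩
    rw [h]
    exact hT ε hε

end Pool.Agent.helper21.Fock
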