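import Mathlib
import Pool.Agent.helper21.FockDefs

set_option autoImplicit false

open MeasureTheory Complex ENNReal ComplexConjugate

namespace Pool.Agent.helper21.Fock

lemma integrableOn_polar (G : ℂ → ℂ) (hc : Continuous G) (hi : Integrable G) :
    IntegrableOn (fun p : ℝ × ℝ => (p.1 : ℂ) * G (Complex.polarCoord.symm p)) polarCoord.target
      ((volume : Measure ℝ).prod volume) := by
  constructor
  · have : Continuous fun p : ℝ × ℝ => (p.1 : ℂ) * G (Complex.polarCoord.symm p) := by
      simp only [Complex.polarCoord_symm_apply]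
      fun_prop
    exact this.aestronglyMeasurable
  · rw [hasFiniteIntegral_iff_enorm]
    have h1 := Complex.lintegral_comp_polarCoord_symm (fun z => ‖G z‖ₑ)
    have h2 : ∫⁻ p in polarCoord.target, ‖(p.1 : ℂ) * G (Complex.polarCoord.symm p)‖ₑ
        ∂((volume : Measure ℝ).prod volume) =
        ∫⁻ p in polarCoord.target, ENNReal.ofReal p.1 • ‖G (Complex.polarCoord.symm p)‖ₑ := by
      refine setLIntegral_congr_fun polarCoord.open_target.measurableSet fun p hp => ?_
      have hp1 : 0 < p.1 := hp.1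
      simp only [smul_eq_mul]
      rw [enorm_mul]
      congr 1
      rw [← ofReal_norm, Complex.norm_real, Real.norm_eq_abs, abs_of_pos hp1]
    rw [h2, h1]
    exact hi.2

lemma integral_circle_eq (G : ℂ → ℂ) (r : ℝ) :
    ∫ θ in Set.Ioo (-Real.pi) Real.pi, G (Complex.polarCoord.symm (r, θ)) =
      ((2 * Real.pi : ℝ) : ℂ) * Real.circleAverage G 0 r := by
  have hper : Function.Periodic (fun θ => G (circleMap 0 r θ)) (2 * Real.pi) := by
    intro θ
    simp only
    rw [periodic_circleMap 0 r θ]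
  have h1 : ∫ θ in Set.Ioo (-Real.pi) Real.pi, G (Complex.polarCoord.symm (r, θ)) =
      ∫ θ in (-Real.pi)..(-Real.pi + 2 * Real.pi), G (circleMap 0 r θ) := by
    rw [intervalIntegral.integral_of_le (by linarith [Real.pi_pos])]
    have : -Real.pi + 2 * Real.pi = Real.pi := by ring
    rw [this, integral_Ioc_eq_integral_Ioo]
    refine setIntegral_congr_fun measurableSet_Ioo fun θ _ => ?_
    congr 1
    rw [Complex.polarCoord_symm_apply, circleMap, zero_add]
    congr 1
    rw [Complex.exp_mul_I]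
    push_cast
    ring
  rw [h1, hper.intervalIntegral_add_eq (-Real.pi) 0, zero_add, Real.circleAverage_def]
  rw [Complex.real_smul]
  have : (2 * Real.pi : ℝ) ≠ 0 := by positivity
  rw [← mul_assoc, ← Complex.ofReal_mul, mul_inv_cancel₀ this]
  simp

lemma integral_polar (G : ℂ → ℂ) (hc : Continuous G) (hi : Integrable G) :
    ∫ z, G z = ∫ r in Set.Ioi (0 : ℝ), ((2 * Real.pi * r : ℝ) : ℂ) * Real.circleAverage G 0 r := by
  rw [← Complex.integral_comp_polarCoord_symm]
  have h1 : ∫ p in polarCoord.target, p.1 • G (Complex.polarCoord.symm p) =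
      ∫ p in (Set.Ioi (0 : ℝ)) ×ˢ (Set.Ioo (-Real.pi) Real.pi),
        (p.1 : ℂ) * G (Complex.polarCoord.symm p) ∂((volume : Measure ℝ).prod volume) := by
    refine setIntegral_congr_fun polarCoord.open_target.measurableSet fun p _ => ?_
    simp
  rw [h1, setIntegral_prod _ (integrableOn_polar G hc hi)]
  refine setIntegral_congr_fun measurableSet_Ioi fun r hr => ?_
  simp only
  rw [integral_const_mul, integral_circle_eq]
  push_cast
  ring

/-- Averages of entire functions times powers of `conj v` over circles. -/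
lemma circleAverage_conj_pow (h : ℂ → ℂ) (hh : Differentiable ℂ h) (j : ℕ) (r : ℝ) (hr : 0 < r) :
    Real.circleAverage (fun v => h v * conj v ^ j) 0 r =
      ((r ^ 2) ^ j : ℝ) * (iteratedDeriv j h 0 / (j.factorial : ℂ)) := by
  have h1 := DiffContOnCl.circleIntegral_one_div_sub_center_pow_smul hr j
    (hh.diffContOnCl (s := Metric.ball 0 r) )
  rw [circleIntegral] at h1
  rw [Real.circleAverage_def]
  have h2 : ∀ θ : ℝ, deriv (circleMap 0 r) θ •
      ((1 / (circleMap 0 r θ - 0) ^ (j + 1)) • h (circleMap 0 r θ)) =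
      (I / ((r ^ 2) ^ j : ℝ)) * (h (circleMap 0 r θ) * conj (circleMap 0 r θ) ^ j) := by
    intro θ
    have hz : circleMap 0 r θ ≠ 0 := circleMap_ne_center hr.ne'
    have hn : circleMap 0 r θ * conj (circleMap 0 r θ) = ((r ^ 2 : ℝ) : ℂ) := by
      rw [Complex.mul_conj, Complex.normSq_eq_norm_sq, norm_circleMap_zero, sq_abs]
    rw [deriv_circleMap]
    simp only [smul_eq_mul, sub_zero]
    have hr2 : (((r ^ 2) ^ j : ℝ) : ℂ) = (circleMap 0 r θ) ^ j * conj (circleMap 0 r θ) ^ j := by
      rw [← mul_pow, hn]; push_cast; ring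
    have hcz : conj (circleMap 0 r θ) ≠ 0 := by simpa using hz
    rw [hr2]
    field_simp
    ring
  simp_rw [h2] at h1
  rw [intervalIntegral.integral_const_mul] at h1
  have hr2 : (((r ^ 2) ^ j : ℝ) : ℂ) ≠ 0 := by
    have : ((r ^ 2) ^ j : ℝ) ≠ 0 := by positivity
    exact_mod_cast this
  have h3 : ∫ θ in 0..2 * Real.pi, h (circleMap 0 r θ) * conj (circleMap 0 r θ) ^ j =
      (((r ^ 2) ^ j : ℝ) : ℂ) * (2 * Real.pi / j.factorial * iteratedDeriv j h 0) := by
    have : ∫ θ in 0..2 * Real.pi, h (circleMap 0 r θ) * conj (circleMap 0 r θ) ^ j =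
        ((((r ^ 2) ^ j : ℝ) : ℂ) / I) * (I / ((r ^ 2) ^ j : ℝ) *
          ∫ θ in 0..2 * Real.pi, h (circleMap 0 r θ) * conj (circleMap 0 r θ) ^ j) := by
      field_simp
    rw [this, h1, smul_eq_mul]
    field_simp
  rw [h3, Complex.real_smul]
  push_cast
  have hpi : (Real.pi : ℂ) ≠ 0 := by exact_mod_cast Real.pi_ne_zero
  field_simp

end Pool.Agent.helper21.Fock
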