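import Mathlib
import Pool.Agent.helper21.FockSchur
import Pool.Agent.helper21.FockPolar

set_option autoImplicit false

open MeasureTheory Complex ENNReal ComplexConjugate

namespace Pool.Agent.helper21.Fock

/-- Gaussian density -/
noncomputable def gd (z : ℂ) : ℝ := Real.exp (-‖z‖ ^ 2) / Real.pi

lemma gd_pos (z : ℂ) : 0 < gd z := by unfold gd; positivity

lemma continuous_gd : Continuous gd := by unfold gd; fun_prop

lemma integral_gauss (F : ℂ → ℂ) :
    ∫ z, F z ∂gaussianMeasure = ∫ z, (gd z : ℂ) * F z := by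
  rw [gaussianMeasure, integral_withDensity_eq_integral_toReal_smul measurable_gdens
    (Filter.Eventually.of_forall fun _ => ENNReal.ofReal_lt_top)]
  refine integral_congr_ae (Filter.Eventually.of_forall fun z => ?_)
  have h := (gd_pos z).le
  unfold gd at h ⊢
  simp only
  rw [ENNReal.toReal_ofReal h, Complex.real_smul]

lemma integrable_gauss_iff (F : ℂ → ℂ) :
    Integrable F gaussianMeasure ↔ Integrable fun z => (gd z : ℂ) * F z := by
  rw [gaussianMeasure, integrable_withDensity_iff_integrable_smul' measurable_gdens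
    (Filter.Eventually.of_forall fun _ => ENNReal.ofReal_lt_top)]
  refine integrable_congr (Filter.Eventually.of_forall fun z => ?_)
  have h := (gd_pos z).le
  unfold gd at h ⊢
  simp only
  rw [ENNReal.toReal_ofReal h, Complex.real_smul]

lemma circleAverage_radial_mul (F : ℂ → ℂ) (u : ℝ → ℂ) (r : ℝ) :
    Real.circleAverage (fun v => u (‖v‖ ^ 2) * F v) 0 r = u (r ^ 2) * Real.circleAverage F 0 r := by
  rw [Real.circleAverage_def, Real.circleAverage_def]
  have : ∀ θ : ℝ, u (‖circleMap 0 r θ‖ ^ 2) * F (circleMap 0 r θ) = u (r ^ 2) * F (circleMap 0 r θ) := by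
    intro θ
    rw [norm_circleMap_zero, sq_abs]
  simp_rw [this]
  rw [intervalIntegral.integral_const_mul, Complex.real_smul, Complex.real_smul]
  ring

lemma circleAverage_const' (c : ℂ) (r : ℝ) : Real.circleAverage (fun _ => c) 0 r = c := by
  rw [Real.circleAverage_def]
  simp only [intervalIntegral.integral_const, sub_zero]
  rw [smul_smul, inv_mul_cancel₀ (by positivity), one_smul]

lemma integral_radial (F : ℂ → ℂ) (hF : Continuous F) (ψ : ℝ → ℂ) (hψ : Continuous ψ)
    (q : ℝ → ℂ) (hq : Continuous q) (havg : ∀ r > 0, Real.circleAverage F 0 r = q (r ^ 2))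
    (hi1 : Integrable (fun v => ψ (‖v‖ ^ 2) * F v) gaussianMeasure)
    (hi2 : Integrable (fun v => ψ (‖v‖ ^ 2) * q (‖v‖ ^ 2)) gaussianMeasure) :
    ∫ v, ψ (‖v‖ ^ 2) * F v ∂gaussianMeasure = ∫ v, ψ (‖v‖ ^ 2) * q (‖v‖ ^ 2) ∂gaussianMeasure := by
  rw [integral_gauss, integral_gauss]
  rw [integrable_gauss_iff] at hi1 hi2
  have hgd := continuous_gd
  rw [integral_polar _ (by fun_prop) hi1, integral_polar _ (by fun_prop) hi2]
  refine setIntegral_congr_fun measurableSet_Ioi fun r hr => ?_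
  congr 1
  have a1 : Real.circleAverage (fun v : ℂ => (gd v : ℂ) * (ψ (‖v‖ ^ 2) * F v)) 0 r =
      (((Real.exp (-(r ^ 2)) / Real.pi : ℝ)) : ℂ) * ψ (r ^ 2) * Real.circleAverage F 0 r := by
    refine Eq.trans ?_ (circleAverage_radial_mul F
      (fun t : ℝ => ((Real.exp (-t) / Real.pi : ℝ) : ℂ) * ψ t) r)
    congr 1
    funext v
    simp only [gd]
    ring
  have a2 : Real.circleAverage (fun v : ℂ => (gd v : ℂ) * (ψ (‖v‖ ^ 2) * q (‖v‖ ^ 2))) 0 r =
      (((Real.exp (-(r ^ 2)) / Real.pi : ℝ)) : ℂ) * (ψ (r ^ 2) * q (r ^ 2)) *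
        Real.circleAverage (fun _ => (1 : ℂ)) 0 r := by
    refine Eq.trans ?_ (circleAverage_radial_mul (fun _ => (1 : ℂ))
      (fun t : ℝ => ((Real.exp (-t) / Real.pi : ℝ) : ℂ) * (ψ t * q t)) r)
    congr 1
    funext v
    simp only [gd]
    ring
  rw [a1, a2, havg r hr, circleAverage_const']
  ring

/-! ### Polynomial kernels -/

open Polynomial in
lemma poly_growth (p : ℝ[X]) (b : ℝ) (hb : 0 < b) :
    ∃ C : ℝ, ∀ t : ℝ, 0 ≤ t → |p.eval t| ≤ C * Real.exp (b * t) := by
  induction p using Polynomial.induction_on' with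
  | add p q hp hq =>
    obtain ⟨C1, h1⟩ := hp
    obtain ⟨C2, h2⟩ := hq
    refine ⟨C1 + C2, fun t ht => ?_⟩
    rw [Polynomial.eval_add]
    calc |p.eval t + q.eval t| ≤ |p.eval t| + |q.eval t| := abs_add_le _ _
      _ ≤ C1 * Real.exp (b * t) + C2 * Real.exp (b * t) := add_le_add (h1 t ht) (h2 t ht)
      _ = _ := by ring
  | monomial n a =>
    refine ⟨|a| * ((n.factorial : ℝ) / b ^ n), fun t ht => ?_⟩
    rw [Polynomial.eval_monomial, abs_mul, abs_pow, abs_of_nonneg ht]
    have h := Real.pow_div_factorial_le_exp (b * t) (by positivity) n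
    have hn : (0 : ℝ) < n.factorial := by exact_mod_cast n.factorial_pos
    have h2 : t ^ n ≤ (n.factorial : ℝ) / b ^ n * Real.exp (b * t) := by
      rw [mul_pow, div_le_iff₀ hn] at h
      rw [div_mul_eq_mul_div, le_div_iff₀ (by positivity)]
      linarith
    calc |a| * t ^ n ≤ |a| * ((n.factorial : ℝ) / b ^ n * Real.exp (b * t)) := by gcongr
      _ = _ := by ring

open Polynomial in
lemma poly_ae_ne (p : ℝ[X]) (hp : p ≠ 0) : ∀ᵐ v : ℂ, p.eval (‖v‖ ^ 2) ≠ 0 := by
  have hsub : {v : ℂ | ¬ p.eval (‖v‖ ^ 2) ≠ 0} ⊆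
      ⋃ t ∈ (p.roots.toFinset : Set ℝ), Metric.sphere (0 : ℂ) (Real.sqrt t) := by
    intro v hv
    simp only [ne_eq, not_not, Set.mem_ofPred_eq] at hv
    simp only [Set.mem_iUnion, Finset.mem_coe, Multiset.mem_toFinset]
    refine ⟨‖v‖ ^ 2, ?_, ?_⟩
    · rw [Polynomial.mem_roots hp]; exact hv
    · rw [Real.sqrt_sq (norm_nonneg _)]
      simp
  rw [ae_iff]
  refine measure_mono_null hsub ?_
  rw [measure_biUnion_null_iff (Finset.countable_toSet _)]
  intro t _
  by_cases ht : Real.sqrt t = 0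
  · rw [ht, Metric.sphere_zero]
    exact measure_singleton _
  · exact Measure.addHaar_sphere_of_ne_zero _ _ ht

end Pool.Agent.helper21.Fock
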