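import Mathlib
import Pool.Agent.helper21.FockRK
import Pool.Agent.helper21.FockRadial

set_option autoImplicit false

open MeasureTheory Complex ENNReal ComplexConjugate Polynomial

namespace Pool.Agent.helper21.Fock

lemma cpoly_growth (Q : ℂ[X]) (b : ℝ) (hb : 0 < b) :
    ∃ C : ℝ, ∀ t : ℝ, 0 ≤ t → ‖Q.eval (t : ℂ)‖ ≤ C * Real.exp (b * t) := by
  induction Q using Polynomial.induction_on' with
  | add p q hp hq =>
    obtain ⟨C1, h1⟩ := hp
    obtain ⟨C2, h2⟩ := hq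
    refine ⟨C1 + C2, fun t ht => ?_⟩
    rw [Polynomial.eval_add]
    calc ‖p.eval (t : ℂ) + q.eval (t : ℂ)‖ ≤ ‖p.eval (t : ℂ)‖ + ‖q.eval (t : ℂ)‖ := norm_add_le _ _
      _ ≤ C1 * Real.exp (b * t) + C2 * Real.exp (b * t) := add_le_add (h1 t ht) (h2 t ht)
      _ = _ := by ring
  | monomial n a =>
    refine ⟨‖a‖ * ((n.factorial : ℝ) / b ^ n), fun t ht => ?_⟩
    rw [Polynomial.eval_monomial, norm_mul, norm_pow, Complex.norm_real, Real.norm_eq_abs,
      abs_of_nonneg ht]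
    have h := Real.pow_div_factorial_le_exp (b * t) (by positivity) n
    have hn : (0 : ℝ) < n.factorial := by exact_mod_cast n.factorial_pos
    have h2 : t ^ n ≤ (n.factorial : ℝ) / b ^ n * Real.exp (b * t) := by
      rw [mul_pow, div_le_iff₀ hn] at h
      rw [div_mul_eq_mul_div, le_div_iff₀ (by positivity)]
      linarith
    calc ‖a‖ * t ^ n ≤ ‖a‖ * ((n.factorial : ℝ) / b ^ n * Real.exp (b * t)) := by gcongr
      _ = _ := by ring

/-- `C * exp(|v|²/4)`-bounded continuous functions are in `L²(μ)` after a Weyl-type shift. -/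
lemma memLp_shift (φ : ℂ → ℂ) (hφ : Continuous φ) (C : ℝ)
    (hC : ∀ v, ‖φ v‖ ≤ C * Real.exp (‖v‖ ^ 2 / 4)) (z : ℂ) :
    MemLp (fun w => cexp (conj z * w) * φ (w - z)) 2 gaussianMeasure := by
  have hcont : Continuous fun w => cexp (conj z * w) * φ (w - z) := by fun_prop
  rw [memLp_two_iff_integrable_sq_norm hcont.aestronglyMeasurable]
  have hC0 : 0 ≤ C := by
    have := (norm_nonneg _).trans (hC 0)
    simpa using this
  have h1 : Integrable (fun w : ℂ => (Real.exp (‖z‖ ^ 2) * C ^ 2 / Real.pi) *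
      Real.exp (-(1/2) * ‖w - z‖ ^ 2)) := by
    refine Integrable.const_mul ?_ _
    exact (integrable_gauss_real (b := 1/2) (by norm_num)).comp_sub_right z
  rw [gaussianMeasure, integrable_withDensity_iff_integrable_smul' measurable_gdens
    (Filter.Eventually.of_forall fun _ => ENNReal.ofReal_lt_top)]
  refine h1.mono' ?_ (Filter.Eventually.of_forall fun w => ?_)
  · refine Continuous.aestronglyMeasurable ?_
    have : ∀ w : ℂ, 0 ≤ Real.exp (-‖w‖ ^ 2) / Real.pi := fun w => by positivity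
    simp_rw [fun w => ENNReal.toReal_ofReal (this w)]
    simp only [smul_eq_mul]
    fun_prop
  · have hg : 0 ≤ Real.exp (-‖w‖ ^ 2) / Real.pi := by positivity
    rw [ENNReal.toReal_ofReal hg, smul_eq_mul, Real.norm_eq_abs, abs_of_nonneg (by positivity),
      norm_mul, Complex.norm_exp]
    have e := hC (w - z)
    have e2 : (Real.exp ((conj z * w).re) * ‖φ (w - z)‖) ^ 2 ≤
        (Real.exp ((conj z * w).re) * (C * Real.exp (‖w - z‖ ^ 2 / 4))) ^ 2 := by gcongr
    calc _ ≤ Real.exp (-‖w‖ ^ 2) / Real.pi *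
          (Real.exp ((conj z * w).re) * (C * Real.exp (‖w - z‖ ^ 2 / 4))) ^ 2 := by gcongr
      _ = _ := by
        rw [mul_pow, mul_pow, ← Real.exp_nat_mul, ← Real.exp_nat_mul]
        have : Real.exp (-‖w‖ ^ 2) * Real.exp ((2 : ℕ) * (conj z * w).re) *
            Real.exp ((2 : ℕ) * (‖w - z‖ ^ 2 / 4)) =
            Real.exp (‖z‖ ^ 2) * Real.exp (-(1/2) * ‖w - z‖ ^ 2) := by
          rw [← Real.exp_add, ← Real.exp_add, ← Real.exp_add]
          congr 1
          rw [RKData.cnorm_sub_sq]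
          push_cast
          ring
        calc _ = (Real.exp (-‖w‖ ^ 2) * Real.exp ((2 : ℕ) * (conj z * w).re) *
            Real.exp ((2 : ℕ) * (‖w - z‖ ^ 2 / 4))) * (C ^ 2 / Real.pi) := by ring
          _ = _ := by rw [this]; ring

/-- the kernel function attached to a real polynomial -/
noncomputable def ker (p : ℝ[X]) (z w : ℂ) : ℂ := cexp (conj z * w) * ((p.eval (‖w - z‖ ^ 2) : ℝ) : ℂ)

lemma poly_growth' (p : ℝ[X]) : ∃ C : ℝ, ∀ v : ℂ, |p.eval (‖v‖ ^ 2)| ≤ C * Real.exp (‖v‖ ^ 2 / 4) := by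
  obtain ⟨C, hC⟩ := poly_growth p (1/4) (by norm_num)
  refine ⟨C, fun v => ?_⟩
  have := hC (‖v‖ ^ 2) (by positivity)
  convert this using 3
  ring

lemma memLp_ker (p : ℝ[X]) (z : ℂ) : MemLp (ker p z) 2 gaussianMeasure := by
  obtain ⟨C, hC⟩ := poly_growth' p
  refine memLp_shift (fun v => ((p.eval (‖v‖ ^ 2) : ℝ) : ℂ)) (by fun_prop) C (fun v => ?_) z
  rw [Complex.norm_real, Real.norm_eq_abs]
  exact hC v

/-- the kernel as an element of `L²(μ)` -/
noncomputable def Kp (p : ℝ[X]) (z : ℂ) : GaussL2 := (memLp_ker p z).toLp _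

lemma Kp_ae (p : ℝ[X]) (z : ℂ) : Kp p z =ᵐ[gaussianMeasure] ker p z := MemLp.coeFn_toLp _

lemma gd_shift (z u : ℂ) : ((gd (z + u) : ℝ) : ℂ) * cexp (z * conj (z + u)) =
    ((gd u : ℝ) : ℂ) * cexp (-(conj z) * u) := by
  unfold gd
  push_cast
  rw [div_mul_eq_mul_div, div_mul_eq_mul_div, ← Complex.exp_add, ← Complex.exp_add]
  congr 2
  have h1 : ((‖z + u‖ : ℝ) : ℂ) ^ 2 = (z + u) * conj (z + u) := by
    rw [Complex.mul_conj, Complex.normSq_eq_norm_sq]; push_cast; ring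
  have h2 : ((‖u‖ : ℝ) : ℂ) ^ 2 = u * conj u := by
    rw [Complex.mul_conj, Complex.normSq_eq_norm_sq]; push_cast; ring
  rw [h1, h2, map_add]
  ring

lemma conj_ker (p : ℝ[X]) (z w : ℂ) : conj (ker p z w) = cexp (z * conj w) * ((p.eval (‖w - z‖ ^ 2) : ℝ) : ℂ) := by
  unfold ker
  rw [map_mul, ← Complex.exp_conj, map_mul, Complex.conj_conj, conj_ofReal]

lemma shift_identity (p : ℝ[X]) (f : ℂ → ℂ) (z u : ℂ) :
    ((gd (z + u) : ℝ) : ℂ) * (conj (ker p z (z + u)) * f (z + u)) =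
      ((gd u : ℝ) : ℂ) * (((p.eval (‖u‖ ^ 2) : ℝ) : ℂ) * (f (z + u) * cexp (-(conj z) * u))) := by
  rw [conj_ker]
  have := gd_shift z u
  rw [add_sub_cancel_left]
  calc _ = (((gd (z + u) : ℝ) : ℂ) * cexp (z * conj (z + u))) *
        (((p.eval (‖u‖ ^ 2) : ℝ) : ℂ) * f (z + u)) := by ring
    _ = _ := by rw [this]; ring

lemma integral_ker (p : ℝ[X]) (f : ℂ → ℂ) (z : ℂ) :
    ∫ v, conj (ker p z v) * f v ∂gaussianMeasure =
      ∫ u, ((p.eval (‖u‖ ^ 2) : ℝ) : ℂ) * (f (z + u) * cexp (-(conj z) * u)) ∂gaussianMeasure := by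
  rw [integral_gauss, integral_gauss]
  rw [← integral_add_left_eq_self _ z]
  exact integral_congr_ae (Filter.Eventually.of_forall fun u => shift_identity p f z u)

lemma integrable_ker (p : ℝ[X]) (f : ℂ → ℂ) (z : ℂ)
    (h : Integrable (fun v => conj (ker p z v) * f v) gaussianMeasure) :
    Integrable (fun u => ((p.eval (‖u‖ ^ 2) : ℝ) : ℂ) * (f (z + u) * cexp (-(conj z) * u)))
      gaussianMeasure := by
  rw [integrable_gauss_iff] at h ⊢
  have h2 := h.comp_add_left z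
  exact h2.congr (Filter.Eventually.of_forall fun u => shift_identity p f z u)

lemma integrable_poly_mul (p : ℝ[X]) (Q : ℂ[X]) :
    Integrable (fun v : ℂ => ((p.eval (‖v‖ ^ 2) : ℝ) : ℂ) * Q.eval (((‖v‖ ^ 2 : ℝ)) : ℂ))
      gaussianMeasure := by
  rw [integrable_gauss_iff]
  obtain ⟨C1, h1⟩ := poly_growth p (1/4) (by norm_num)
  obtain ⟨C2, h2⟩ := cpoly_growth Q (1/4) (by norm_num)
  have hgd := continuous_gd
  have hi : Integrable (fun v : ℂ => (C1 * C2 / Real.pi) * Real.exp (-(1/2) * ‖v‖ ^ 2)) :=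
    (integrable_gauss_real (by norm_num)).const_mul _
  refine hi.mono' ?_ (Filter.Eventually.of_forall fun v => ?_)
  · exact Continuous.aestronglyMeasurable (by fun_prop)
  · have g1 := h1 (‖v‖ ^ 2) (by positivity)
    have g2 := h2 (‖v‖ ^ 2) (by positivity)
    rw [norm_mul, norm_mul, Complex.norm_real, Complex.norm_real, Real.norm_eq_abs,
      Real.norm_eq_abs, abs_of_pos (gd_pos v)]
    have hg := (gd_pos v).le
    have hC1 : 0 ≤ C1 * Real.exp (1/4 * ‖v‖ ^ 2) := (abs_nonneg _).trans g1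
    calc gd v * (|p.eval (‖v‖ ^ 2)| * ‖Q.eval (((‖v‖ ^ 2 : ℝ)) : ℂ)‖)
        ≤ gd v * ((C1 * Real.exp (1/4 * ‖v‖ ^ 2)) * (C2 * Real.exp (1/4 * ‖v‖ ^ 2))) := by
          gcongr
      _ = (C1 * C2 / Real.pi) * (Real.exp (-‖v‖ ^ 2) * Real.exp (1/4 * ‖v‖ ^ 2) *
            Real.exp (1/4 * ‖v‖ ^ 2)) := by
          unfold gd; ring
      _ = _ := by
          rw [← Real.exp_add, ← Real.exp_add]
          congr 2
          ring

/-- Conditions on a class of functions under which `ker p` is reproducing. -/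
structure ReproClass (p : ℝ[X]) (Cls : (ℂ → ℂ) → Prop) : Prop where
  cont : ∀ f, Cls f → Continuous f
  shift : ∀ f, Cls f → ∀ z, Cls fun u => f (z + u) * cexp (-(conj z) * u)
  avg : ∀ f, Cls f → ∃ Q : ℂ[X], (∀ r > 0, Real.circleAverage f 0 r = Q.eval (((r ^ 2 : ℝ)) : ℂ)) ∧
    ∫ v, ((p.eval (‖v‖ ^ 2) : ℝ) : ℂ) * Q.eval (((‖v‖ ^ 2 : ℝ)) : ℂ) ∂gaussianMeasure = f 0

lemma ReproClass.repro {p : ℝ[X]} {Cls : (ℂ → ℂ) → Prop} (H : ReproClass p Cls) (f : ℂ → ℂ)
    (hf : Cls f) (hmem : MemLp f 2 gaussianMeasure) (z : ℂ) :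
    ∫ v, conj (ker p z v) * f v ∂gaussianMeasure = f z := by
  have hint : Integrable (fun v => conj (ker p z v) * f v) gaussianMeasure := by
    have h1 : MemLp (fun v => conj (ker p z v)) 2 gaussianMeasure := (memLp_ker p z).star
    exact h1.integrable_mul hmem
  rw [integral_ker]
  have hs := H.shift f hf z
  obtain ⟨Q, hQ, hQ2⟩ := H.avg _ hs
  rw [integral_radial (fun u => f (z + u) * cexp (-(conj z) * u)) (H.cont _ hs)
    (fun t => ((p.eval t : ℝ) : ℂ)) (by fun_prop) (fun t => Q.eval ((t : ℝ) : ℂ)) (by fun_prop) hQ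
    (integrable_ker p f z hint) (integrable_poly_mul p Q), hQ2]
  simp

lemma inner_Kp (p : ℝ[X]) (z : ℂ) (x : GaussL2) (f : ℂ → ℂ) (hx : x =ᵐ[gaussianMeasure] f) :
    (inner ℂ (Kp p z) x : ℂ) = ∫ v, conj (ker p z v) * f v ∂gaussianMeasure := by
  rw [inner_eq_integral]
  refine integral_congr_ae ?_
  filter_upwards [Kp_ae p z, hx] with v h1 h2
  rw [h1, h2]

/-- Construction of reproducing kernel data. -/
noncomputable def mkRK (F : Submodule ℂ GaussL2) (p : ℝ[X]) (hp : p ≠ 0) (Cls : (ℂ → ℂ) → Prop)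
    (H : ReproClass p Cls) (hker : ∀ z, Cls (ker p z))
    (hF : ∀ x : GaussL2, x ∈ F ↔ ∃ f, Cls f ∧ x =ᵐ[gaussianMeasure] f) : RKData F where
  φ := fun v => p.eval (‖v‖ ^ 2)
  cont := by fun_prop
  C := (poly_growth' p).choose
  growth := (poly_growth' p).choose_spec
  ae_ne := poly_ae_ne p hp
  K := Kp p
  K_ae := fun z => Kp_ae p z
  K_mem := fun z => (hF _).mpr ⟨ker p z, hker z, Kp_ae p z⟩
  repr := by
    intro x hx
    obtain ⟨f, hf, hxf⟩ := (hF x).mp hx
    have hmem : MemLp f 2 gaussianMeasure := (memLp_congr_ae hxf).mp (Lp.memLp x)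
    filter_upwards [hxf] with z hz
    rw [hz, inner_Kp p z x f hxf, H.repro f hf hmem z]
  inner_K := by
    intro z w
    rw [inner_Kp p z (Kp p w) (ker p w) (Kp_ae p w),
      H.repro (ker p w) (hker w) (memLp_ker p w) z]
    rfl

end Pool.Agent.helper21.Fock
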