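import Mathlib
import Pool.Agent.helper21.FockMain

set_option autoImplicit false

open MeasureTheory Complex ENNReal ComplexConjugate

namespace Pool.Agent.helper21.Fock

/-- Construction of an operator from a measurable family of vectors satisfying a Schur bound. -/
lemma exists_op (t : ℂ → GaussL2) (γ : ℂ → ℝ) (hγm : Measurable γ) (hγ0 : ∀ u, 0 ≤ γ u)
    (hγi : Integrable γ)
    (hmeas : ∀ x : GaussL2, AEStronglyMeasurable (fun z => (inner ℂ (t z) x : ℂ)) gaussianMeasure)
    (hb : ∀ z, ∀ᵐ w ∂gaussianMeasure, ‖t z w‖ₑ ≤ wt z * wt w * ENNReal.ofReal (γ (z - w))) :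
    ∃ T : GaussL2 →L[ℂ] GaussL2, ∀ x, T x =ᵐ[gaussianMeasure] fun z => (inner ℂ (t z) x : ℂ) := by
  have hbound : ∀ (x : GaussL2) (z : ℂ), ‖(inner ℂ (t z) x : ℂ)‖ₑ ≤
      ∫⁻ w, wt z * wt w * ENNReal.ofReal (γ (z - w)) * ‖x w‖ₑ ∂gaussianMeasure := by
    intro x z
    refine (enorm_inner_le_lintegral (t z) x).trans (lintegral_mono_ae ?_)
    filter_upwards [hb z] with w hw
    gcongr
  have hxm : ∀ x : GaussL2, AEMeasurable (fun w => ‖x w‖ₑ) (volume : Measure ℂ) := fun x => by
    have : AEMeasurable (fun w => ‖x w‖ₑ) gaussianMeasure :=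
      (Lp.aestronglyMeasurable x).enorm
    exact this.mono_ac volume_ac_gauss
  have hI : 0 ≤ ∫ u, γ u := integral_nonneg (μ := (volume : Measure ℂ)) (fun u => hγ0 u)
  have hmem : ∀ x : GaussL2, MemLp (fun z => (inner ℂ (t z) x : ℂ)) 2 gaussianMeasure := by
    intro x
    refine ⟨hmeas x, ?_⟩
    rw [eLpNorm_eq_lintegral_rpow_enorm_toReal (by norm_num) (by norm_num)]
    simp only [ENNReal.toReal_ofNat, one_div]
    refine ENNReal.rpow_lt_top_of_nonneg (by norm_num) ?_
    refine ne_of_lt ?_
    calc ∫⁻ z, ‖(inner ℂ (t z) x : ℂ)‖ₑ ^ (2 : ℝ) ∂gaussianMeasure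
        ≤ ∫⁻ z, (∫⁻ w, wt z * wt w * ENNReal.ofReal (γ (z - w)) * ‖x w‖ₑ ∂gaussianMeasure) ^ 2
            ∂gaussianMeasure := by
          refine lintegral_mono fun z => ?_
          rw [show (2 : ℝ) = ((2 : ℕ) : ℝ) by norm_num, ENNReal.rpow_natCast]
          gcongr
          exact hbound x z
      _ ≤ ((∫⁻ u, ENNReal.ofReal (γ u)) * ENNReal.ofReal (1 / Real.pi)) ^ 2 *
            ∫⁻ w, ‖x w‖ₑ ^ 2 ∂gaussianMeasure :=
          schur_lintegral (fun u => ENNReal.ofReal (γ u)) (fun w => ‖x w‖ₑ)
            hγm.ennreal_ofReal (hxm x)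
      _ < ∞ := by
          rw [← enorm_sq_eq, ← ofReal_integral_eq_lintegral_ofReal hγi
            (Filter.Eventually.of_forall hγ0)]
          refine ENNReal.mul_lt_top ?_ ?_
          · exact ENNReal.pow_lt_top (ENNReal.mul_lt_top ENNReal.ofReal_lt_top
              ENNReal.ofReal_lt_top)
          · exact ENNReal.pow_lt_top enorm_lt_top
  let L : GaussL2 →ₗ[ℂ] GaussL2 :=
    { toFun := fun x => (hmem x).toLp _
      map_add' := fun x y => by
        apply Lp.ext
        filter_upwards [(hmem (x + y)).coeFn_toLp, (hmem x).coeFn_toLp, (hmem y).coeFn_toLp,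
          Lp.coeFn_add ((hmem x).toLp _) ((hmem y).toLp _)] with z h1 h2 h3 h4
        rw [h1, h4, Pi.add_apply, h2, h3, inner_add_right]
      map_smul' := fun c x => by
        apply Lp.ext
        filter_upwards [(hmem (c • x)).coeFn_toLp, (hmem x).coeFn_toLp,
          Lp.coeFn_smul c ((hmem x).toLp _)] with z h1 h2 h4
        rw [h1, RingHom.id_apply, h4, Pi.smul_apply, h2, inner_smul_right, smul_eq_mul] }
  refine ⟨L.mkContinuous ((∫ u, γ u) / Real.pi) fun x => ?_, fun x => ?_⟩
  · refine norm_le_of_pointwise x (L x) γ hγm hγ0 hγi ?_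
    filter_upwards [(hmem x).coeFn_toLp] with z hz
    have : (L x : GaussL2) z = inner ℂ (t z) x := hz
    rw [this]
    exact hbound x z
  · exact (hmem x).coeFn_toLp

namespace RKData

variable {F : Submodule ℂ GaussL2} (D : RKData F)

/-- truncated kernel vectors -/
noncomputable def tr (R : ℝ) (z : ℂ) : GaussL2 :=
  mulOp (indLinfty (Metric.closedBall z R) Metric.isClosed_closedBall.measurableSet) (D.K z)

lemma tr_ae (R : ℝ) (z : ℂ) : D.tr R z =ᵐ[gaussianMeasure] fun w =>
    if dist w z ≤ R then cexp (conj z * w) * (D.φ (w - z) : ℂ) else 0 := by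
  unfold tr
  filter_upwards [ind_apply_ae (Metric.closedBall z R) Metric.isClosed_closedBall.measurableSet
    (D.K z), D.K_ae z] with w h1 h2
  rw [h1]
  by_cases hw : w ∈ Metric.closedBall z R
  · rw [Set.indicator_of_mem hw, h2, if_pos (by simpa using hw)]
  · rw [Set.indicator_of_notMem hw, if_neg (by simpa using hw)]

lemma K_bound (z : ℂ) : ∀ᵐ w ∂gaussianMeasure, ‖D.K z w‖ ≤
    Real.exp (‖z‖ ^ 2 / 2) * Real.exp (‖w‖ ^ 2 / 2) * (D.C * Real.exp (-(1/4) * ‖z - w‖ ^ 2)) := by
  filter_upwards [D.K_ae z] with w hw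
  have h1 := D.conj_K z w hw
  rw [← Complex.norm_conj, h1, D.K_eq_k z, D.K_eq_k w, inner_smul_left, inner_smul_right,
    norm_mul, norm_mul, conj_ofReal, Complex.norm_real, Complex.norm_real, Real.norm_eq_abs,
    Real.norm_eq_abs, abs_of_pos (Real.exp_pos _), abs_of_pos (Real.exp_pos _), ← mul_assoc]
  have := D.norm_kappa_le z w
  unfold κ at this
  gcongr

lemma tr_meas (R : ℝ) (x : GaussL2) :
    AEStronglyMeasurable (fun z => (inner ℂ (D.tr R z) x : ℂ)) gaussianMeasure := by
  have h1 : ∀ z, (inner ℂ (D.tr R z) x : ℂ) =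
      ∫ w, conj (if dist w z ≤ R then cexp (conj z * w) * (D.φ (w - z) : ℂ) else 0) * x w
        ∂gaussianMeasure := by
    intro z
    rw [inner_eq_integral]
    refine integral_congr_ae ?_
    filter_upwards [D.tr_ae R z] with w hw
    rw [hw]
  simp_rw [h1]
  have hx : StronglyMeasurable (x : ℂ → ℂ) := Lp.stronglyMeasurable x
  have hφ := D.cont
  have h2 : StronglyMeasurable fun p : ℂ × ℂ =>
      (if dist p.2 p.1 ≤ R then cexp (conj p.1 * p.2) * (D.φ (p.2 - p.1) : ℂ) else 0) := by
    refine StronglyMeasurable.ite ?_ ?_ ?_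
    · exact (isClosed_le (by fun_prop) (by fun_prop)).measurableSet
    · refine Continuous.stronglyMeasurable ?_
      fun_prop
    · exact stronglyMeasurable_const
  have h3 : StronglyMeasurable fun p : ℂ × ℂ =>
      conj (if dist p.2 p.1 ≤ R then cexp (conj p.1 * p.2) * (D.φ (p.2 - p.1) : ℂ) else 0) * x p.2 :=
    (Complex.continuous_conj.comp_stronglyMeasurable h2).mul
      (hx.comp_measurable measurable_snd)
  exact (h3.aestronglyMeasurable (μ := gaussianMeasure.prod gaussianMeasure)).integral_prod_right'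

lemma enorm_K_bound (z : ℂ) : ∀ᵐ w ∂gaussianMeasure, ‖D.K z w‖ₑ ≤
    wt z * wt w * ENNReal.ofReal (D.C * Real.exp (-(1/4) * ‖z - w‖ ^ 2)) := by
  have hC := D.C_nonneg
  filter_upwards [D.K_bound z] with w hw
  rw [← ofReal_norm, wt, wt, ← ENNReal.ofReal_mul (by positivity),
    ← ENNReal.ofReal_mul (by positivity)]
  exact ENNReal.ofReal_le_ofReal hw

include D in
/-- The orthogonal projection onto `F` is band-dominated. -/
theorem starProjection_mem_BDO [F.HasOrthogonalProjection] : F.starProjection ∈ BDO := by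
  have hC := D.C_nonneg
  have hpi := Real.pi_pos
  unfold BDO
  rw [Metric.mem_closure_iff]
  intro ε hε
  set I8 := ∫ u : ℂ, Real.exp (-(1/8) * ‖u‖ ^ 2) with hI8
  have hI8nn : 0 ≤ I8 := integral_nonneg fun u => (Real.exp_pos _).le
  obtain ⟨R, hR0, hR⟩ : ∃ R : ℝ, 0 ≤ R ∧ D.C * Real.exp (-R ^ 2 / 8) * I8 / Real.pi < ε := by
    have t1 : Filter.Tendsto (fun R : ℝ => D.C * Real.exp (-R ^ 2 / 8) * I8 / Real.pi)
        Filter.atTop (nhds (D.C * 0 * I8 / Real.pi)) := by
      refine Filter.Tendsto.div_const (Filter.Tendsto.mul_const _ (Filter.Tendsto.const_mul _ ?_)) _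
      refine Real.tendsto_exp_atBot.comp ?_
      have : (fun R : ℝ => -R ^ 2 / 8) = fun R : ℝ => -((1 / 8) * R ^ 2) := by
        funext R; ring
      rw [this]
      refine Filter.tendsto_neg_atTop_atBot.comp ?_
      exact Filter.Tendsto.const_mul_atTop (by norm_num) (Filter.tendsto_pow_atTop two_ne_zero)
    rw [mul_zero, zero_mul, zero_div] at t1
    have := (t1.eventually (gt_mem_nhds hε)).and (Filter.eventually_ge_atTop 0)
    obtain ⟨R, h1, h2⟩ := this.exists
    exact ⟨R, h2, h1⟩
  have hγ4m : Measurable fun u : ℂ => D.C * Real.exp (-(1/4) * ‖u‖ ^ 2) := by fun_prop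
  have hγ4i : Integrable fun u : ℂ => D.C * Real.exp (-(1/4) * ‖u‖ ^ 2) :=
    (integrable_gauss_real (by norm_num)).const_mul _
  obtain ⟨T, hT⟩ := exists_op (D.tr R) (fun u => D.C * Real.exp (-(1/4) * ‖u‖ ^ 2)) hγ4m
    (fun u => by positivity) hγ4i (D.tr_meas R) (fun z => by
      unfold tr
      filter_upwards [ind_apply_ae (Metric.closedBall z R)
        Metric.isClosed_closedBall.measurableSet (D.K z), D.enorm_K_bound z] with w h1 h2
      rw [h1]
      by_cases hw : w ∈ Metric.closedBall z R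
      · rw [Set.indicator_of_mem hw]; exact h2
      · rw [Set.indicator_of_notMem hw]; simp)
  refine ⟨T, ?_, ?_⟩
  · -- `T` is a band operator
    refine ⟨R, fun K K' hK hK' hd => ?_⟩
    ext1 x
    apply Lp.ext
    simp only [ContinuousLinearMap.coe_comp, Function.comp_apply, zero_apply]
    filter_upwards [ind_apply_ae K' hK' (T (mulOp (indLinfty K hK) x)),
      hT (mulOp (indLinfty K hK) x), Lp.coeFn_zero ℂ 2 gaussianMeasure] with z h1 h2 h3
    rw [h1, h3]
    by_cases hz : z ∈ K'
    · rw [Set.indicator_of_mem hz, h2, inner_eq_integral]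
      rw [Pi.zero_apply]
      rw [integral_eq_zero_of_ae]
      filter_upwards [D.tr_ae R z, ind_apply_ae K hK x] with w g1 g2
      rw [g1, g2]
      by_cases hw : w ∈ K
      · have := hd w hw z hz
        rw [if_neg (not_le.mpr this)]
        simp
      · rw [Set.indicator_of_notMem hw]
        simp
    · rw [Set.indicator_of_notMem hz]; rfl
  · -- distance estimate
    rw [dist_eq_norm]
    refine lt_of_le_of_lt ?_ hR
    refine ContinuousLinearMap.opNorm_le_bound _ (by positivity) fun x => ?_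
    have hγ8i : Integrable fun u : ℂ => D.C * Real.exp (-R ^ 2 / 8) * Real.exp (-(1/8) * ‖u‖ ^ 2) :=
      (integrable_gauss_real (by norm_num)).const_mul _
    have key := norm_le_of_pointwise x ((F.starProjection - T) x)
      (fun u => D.C * Real.exp (-R ^ 2 / 8) * Real.exp (-(1/8) * ‖u‖ ^ 2)) (by fun_prop)
      (fun u => by positivity) hγ8i ?_
    · rw [integral_const_mul] at key
      exact key
    · filter_upwards [D.proj_formula x, hT x,
        Lp.coeFn_sub (F.starProjection x) (T x)] with z h1 h2 h3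
      have e1 : ((F.starProjection - T) x : GaussL2) z = inner ℂ (D.K z - D.tr R z) x := by
        have : (F.starProjection - T) x = F.starProjection x - T x := rfl
        rw [this, h3, Pi.sub_apply, h1, h2, inner_sub_left]
      rw [e1]
      refine (enorm_inner_le_lintegral _ x).trans (lintegral_mono_ae ?_)
      filter_upwards [D.K_bound z, ind_apply_ae (Metric.closedBall z R)
        Metric.isClosed_closedBall.measurableSet (D.K z),
        Lp.coeFn_sub (D.K z) (D.tr R z)] with w g1 g2 g3
      rw [g3, Pi.sub_apply]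
      have : ‖D.K z w - D.tr R z w‖ₑ ≤ wt z * wt w *
          ENNReal.ofReal (D.C * Real.exp (-R ^ 2 / 8) * Real.exp (-(1/8) * ‖z - w‖ ^ 2)) := by
        rw [tr, g2]
        by_cases hw : w ∈ Metric.closedBall z R
        · rw [Set.indicator_of_mem hw]; simp
        · rw [Set.indicator_of_notMem hw, sub_zero]
          rw [← ofReal_norm, wt, wt, ← ENNReal.ofReal_mul (by positivity),
            ← ENNReal.ofReal_mul (by positivity)]
          refine ENNReal.ofReal_le_ofReal (g1.trans ?_)
          have hRw : R < ‖z - w‖ := by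
            rw [← dist_eq_norm, dist_comm]
            simpa using hw
          have s2 : Real.exp (-(1/4) * ‖z - w‖ ^ 2) ≤
              Real.exp (-R ^ 2 / 8) * Real.exp (-(1/8) * ‖z - w‖ ^ 2) := by
            rw [← Real.exp_add]
            apply Real.exp_le_exp.mpr
            have : R ^ 2 ≤ ‖z - w‖ ^ 2 := by gcongr
            linarith
          rw [mul_assoc D.C]
          gcongr
      gcongr

end RKData
end Pool.Agent.helper21.Fock
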