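import Mathlib
import Pool.Agent.helper21.FockTrunc
import Pool.Agent.helper21.FockKernel

set_option autoImplicit false

open MeasureTheory Complex ENNReal ComplexConjugate Polynomial

namespace Pool.Agent.helper21.Fock
namespace RKData

variable {F : Submodule ℂ GaussL2} (D : RKData F)

lemma K_meas (x : GaussL2) :
    AEStronglyMeasurable (fun z => (inner ℂ (D.K z) x : ℂ)) gaussianMeasure := by
  have h1 : ∀ z, (inner ℂ (D.K z) x : ℂ) =
      ∫ w, conj (cexp (conj z * w) * (D.φ (w - z) : ℂ)) * x w ∂gaussianMeasure := by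
    intro z
    rw [inner_eq_integral]
    refine integral_congr_ae ?_
    filter_upwards [D.K_ae z] with w hw
    rw [hw]
  simp_rw [h1]
  have hx : StronglyMeasurable (x : ℂ → ℂ) := Lp.stronglyMeasurable x
  have hφ := D.cont
  have h2 : StronglyMeasurable fun p : ℂ × ℂ =>
      cexp (conj p.1 * p.2) * (D.φ (p.2 - p.1) : ℂ) := by
    refine Continuous.stronglyMeasurable ?_
    fun_prop
  have h3 : StronglyMeasurable fun p : ℂ × ℂ =>
      conj (cexp (conj p.1 * p.2) * (D.φ (p.2 - p.1) : ℂ)) * x p.2 :=
    (Complex.continuous_conj.comp_stronglyMeasurable h2).mul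
      (hx.comp_measurable measurable_snd)
  exact (h3.aestronglyMeasurable (μ := gaussianMeasure.prod gaussianMeasure)).integral_prod_right'

/-- Closedness of a subspace with reproducing kernel data. -/
lemma isClosed_of_repr
    (h : ∀ x y : GaussL2, (y =ᵐ[gaussianMeasure] fun z => (inner ℂ (D.K z) x : ℂ)) → y ∈ F) :
    IsClosed (F : Set GaussL2) := by
  have hC := D.C_nonneg
  have hγ4m : Measurable fun u : ℂ => D.C * Real.exp (-(1/4) * ‖u‖ ^ 2) := by fun_prop
  have hγ4i : Integrable fun u : ℂ => D.C * Real.exp (-(1/4) * ‖u‖ ^ 2) :=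
    (integrable_gauss_real (by norm_num)).const_mul _
  obtain ⟨T, hT⟩ := exists_op D.K (fun u => D.C * Real.exp (-(1/4) * ‖u‖ ^ 2)) hγ4m
    (fun u => by positivity) hγ4i D.K_meas D.enorm_K_bound
  have hset : (F : Set GaussL2) = {x | T x = x} := by
    ext x
    constructor
    · intro hx
      change T x = x
      apply Lp.ext
      filter_upwards [hT x, D.repr x hx] with z h1 h2
      rw [h1, h2]
    · intro hx
      have hx' : T x = x := hx
      refine h x x ?_
      have := hT x
      rwa [hx'] at this
  rw [hset]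
  exact isClosed_eq T.continuous continuous_id

end RKData
end Pool.Agent.helper21.Fock
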