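import Mathlib
import Pool.Agent.helper21.FockKernel

set_option autoImplicit false

open MeasureTheory Complex ENNReal ComplexConjugate

namespace Pool.Agent.helper21.Fock

lemma memLp_exp_weight (m : ℕ) (R : ℝ) :
    MemLp (fun w : ℂ => ((‖w‖ ^ m * Real.exp (R * ‖w‖) : ℝ) : ℂ)) 2 gaussianMeasure := by
  have h := memLp_shift (fun w : ℂ => ((‖w‖ ^ m * Real.exp (R * ‖w‖) : ℝ) : ℂ)) (by fun_prop)
    ((m.factorial : ℝ) * Real.exp ((R + 1) ^ 2)) (fun v => ?_) 0
  · simpa using h
  · rw [Complex.norm_real, Real.norm_eq_abs, abs_of_nonneg (by positivity)]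
    have h1 := Real.pow_div_factorial_le_exp ‖v‖ (norm_nonneg _) m
    have hm : (0 : ℝ) < m.factorial := by exact_mod_cast m.factorial_pos
    rw [div_le_iff₀ hm] at h1
    calc ‖v‖ ^ m * Real.exp (R * ‖v‖) ≤ (Real.exp ‖v‖ * m.factorial) * Real.exp (R * ‖v‖) := by gcongr
      _ = m.factorial * Real.exp ((R + 1) * ‖v‖) := by
          have : Real.exp ((R + 1) * ‖v‖) = Real.exp ‖v‖ * Real.exp (R * ‖v‖) := by
            rw [← Real.exp_add]; congr 1; ring
          rw [this]; ring
      _ ≤ m.factorial * (Real.exp ((R + 1) ^ 2) * Real.exp (‖v‖ ^ 2 / 4)) := by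
          rw [← Real.exp_add]
          gcongr
          nlinarith [sq_nonneg ((R + 1) - ‖v‖ / 2)]
      _ = _ := by ring

lemma integrable_weight (m : ℕ) (R : ℝ) (x : GaussL2) :
    Integrable (fun w => ‖w‖ ^ m * Real.exp (R * ‖w‖) * ‖x w‖) gaussianMeasure := by
  have h1 := (memLp_exp_weight m R).norm
  have h2 := (Lp.memLp x).norm
  have h3 := h1.integrable_mul h2
  refine h3.congr (Filter.Eventually.of_forall fun w => ?_)
  simp only [Pi.mul_apply, Complex.norm_real, Real.norm_eq_abs]
  rw [abs_of_nonneg (by positivity)]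

/-- basic parametric functions -/
noncomputable def mon (b c : ℕ) (z w : ℂ) : ℂ := w ^ b * conj w ^ c * cexp (z * conj w)

lemma norm_mon_le (b c : ℕ) (z w : ℂ) (R : ℝ) (hz : ‖z‖ ≤ R) :
    ‖mon b c z w‖ ≤ ‖w‖ ^ (b + c) * Real.exp (R * ‖w‖) := by
  unfold mon
  rw [norm_mul, norm_mul, norm_pow, norm_pow, Complex.norm_conj, Complex.norm_exp, ← pow_add]
  have : (z * conj w).re ≤ R * ‖w‖ := by
    refine (Complex.re_le_norm _).trans ?_
    rw [norm_mul, Complex.norm_conj]
    gcongr
  gcongr

lemma hasDerivAt_mon (b c : ℕ) (z w : ℂ) :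
    HasDerivAt (fun z => mon b c z w) (mon b (c + 1) z w) z := by
  unfold mon
  have h := ((hasDerivAt_id z).mul_const (conj w)).cexp.const_mul (w ^ b * conj w ^ c)
  refine h.congr_deriv ?_
  simp only [id]
  ring

lemma continuous_mon (b c : ℕ) (z : ℂ) : Continuous fun w => mon b c z w := by
  unfold mon; fun_prop

lemma integrable_mon (b c : ℕ) (z : ℂ) (x : GaussL2) :
    Integrable (fun w => mon b c z w * x w) gaussianMeasure := by
  refine (integrable_weight (b + c) ‖z‖ x).mono'
    ((continuous_mon b c z).aestronglyMeasurable.mul (Lp.aestronglyMeasurable x)) ?_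
  refine Filter.Eventually.of_forall fun w => ?_
  rw [norm_mul]
  have := norm_mon_le b c z w ‖z‖ le_rfl
  gcongr

lemma hasDerivAt_integral_mon (b c : ℕ) (x : GaussL2) (z : ℂ) :
    HasDerivAt (fun z => ∫ w, mon b c z w * x w ∂gaussianMeasure)
      (∫ w, mon b (c + 1) z w * x w ∂gaussianMeasure) z := by
  have h := hasDerivAt_integral_of_dominated_loc_of_deriv_le (μ := gaussianMeasure) (𝕜 := ℂ)
    (F := fun z w => mon b c z w * x w) (F' := fun z w => mon b (c + 1) z w * x w)
    (x₀ := z) (s := Metric.ball z 1)
    (bound := fun w => ‖w‖ ^ (b + (c + 1)) * Real.exp ((‖z‖ + 1) * ‖w‖) * ‖x w‖)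
    (Metric.ball_mem_nhds z one_pos)
    (Filter.Eventually.of_forall fun z => (integrable_mon b c z x).aestronglyMeasurable)
    (integrable_mon b c z x) (integrable_mon b (c + 1) z x).aestronglyMeasurable
    (Filter.Eventually.of_forall fun w z' hz' => ?_)
    (integrable_weight _ _ x)
    (Filter.Eventually.of_forall fun w z' _ => (hasDerivAt_mon b c z' w).mul_const (x w))
  · exact h.2
  · rw [norm_mul]
    have h1 : ‖z'‖ ≤ ‖z‖ + 1 := by
      have : ‖z' - z‖ < 1 := by simpa [dist_eq_norm] using hz'
      have := norm_le_norm_add_norm_sub' z' z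
      linarith
    have := norm_mon_le b (c + 1) z' w _ h1
    gcongr

/-- monomials -/
noncomputable def mono (a b c : ℕ) (z w : ℂ) : ℂ := z ^ a * mon b c z w

/-- the space of admissible parametric functions -/
noncomputable def Par : Submodule ℂ (ℂ → ℂ → ℂ) :=
  Submodule.span ℂ (Set.range fun t : ℕ × ℕ × ℕ => mono t.1 t.2.1 t.2.2)

lemma mono_mem (a b c : ℕ) : mono a b c ∈ Par := Submodule.subset_span ⟨(a, b, c), rfl⟩

lemma hasDerivAt_mono (a b c : ℕ) (z w : ℂ) :
    HasDerivAt (fun z => mono a b c z w)
      ((a : ℂ) * mono (a - 1) b c z w + mono a b (c + 1) z w) z := by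
  unfold mono
  have h := (hasDerivAt_pow a z).mul (hasDerivAt_mon b c z w)
  refine h.congr_deriv ?_
  ring

/-- The properties of parametric functions used below. -/
structure ParGood (u : ℂ → ℂ → ℂ) : Prop where
  diff : ∀ w, Differentiable ℂ fun z => u z w
  dmem : (fun z w => deriv (fun z' => u z' w) z) ∈ Par
  int : ∀ (x : GaussL2) (z : ℂ), Integrable (fun w => u z w * x w) gaussianMeasure
  deriv : ∀ (x : GaussL2) (z : ℂ), HasDerivAt (fun z => ∫ w, u z w * x w ∂gaussianMeasure)
    (∫ w, deriv (fun z' => u z' w) z * x w ∂gaussianMeasure) z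

lemma parGood_mono (a b c : ℕ) : ParGood (mono a b c) := by
  have hd : ∀ z w, _root_.deriv (fun z' => mono a b c z' w) z =
      (a : ℂ) * mono (a - 1) b c z w + mono a b (c + 1) z w := fun z w =>
    (hasDerivAt_mono a b c z w).deriv
  have hint : ∀ (a b c : ℕ) (x : GaussL2) (z : ℂ),
      Integrable (fun w => mono a b c z w * x w) gaussianMeasure := by
    intro a b c x z
    have := (integrable_mon b c z x).const_mul (z ^ a)
    refine this.congr (Filter.Eventually.of_forall fun w => ?_)
    simp only [mono]; ring
  have hI : ∀ (a b c : ℕ) (x : GaussL2) (z : ℂ), ∫ w, mono a b c z w * x w ∂gaussianMeasure =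
      z ^ a * ∫ w, mon b c z w * x w ∂gaussianMeasure := by
    intro a b c x z
    rw [← integral_const_mul]
    refine integral_congr_ae (Filter.Eventually.of_forall fun w => ?_)
    simp only [mono]; ring
  refine ⟨fun w z => (hasDerivAt_mono a b c z w).differentiableAt, ?_, hint a b c, ?_⟩
  · simp_rw [hd]
    have : (fun z w => (a : ℂ) * mono (a - 1) b c z w + mono a b (c + 1) z w) =
        (a : ℂ) • mono (a - 1) b c + mono a b (c + 1) := by
      funext z w
      simp
    rw [this]
    exact Par.add_mem (Par.smul_mem _ (mono_mem _ _ _)) (mono_mem _ _ _)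
  · intro x z
    simp_rw [hd, hI]
    have h := (hasDerivAt_pow a z).mul (hasDerivAt_integral_mon b c x z)
    refine h.congr_deriv ?_
    have e1 : ∫ w, ((a : ℂ) * mono (a - 1) b c z w + mono a b (c + 1) z w) * x w ∂gaussianMeasure =
        (a : ℂ) * ∫ w, mono (a - 1) b c z w * x w ∂gaussianMeasure +
          ∫ w, mono a b (c + 1) z w * x w ∂gaussianMeasure := by
      rw [← integral_const_mul, ← integral_add ((hint _ _ _ x z).const_mul _) (hint _ _ _ x z)]
      refine integral_congr_ae (Filter.Eventually.of_forall fun w => ?_)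
      simp only; ring
    rw [e1, hI, hI]
    ring

lemma parGood_of_mem (u : ℂ → ℂ → ℂ) (hu : u ∈ Par) : ParGood u := by
  unfold Par at hu
  induction hu using Submodule.span_induction with
  | mem u hu =>
    obtain ⟨t, rfl⟩ := hu
    exact parGood_mono _ _ _
  | zero =>
    refine ⟨fun w => ?_, ?_, fun x z => ?_, fun x z => ?_⟩
    · simp only [Pi.zero_apply]; exact differentiable_const _
    · simp only [Pi.zero_apply, deriv_const']
      exact Par.zero_mem
    · simp
    · simp only [Pi.zero_apply, zero_mul, integral_zero, deriv_const']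
      exact hasDerivAt_const _ _
  | add u v _ _ hu hv =>
    have hd : ∀ z w, _root_.deriv (fun z' => (u + v) z' w) z =
        _root_.deriv (fun z' => u z' w) z + _root_.deriv (fun z' => v z' w) z := by
      intro z w
      exact deriv_add (hu.diff w z) (hv.diff w z)
    refine ⟨fun w => (hu.diff w).add (hv.diff w), ?_, fun x z => ?_, fun x z => ?_⟩
    · simp_rw [hd]
      exact Par.add_mem hu.dmem hv.dmem
    · refine ((hu.int x z).add (hv.int x z)).congr (Filter.Eventually.of_forall fun w => ?_)
      simp [add_mul]
    · simp_rw [hd]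
      have h := (hu.deriv x z).add (hv.deriv x z)
      have e : (fun z => ∫ w, (u + v) z w * x w ∂gaussianMeasure) =
          (fun z => ∫ w, u z w * x w ∂gaussianMeasure) + fun z => ∫ w, v z w * x w ∂gaussianMeasure := by
        funext z
        change _ = (∫ w, u z w * x w ∂gaussianMeasure) + ∫ w, v z w * x w ∂gaussianMeasure
        rw [← integral_add (hu.int x z) (hv.int x z)]
        refine integral_congr_ae (Filter.Eventually.of_forall fun w => ?_)
        simp [add_mul]
      rw [e]
      refine h.congr_deriv ?_
      rw [← integral_add]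
      · refine integral_congr_ae (Filter.Eventually.of_forall fun w => ?_)
        simp [add_mul]
      · exact (parInt hu.dmem x z)
      · exact (parInt hv.dmem x z)
  | smul c u _ hu =>
    have hd : ∀ z w, _root_.deriv (fun z' => (c • u) z' w) z =
        c * _root_.deriv (fun z' => u z' w) z := by
      intro z w
      exact deriv_const_mul c (hu.diff w z)
    refine ⟨fun w => (hu.diff w).const_mul c, ?_, fun x z => ?_, fun x z => ?_⟩
    · simp_rw [hd]
      exact Par.smul_mem c hu.dmem
    · refine ((hu.int x z).const_mul c).congr (Filter.Eventually.of_forall fun w => ?_)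
      simp [mul_assoc]
    · simp_rw [hd]
      have h := (hu.deriv x z).const_mul c
      have e : (fun z => ∫ w, (c • u) z w * x w ∂gaussianMeasure) =
          fun z => c * ∫ w, u z w * x w ∂gaussianMeasure := by
        funext z
        rw [← integral_const_mul]
        refine integral_congr_ae (Filter.Eventually.of_forall fun w => ?_)
        simp [mul_assoc]
      rw [e]
      refine h.congr_deriv ?_
      rw [← integral_const_mul]
      refine integral_congr_ae (Filter.Eventually.of_forall fun w => ?_)
      simp [mul_assoc]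
where
  parInt {u : ℂ → ℂ → ℂ} (hu : u ∈ Par) (x : GaussL2) (z : ℂ) :
      Integrable (fun w => u z w * x w) gaussianMeasure := by
    unfold Par at hu
    induction hu using Submodule.span_induction with
    | mem u hu =>
      obtain ⟨t, rfl⟩ := hu
      exact (parGood_mono _ _ _).int x z
    | zero => simp
    | add u v _ _ hu hv =>
      refine (hu.add hv).congr (Filter.Eventually.of_forall fun w => ?_)
      simp [add_mul]
    | smul c u _ hu =>
      refine (hu.const_mul c).congr (Filter.Eventually.of_forall fun w => ?_)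
      simp [mul_assoc]

/-! ### Closure properties of `Par` -/

lemma par_mul_z {u : ℂ → ℂ → ℂ} (hu : u ∈ Par) : (fun z w => z * u z w) ∈ Par := by
  unfold Par at hu
  induction hu using Submodule.span_induction with
  | mem u hu =>
    obtain ⟨t, rfl⟩ := hu
    convert mono_mem (t.1 + 1) t.2.1 t.2.2 using 1
    funext z w
    simp only [mono]; ring
  | zero => convert Par.zero_mem using 1; funext z w; simp
  | add u v _ _ hu hv =>
    convert Par.add_mem hu hv using 1; funext z w; simp [mul_add]
  | smul c u _ hu =>
    convert Par.smul_mem c hu using 1; funext z w; simp; ring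

lemma par_mul_w {u : ℂ → ℂ → ℂ} (hu : u ∈ Par) : (fun z w => w * u z w) ∈ Par := by
  unfold Par at hu
  induction hu using Submodule.span_induction with
  | mem u hu =>
    obtain ⟨t, rfl⟩ := hu
    convert mono_mem t.1 (t.2.1 + 1) t.2.2 using 1
    funext z w
    simp only [mono, mon]; ring
  | zero => convert Par.zero_mem using 1; funext z w; simp
  | add u v _ _ hu hv =>
    convert Par.add_mem hu hv using 1; funext z w; simp [mul_add]
  | smul c u _ hu =>
    convert Par.smul_mem c hu using 1; funext z w; simp; ring

lemma par_mul_conj {u : ℂ → ℂ → ℂ} (hu : u ∈ Par) : (fun z w => conj w * u z w) ∈ Par := by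
  unfold Par at hu
  induction hu using Submodule.span_induction with
  | mem u hu =>
    obtain ⟨t, rfl⟩ := hu
    convert mono_mem t.1 t.2.1 (t.2.2 + 1) using 1
    funext z w
    simp only [mono, mon]; ring
  | zero => convert Par.zero_mem using 1; funext z w; simp
  | add u v _ _ hu hv =>
    convert Par.add_mem hu hv using 1; funext z w; simp [mul_add]
  | smul c u _ hu =>
    convert Par.smul_mem c hu using 1; funext z w; simp; ring

lemma par_exp : (fun z w => cexp (z * conj w)) ∈ Par := by
  convert mono_mem 0 0 0 using 1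
  funext z w
  simp [mono, mon]

lemma par_sub_pow (j : ℕ) : (fun z w => (z - w) ^ j * cexp (z * conj w)) ∈ Par := by
  induction j with
  | zero => simpa using par_exp
  | succ j ih =>
    convert Par.sub_mem (par_mul_z ih) (par_mul_w ih) using 1
    funext z w
    simp only [Pi.sub_apply]
    ring

lemma par_conj_pow {u : ℂ → ℂ → ℂ} (hu : u ∈ Par) (m : ℕ) :
    (fun z w => conj w ^ m * u z w) ∈ Par := by
  induction m with
  | zero => simpa using hu
  | succ m ih =>
    convert par_mul_conj ih using 1
    funext z w
    ring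

end Pool.Agent.helper21.Fock
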