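import Mathlib
import Pool.Agent.helper21.FockTrunc

set_option autoImplicit false

open MeasureTheory Complex ENNReal ComplexConjugate

namespace Pool.Agent.helper21.Fock

/-- The band-dominated operators on `F` as a star subalgebra. -/
noncomputable def bdSub (F : Submodule ℂ GaussL2) [CompleteSpace F] (hP : F.starProjection ∈ BDO) :
    StarSubalgebra ℂ (F →L[ℂ] F) where
  carrier := bandDominated F
  mul_mem' := by
    intro S T hS hT
    simp only [bandDominated, Set.mem_ofPred_eq] at hS hT ⊢
    have : F.subtypeL ∘L (S * T) ∘L F.orthogonalProjectionOnto =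
        (F.subtypeL ∘L S ∘L F.orthogonalProjectionOnto) *
          (F.subtypeL ∘L T ∘L F.orthogonalProjectionOnto) := by
      ext1 x
      simp only [ContinuousLinearMap.coe_comp, Function.comp_apply, ContinuousLinearMap.mul_def,
        Submodule.subtypeL_apply]
      rw [F.orthogonalProjectionOnto_mem_subspace_eq_self]
    rw [this]
    exact BDO_mul hS hT
  add_mem' := by
    intro S T hS hT
    simp only [bandDominated, Set.mem_ofPred_eq] at hS hT ⊢
    have : F.subtypeL ∘L (S + T) ∘L F.orthogonalProjectionOnto =
        (F.subtypeL ∘L S ∘L F.orthogonalProjectionOnto) +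
          (F.subtypeL ∘L T ∘L F.orthogonalProjectionOnto) := by
      ext1 x
      simp
    rw [this]
    exact BDO_add hS hT
  algebraMap_mem' := by
    intro c
    simp only [bandDominated, Set.mem_ofPred_eq]
    have : F.subtypeL ∘L (algebraMap ℂ (F →L[ℂ] F) c) ∘L F.orthogonalProjectionOnto =
        c • F.starProjection := by
      ext1 x
      rfl
    rw [this]
    exact BDO_smul c hP
  star_mem' := by
    intro T hT
    simp only [bandDominated, Set.mem_ofPred_eq] at hT ⊢
    have : F.subtypeL ∘L (star T) ∘L F.orthogonalProjectionOnto =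
        star (F.subtypeL ∘L T ∘L F.orthogonalProjectionOnto) := by
      rw [ContinuousLinearMap.star_eq_adjoint, ContinuousLinearMap.star_eq_adjoint,
        ContinuousLinearMap.adjoint_comp, ContinuousLinearMap.adjoint_comp,
        Submodule.adjoint_subtypeL, Submodule.adjoint_orthogonalProjectionOnto]
      rfl
    rw [this]
    exact BDO_star hT

lemma toeplitz_mem (F : Submodule ℂ GaussL2) [CompleteSpace F] (hP : F.starProjection ∈ BDO)
    (f : Lp ℂ ∞ gaussianMeasure) : toeplitz F f ∈ bandDominated F := by
  simp only [bandDominated, Set.mem_ofPred_eq]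
  have : F.subtypeL ∘L (toeplitz F f) ∘L F.orthogonalProjectionOnto =
      F.starProjection * (mulOp f * F.starProjection) := by
    ext1 x
    rfl
  rw [this]
  exact BDO_mul hP (BDO_mul (BDO_of_isBand (isBand_mulOp f)) hP)

/-- For a closed subspace of `L^2(ℂ, μ)` with reproducing kernel data, the band-dominated
operators form the `C*`-algebra generated by the Toeplitz operators. -/
theorem bandDominated_eq (F : Submodule ℂ GaussL2) [CompleteSpace F] (D : RKData F) :
    bandDominated F = toeplitzCStar F := by
  have hP : F.starProjection ∈ BDO := D.starProjection_mem_BDO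
  apply Set.Subset.antisymm
  · intro T hT
    intro ε hε
    simp only [bandDominated, Set.mem_ofPred_eq] at hT
    unfold BDO at hT
    rw [Metric.mem_closure_iff] at hT
    obtain ⟨A, hA, hTA⟩ := hT (ε / 2) (by positivity)
    obtain ⟨ι, hι, f, g, B, γ, hf, hg, hfB, hgB, hγm, hγ0, hγi, hγ, happ⟩ :=
      D.main_approx hA (ε / 4) (by positivity)
    refine ⟨∑ i, toeplitz F (bddLp (f i) (hf i) B (hfB i)) *
      toeplitz F (bddLp (g i) (hg i) B (hgB i)), ?_, ?_⟩
    · refine sum_mem fun i _ => mul_mem ?_ ?_
      · exact StarAlgebra.subset_adjoin ℂ _ ⟨_, rfl⟩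
      · exact StarAlgebra.subset_adjoin ℂ _ ⟨_, rfl⟩
    · refine lt_of_le_of_lt (b := ε / 2 + ε / 4) ?_ (by linarith)
      refine ContinuousLinearMap.opNorm_le_bound _ (by positivity) fun x => ?_
      have hob := D.op_bound A f g B hf hg hfB hgB γ hγm hγ0 hγi happ (x : GaussL2) x.2
      have e1 : (((T - ∑ i, toeplitz F (bddLp (f i) (hf i) B (hfB i)) *
          toeplitz F (bddLp (g i) (hg i) B (hgB i))) x : F) : GaussL2) =
          F.starProjection ((F.subtypeL ∘L T ∘L F.orthogonalProjectionOnto - A) (x : GaussL2)) +
          (F.starProjection (A (x : GaussL2)) -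
            ∑ i, F.starProjection (mulOp (bddLp (f i) (hf i) B (hfB i))
              (F.starProjection (mulOp (bddLp (g i) (hg i) B (hgB i)) (x : GaussL2))))) := by
        have h1 : F.starProjection ((F.subtypeL ∘L T ∘L F.orthogonalProjectionOnto - A)
            (x : GaussL2)) = (T x : GaussL2) - F.starProjection (A (x : GaussL2)) := by
          rw [sub_apply, map_sub]
          congr 1
          simp only [ContinuousLinearMap.coe_comp, Function.comp_apply, Submodule.subtypeL_apply]
          rw [F.orthogonalProjectionOnto_mem_subspace_eq_self]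
          exact F.starProjection_eq_self_iff.mpr (T x).2
        rw [h1, sub_apply, Submodule.coe_sub,
          sum_apply, Submodule.coe_sum]
        have h2 : ∀ i, (((toeplitz F (bddLp (f i) (hf i) B (hfB i)) *
            toeplitz F (bddLp (g i) (hg i) B (hgB i))) x : F) : GaussL2) =
            F.starProjection (mulOp (bddLp (f i) (hf i) B (hfB i))
              (F.starProjection (mulOp (bddLp (g i) (hg i) B (hgB i)) (x : GaussL2)))) := by
          intro i
          rfl
        simp_rw [h2]
        abel
      rw [← Submodule.norm_coe, e1]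
      refine (norm_add_le _ _).trans ?_
      have n1 : ‖F.starProjection ((F.subtypeL ∘L T ∘L F.orthogonalProjectionOnto - A)
          (x : GaussL2))‖ ≤ ε / 2 * ‖x‖ := by
        refine (F.norm_starProjection_apply_le _).trans ?_
        refine (ContinuousLinearMap.le_opNorm _ _).trans ?_
        rw [dist_eq_norm] at hTA
        have : ‖(x : GaussL2)‖ = ‖x‖ := rfl
        rw [this]
        gcongr
      have n2 := hob.trans (mul_le_mul_of_nonneg_right hγ (norm_nonneg _))
      have : ‖(x : GaussL2)‖ = ‖x‖ := rfl
      rw [this] at n2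
      linarith
  · have h1 : StarAlgebra.adjoin ℂ (Set.range (toeplitz F)) ≤ bdSub F hP := by
      refine StarAlgebra.adjoin_le ?_
      rintro _ ⟨f, rfl⟩
      exact toeplitz_mem F hP f
    intro T hT
    simp only [bandDominated, Set.mem_ofPred_eq]
    rw [← isClosed_BDO.closure_eq, Metric.mem_closure_iff]
    intro ε hε
    obtain ⟨S, hS, hTS⟩ := hT ε hε
    have hS' : S ∈ bandDominated F := h1 hS
    refine ⟨F.subtypeL ∘L S ∘L F.orthogonalProjectionOnto, hS', ?_⟩
    rw [dist_eq_norm]
    refine lt_of_le_of_lt ?_ hTS
    refine ContinuousLinearMap.opNorm_le_bound _ (ContinuousLinearMap.opNorm_nonneg _) fun x => ?_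
    have e1 : (F.subtypeL ∘L T ∘L F.orthogonalProjectionOnto -
        F.subtypeL ∘L S ∘L F.orthogonalProjectionOnto) x =
        (((T - S) (F.orthogonalProjectionOnto x) : F) : GaussL2) := by
      rfl
    rw [e1, Submodule.norm_coe]
    refine (ContinuousLinearMap.le_opNorm _ _).trans ?_
    exact mul_le_mul_of_nonneg_left (F.norm_orthogonalProjectionOnto_apply_le x)
      (ContinuousLinearMap.opNorm_nonneg _)

end Pool.Agent.helper21.Fock
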