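import Mathlib
import Pool.Agent.helper21.FockClosed
import Pool.Agent.helper21.FockParam
import Pool.Agent.helper21.FockThm

set_option autoImplicit false

open MeasureTheory Complex ENNReal ComplexConjugate Polynomial

namespace Pool.Agent.helper21.Fock

/-- polyanalytic functions of order `n` -/
def PolyCls (n : ℕ) (f : ℂ → ℂ) : Prop :=
  ∃ h : Fin n → ℂ → ℂ, (∀ j, Differentiable ℂ (h j)) ∧ ∀ z, f z = ∑ j, h j z * conj z ^ (j : ℕ)

lemma polyCls_zero (n : ℕ) : PolyCls n fun _ => 0 :=
  ⟨fun _ _ => 0, fun _ => differentiable_const _, fun z => by simp⟩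

lemma polyCls_add {n : ℕ} {f g : ℂ → ℂ} (hf : PolyCls n f) (hg : PolyCls n g) :
    PolyCls n fun z => f z + g z := by
  obtain ⟨h, hh, he⟩ := hf
  obtain ⟨h', hh', he'⟩ := hg
  refine ⟨fun j z => h j z + h' j z, fun j => (hh j).add (hh' j), fun z => ?_⟩
  change f z + g z = _
  rw [he, he', ← Finset.sum_add_distrib]
  exact Finset.sum_congr rfl fun j _ => by ring

lemma polyCls_sum {n : ℕ} {ι : Type} (s : Finset ι) (f : ι → ℂ → ℂ) (hf : ∀ i ∈ s, PolyCls n (f i)) :
    PolyCls n fun z => ∑ i ∈ s, f i z := by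
  classical
  induction s using Finset.induction_on with
  | empty => simpa using polyCls_zero n
  | insert a s ha ih =>
    simp only [Finset.sum_insert ha]
    exact polyCls_add (hf a (Finset.mem_insert_self a s))
      (ih fun i hi => hf i (Finset.mem_insert_of_mem hi))

lemma polyCls_mono {n : ℕ} (g : ℂ → ℂ) (hg : Differentiable ℂ g) (i : ℕ) (hi : i < n) :
    PolyCls n fun z => g z * conj z ^ i := by
  classical
  refine ⟨fun j z => if (j : ℕ) = i then g z else 0, fun j => ?_, fun z => ?_⟩
  · by_cases h : (j : ℕ) = i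
    · simpa [h] using hg
    · simp only [h, if_false]; exact differentiable_const _
  · rw [Finset.sum_eq_single (⟨i, hi⟩ : Fin n)]
    · simp
    · intro b _ hb
      have : (b : ℕ) ≠ i := fun h => hb (Fin.ext h)
      simp [this]
    · simp

lemma polyCls_shift {n : ℕ} (f : ℂ → ℂ) (hf : PolyCls n f) (z : ℂ) :
    PolyCls n fun u => f (z + u) * cexp (-(conj z) * u) := by
  obtain ⟨h, hh, he⟩ := hf
  have : (fun u => f (z + u) * cexp (-(conj z) * u)) = fun u => ∑ j : Fin n,
      ∑ i ∈ Finset.range ((j : ℕ) + 1), (h j (z + u) * cexp (-(conj z) * u) *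
        (conj z ^ ((j : ℕ) - i) * ((j : ℕ).choose i : ℂ))) * conj u ^ i := by
    funext u
    rw [he, Finset.sum_mul]
    refine Finset.sum_congr rfl fun j _ => ?_
    rw [map_add, add_comm (conj z) (conj u), add_pow, Finset.mul_sum, Finset.sum_mul]
    refine Finset.sum_congr rfl fun i _ => ?_
    ring
  rw [this]
  refine polyCls_sum _ _ fun j _ => polyCls_sum _ _ fun i hi => ?_
  refine polyCls_mono _ ?_ i ?_
  · have h1 : Differentiable ℂ fun u : ℂ => h j (z + u) := (hh j).comp (by fun_prop)
    have h2 : Differentiable ℂ fun u : ℂ => cexp (-(conj z) * u) := by fun_prop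
    exact (h1.mul h2).mul_const _
  · have := Finset.mem_range.mp hi
    have := j.2
    omega

lemma polyCls_cont {n : ℕ} (f : ℂ → ℂ) (hf : PolyCls n f) : Continuous f := by
  obtain ⟨h, hh, he⟩ := hf
  have : f = fun z => ∑ j, h j z * conj z ^ (j : ℕ) := funext he
  rw [this]
  refine continuous_finsetSum _ fun j _ => ?_
  have := (hh j).continuous
  fun_prop

/-! ### The kernel polynomial -/

/-- `∫ q(|v|²) dμ` -/
noncomputable def mom (q : ℝ[X]) : ℝ := ∫ v : ℂ, q.eval (‖v‖ ^ 2) ∂gaussianMeasure

lemma integrable_mom (q : ℝ[X]) : Integrable (fun v : ℂ => q.eval (‖v‖ ^ 2)) gaussianMeasure := by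
  have h := (integrable_poly_mul q 1).re
  refine h.congr (Filter.Eventually.of_forall fun v => ?_)
  simp

lemma mom_add (p q : ℝ[X]) : mom (p + q) = mom p + mom q := by
  unfold mom
  rw [← integral_add (integrable_mom p) (integrable_mom q)]
  simp

lemma mom_smul (c : ℝ) (q : ℝ[X]) : mom (c • q) = c * mom q := by
  unfold mom
  rw [← integral_const_mul]
  simp

lemma mom_sq_eq_zero (q : ℝ[X]) (h : mom (q * q) = 0) : q = 0 := by
  by_contra hq
  unfold mom at h
  have hnn : 0 ≤ᵐ[gaussianMeasure] fun v : ℂ => (q * q).eval (‖v‖ ^ 2) :=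
    Filter.Eventually.of_forall fun v => by
      simp only [Polynomial.eval_mul, Pi.zero_apply]
      exact mul_self_nonneg _
  rw [integral_eq_zero_iff_of_nonneg_ae hnn (integrable_mom _)] at h
  have h2 := gauss_ac_volume (poly_ae_ne q hq)
  have h3 : ∀ᵐ v : ℂ ∂gaussianMeasure, False := by
    filter_upwards [h, h2] with v h1 h2
    simp only [Polynomial.eval_mul, Pi.zero_apply, mul_self_eq_zero] at h1
    exact h2 h1
  rw [Filter.eventually_false_iff_eq_bot, ae_eq_bot] at h3
  have := (inferInstance : IsProbabilityMeasure gaussianMeasure).measure_univ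
  rw [h3] at this
  simp at this

/-- Existence of the kernel polynomial of the polyanalytic Fock space. -/
lemma exists_kernel_poly (n : ℕ) (hn : 0 < n) : ∃ p : ℝ[X], p.degree < n ∧ p ≠ 0 ∧
    ∀ j < n, mom (p * X ^ j) = if j = 0 then 1 else 0 := by
  let V := Polynomial.degreeLT ℝ n
  have : FiniteDimensional ℝ V := Module.Finite.equiv (Polynomial.degreeLTEquiv ℝ n).symm
  let L : V →ₗ[ℝ] Module.Dual ℝ V :=
    LinearMap.mk₂ ℝ (fun p q => mom ((p : ℝ[X]) * q))
      (fun a b c => by simp only [Submodule.coe_add, add_mul, mom_add])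
      (fun a b c => by simp only [Submodule.coe_smul, smul_mul_assoc, mom_smul, smul_eq_mul])
      (fun a b c => by simp only [Submodule.coe_add, mul_add, mom_add])
      (fun a b c => by simp only [Submodule.coe_smul, mul_smul_comm, mom_smul, smul_eq_mul])
  have hL : Function.Injective L := by
    rw [← LinearMap.ker_eq_bot, LinearMap.ker_eq_bot']
    intro p hp
    have : mom ((p : ℝ[X]) * p) = 0 := by
      have := congrArg (fun l => l p) hp
      simpa [L] using this
    exact Subtype.ext (mom_sq_eq_zero _ this)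
  have hLs : Function.Surjective L :=
    (LinearMap.injective_iff_surjective_of_finrank_eq_finrank
      (Subspace.dual_finrank_eq (K := ℝ) (V := V)).symm).mp hL
  obtain ⟨p, hp⟩ := hLs ((Polynomial.leval (R := ℝ) 0).comp V.subtype)
  have key : ∀ j < n, mom ((p : ℝ[X]) * X ^ j) = if j = 0 then 1 else 0 := by
    intro j hj
    have hXj : (X ^ j : ℝ[X]) ∈ V := by
      rw [Polynomial.mem_degreeLT]
      refine (Polynomial.degree_X_pow_le j).trans_lt ?_
      exact_mod_cast hj
    have := congrArg (fun l => l ⟨X ^ j, hXj⟩) hp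
    simp only [L, LinearMap.mk₂_apply, LinearMap.comp_apply, Submodule.subtype_apply,
      Polynomial.leval_apply, Polynomial.eval_pow, Polynomial.eval_X] at this
    rw [this]
    by_cases h : j = 0
    · simp [h]
    · simp [h]
  refine ⟨p, Polynomial.mem_degreeLT.mp p.2, ?_, key⟩
  intro h0
  have := key 0 hn
  rw [h0] at this
  simp [mom] at this

/-- a kernel polynomial of `F^2_n` -/
noncomputable def kp (n : ℕ) (hn : 0 < n) : ℝ[X] := (exists_kernel_poly n hn).choose

lemma kp_degree (n : ℕ) (hn : 0 < n) : (kp n hn).degree < n := (exists_kernel_poly n hn).choose_spec.1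

lemma kp_ne (n : ℕ) (hn : 0 < n) : kp n hn ≠ 0 := (exists_kernel_poly n hn).choose_spec.2.1

lemma kp_mom (n : ℕ) (hn : 0 < n) (j : ℕ) (hj : j < n) : mom (kp n hn * X ^ j) = if j = 0 then 1 else 0 :=
  (exists_kernel_poly n hn).choose_spec.2.2 j hj

lemma reproClass_poly (n : ℕ) (hn : 0 < n) : ReproClass (kp n hn) (PolyCls n) where
  cont := fun f hf => polyCls_cont f hf
  shift := fun f hf z => polyCls_shift f hf z
  avg := by
    rintro f ⟨h, hh, he⟩
    set a : Fin n → ℂ := fun j => iteratedDeriv (j : ℕ) (h j) 0 / ((j : ℕ).factorial : ℂ) with ha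
    refine ⟨∑ j : Fin n, Polynomial.C (a j) * X ^ (j : ℕ), fun r hr => ?_, ?_⟩
    · have h1 : f = fun z => ∑ j : Fin n, h j z * conj z ^ (j : ℕ) := funext he
      have hci : ∀ j : Fin n, CircleIntegrable (fun z => h j z * conj z ^ (j : ℕ)) 0 r := by
        intro j
        refine ContinuousOn.circleIntegrable hr.le (Continuous.continuousOn ?_)
        have := (hh j).continuous
        fun_prop
      rw [h1, Real.circleAverage_fun_sum (fun j _ => hci j)]
      simp only [circleAverage_conj_pow _ (hh _) _ r hr, Polynomial.eval_finsetSum,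
        Polynomial.eval_mul, Polynomial.eval_C, Polynomial.eval_pow, Polynomial.eval_X]
      refine Finset.sum_congr rfl fun j _ => ?_
      rw [ha]
      push_cast
      ring
    · have h2 : ∀ v : ℂ, (((kp n hn).eval (‖v‖ ^ 2) : ℝ) : ℂ) *
          (∑ j : Fin n, Polynomial.C (a j) * X ^ (j : ℕ)).eval (((‖v‖ ^ 2 : ℝ)) : ℂ) =
          ∑ j : Fin n, a j * ((((kp n hn * X ^ (j : ℕ)).eval (‖v‖ ^ 2) : ℝ)) : ℂ) := by
        intro v
        rw [Polynomial.eval_finsetSum, Finset.mul_sum]
        refine Finset.sum_congr rfl fun j _ => ?_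
        simp only [Polynomial.eval_mul, Polynomial.eval_C, Polynomial.eval_pow, Polynomial.eval_X]
        push_cast
        ring
      simp_rw [h2]
      rw [integral_finsetSum _ fun j _ => ((integrable_mom _).ofReal).const_mul _]
      have h3 : ∀ j : Fin n, ∫ v : ℂ, a j * ((((kp n hn * X ^ (j : ℕ)).eval (‖v‖ ^ 2) : ℝ)) : ℂ)
          ∂gaussianMeasure = a j * (if (j : ℕ) = 0 then 1 else 0) := by
        intro j
        rw [integral_const_mul, integral_complex_ofReal]
        have := kp_mom n hn j j.2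
        unfold mom at this
        rw [this]
        split_ifs <;> simp
      simp_rw [h3]
      rw [Finset.sum_eq_single (⟨0, hn⟩ : Fin n)]
      · rw [he, Finset.sum_eq_single (⟨0, hn⟩ : Fin n)]
        · simp [ha]
        · intro b _ hb
          have : (b : ℕ) ≠ 0 := fun h => hb (Fin.ext h)
          simp [this]
        · simp
      · intro b _ hb
        have : (b : ℕ) ≠ 0 := fun h => hb (Fin.ext h)
        simp [this]
      · simp

lemma norm_sq_eq_mul_conj (v : ℂ) : ((‖v‖ ^ 2 : ℝ) : ℂ) = v * conj v := by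
  rw [Complex.mul_conj, Complex.normSq_eq_norm_sq]

lemma eval_as_sum (p : ℝ[X]) (n : ℕ) (hp : p.degree < n) (t : ℝ) :
    ((p.eval t : ℝ) : ℂ) = ∑ j ∈ Finset.range n, (p.coeff j : ℂ) * (t : ℂ) ^ j := by
  by_cases h0 : p = 0
  · simp [h0]
  have hn : p.natDegree < n := by
    rw [Polynomial.natDegree_lt_iff_degree_lt h0]; exact hp
  rw [Polynomial.eval_eq_sum_range' hn]
  push_cast
  rfl

lemma polyCls_ker (n : ℕ) (p : ℝ[X]) (hp : p.degree < n) (z : ℂ) : PolyCls n (ker p z) := by
  have h1 : PolyCls n fun v => ((p.eval (‖v‖ ^ 2) : ℝ) : ℂ) := by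
    have : (fun v : ℂ => ((p.eval (‖v‖ ^ 2) : ℝ) : ℂ)) = fun v => ∑ j ∈ Finset.range n,
        ((p.coeff j : ℂ) * v ^ j) * conj v ^ j := by
      funext v
      rw [eval_as_sum p n hp]
      refine Finset.sum_congr rfl fun j _ => ?_
      rw [norm_sq_eq_mul_conj, mul_pow]
      ring
    rw [this]
    refine polyCls_sum _ _ fun j hj => polyCls_mono _ (by fun_prop) j (Finset.mem_range.mp hj)
  have h2 := polyCls_shift _ h1 (-z)
  convert h2 using 1
  funext u
  unfold ker
  rw [neg_add_eq_sub, map_neg, neg_neg]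
  ring

/-- Representation of `conj (ker p z w)` as a polyanalytic family. -/
lemma ker_par (n : ℕ) (p : ℝ[X]) (hp : p.degree < n) : ∃ U : ℕ → ℕ → ℂ → ℂ → ℂ,
    (∀ j i, U j i ∈ Par) ∧ ∀ z w, conj (ker p z w) = ∑ j ∈ Finset.range n,
      ∑ i ∈ Finset.range (j + 1), U j i z w * conj z ^ i := by
  refine ⟨fun j i z w => ((p.coeff j : ℂ) * ((j.choose i : ℕ) : ℂ) * (-1) ^ (j - i)) •
    (conj w ^ (j - i) * ((z - w) ^ j * cexp (z * conj w))), fun j i => ?_, fun z w => ?_⟩
  · exact Par.smul_mem _ (par_conj_pow (par_sub_pow j) (j - i))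
  · rw [conj_ker, eval_as_sum p n hp, Finset.mul_sum]
    refine Finset.sum_congr rfl fun j _ => ?_
    rw [norm_sq_eq_mul_conj, mul_pow]
    have e1 : (w - z) ^ j * conj (w - z) ^ j = (z - w) ^ j * (conj z + -conj w) ^ j := by
      rw [← mul_pow, ← mul_pow]
      congr 1
      rw [map_sub]
      ring
    rw [e1, add_pow, Finset.mul_sum, Finset.mul_sum, Finset.mul_sum]
    refine Finset.sum_congr rfl fun i _ => ?_
    simp only [smul_eq_mul]
    rw [neg_pow (conj w)]
    ring

lemma polyCls_inner (n : ℕ) (p : ℝ[X]) (hp : p.degree < n) (x : GaussL2) :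
    PolyCls n fun z => (inner ℂ (Kp p z) x : ℂ) := by
  obtain ⟨U, hU, hker⟩ := ker_par n p hp
  have h1 : (fun z => (inner ℂ (Kp p z) x : ℂ)) = fun z => ∑ j ∈ Finset.range n,
      ∑ i ∈ Finset.range (j + 1), (∫ w, U j i z w * x w ∂gaussianMeasure) * conj z ^ i := by
    funext z
    rw [inner_Kp p z x x Filter.EventuallyEq.rfl]
    simp_rw [hker]
    have h2 : ∀ v, (∑ j ∈ Finset.range n, ∑ i ∈ Finset.range (j + 1), U j i z v * conj z ^ i) * x v =
        ∑ j ∈ Finset.range n, ∑ i ∈ Finset.range (j + 1), (U j i z v * x v) * conj z ^ i := by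
      intro v
      rw [Finset.sum_mul]
      refine Finset.sum_congr rfl fun j _ => ?_
      rw [Finset.sum_mul]
      refine Finset.sum_congr rfl fun i _ => by ring
    simp_rw [h2]
    rw [integral_finsetSum]
    · refine Finset.sum_congr rfl fun j _ => ?_
      rw [integral_finsetSum]
      · refine Finset.sum_congr rfl fun i _ => ?_
        rw [integral_mul_const]
      · intro i _
        exact ((parGood_of_mem _ (hU j i)).int x z).mul_const _
    · intro j _
      exact integrable_finsetSum _ fun i _ => ((parGood_of_mem _ (hU j i)).int x z).mul_const _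
  rw [h1]
  refine polyCls_sum _ _ fun j hj => polyCls_sum _ _ fun i hi => polyCls_mono _ ?_ i ?_
  · exact fun z => ((parGood_of_mem _ (hU j i)).deriv x z).differentiableAt
  · have := Finset.mem_range.mp hj
    have := Finset.mem_range.mp hi
    omega

lemma mem_polyFock_iff (n : ℕ) (x : GaussL2) :
    x ∈ polyFock n ↔ ∃ f, PolyCls n f ∧ x =ᵐ[gaussianMeasure] f := by
  constructor
  · rintro ⟨h, hh, he⟩
    exact ⟨_, ⟨h, hh, fun z => rfl⟩, he⟩
  · rintro ⟨f, ⟨h, hh, he⟩, hx⟩
    refine ⟨h, hh, ?_⟩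
    have : f = fun z => ∑ j : Fin n, h j z * conj z ^ (j : ℕ) := funext he
    rwa [this] at hx

/-- The reproducing kernel data of the polyanalytic Fock space. -/
noncomputable def rkPoly (n : ℕ) (hn : 0 < n) : RKData (polyFock n) :=
  mkRK (polyFock n) (kp n hn) (kp_ne n hn) (PolyCls n) (reproClass_poly n hn)
    (polyCls_ker n _ (kp_degree n hn)) (mem_polyFock_iff n)

lemma isClosed_polyFock (n : ℕ) : IsClosed (polyFock n : Set GaussL2) := by
  rcases Nat.eq_zero_or_pos n with rfl | hn
  · have : (polyFock 0 : Set GaussL2) = {0} := by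
      ext x
      rw [SetLike.mem_coe, mem_polyFock_iff]
      constructor
      · rintro ⟨f, ⟨h, -, he⟩, hx⟩
        apply Lp.ext
        filter_upwards [hx, Lp.coeFn_zero ℂ 2 gaussianMeasure] with z h1 h2
        rw [h1, h2, he]
        simp
      · intro hx
        rw [Set.mem_singleton_iff] at hx
        refine ⟨fun _ => 0, polyCls_zero 0, ?_⟩
        rw [hx]
        exact Lp.coeFn_zero ℂ 2 gaussianMeasure
    rw [this]
    exact isClosed_singleton
  · refine (rkPoly n hn).isClosed_of_repr fun x y hy => ?_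
    rw [mem_polyFock_iff]
    exact ⟨_, polyCls_inner n (kp n hn) (kp_degree n hn) x, hy⟩

instance (n : ℕ) : CompleteSpace (polyFock n) :=
  (isClosed_polyFock n).completeSpace_coe

theorem poly_main (n : ℕ) (hn : 0 < n) :
    bandDominated (polyFock n) = toeplitzCStar (polyFock n) :=
  bandDominated_eq (polyFock n) (rkPoly n hn)

end Pool.Agent.helper21.Fock
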