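import Mathlib
import Pool.Agent.helper21.FockPoly

set_option autoImplicit false

open MeasureTheory Complex ENNReal ComplexConjugate Polynomial

namespace Pool.Agent.helper21.Fock

/-! ### Wirtinger calculus -/

lemma wirtinger_mul_antihol {c f : ℂ → ℂ} (hc : ContDiff ℝ (⊤ : ℕ∞) c) (hc0 : ∀ w, wirtinger c w = 0)
    (hf : ContDiff ℝ (⊤ : ℕ∞) f) :
    wirtinger (fun w => c w * f w) = fun w => c w * wirtinger f w := by
  funext w
  have h1 : DifferentiableAt ℝ c w := (hc.differentiable (by simp)).differentiableAt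
  have h2 : DifferentiableAt ℝ f w := (hf.differentiable (by simp)).differentiableAt
  have h3 := hc0 w
  simp only [wirtinger] at h3 ⊢
  rw [fderiv_fun_mul h1 h2]
  simp only [add_apply, smul_apply, smul_eq_mul]
  linear_combination (f w) * h3

lemma wirtinger_iterate_mul_antihol {c f : ℂ → ℂ} (hc : ContDiff ℝ (⊤ : ℕ∞) c)
    (hc0 : ∀ w, wirtinger c w = 0) (hf : ContDiff ℝ (⊤ : ℕ∞) f) (m : ℕ) :
    wirtinger^[m] (fun w => c w * f w) = fun w => c w * wirtinger^[m] f w := by
  induction m with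
  | zero => simp
  | succ m ih =>
    rw [Function.iterate_succ_apply', ih,
      wirtinger_mul_antihol hc hc0 (contDiff_wirtinger_iterate hf m)]
    simp only [Function.iterate_succ_apply']

lemma contDiff_conj : ContDiff ℝ (⊤ : ℕ∞) fun w : ℂ => conj w := Complex.conjCLE.contDiff

lemma fderiv_conj (w v : ℂ) : fderiv ℝ (fun w : ℂ => conj w) w v = conj v := by
  have : (fun w : ℂ => conj w) = (Complex.conjCLE : ℂ → ℂ) := rfl
  rw [this, Complex.conjCLE.fderiv]
  rfl

lemma wirtinger_conj (w : ℂ) : wirtinger (fun w : ℂ => conj w) w = 0 := by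
  simp only [wirtinger, fderiv_conj]
  simp

lemma wirtinger_exp_conj (c : ℂ) (w : ℂ) : wirtinger (fun w : ℂ => cexp (c * conj w)) w = 0 := by
  have h1 : HasFDerivAt (fun w : ℂ => conj w) (fderiv ℝ (fun w : ℂ => conj w) w) w :=
    ((contDiff_conj.differentiable (by simp)).differentiableAt (x := w)).hasFDerivAt
  have h2 := (h1.const_mul c).cexp
  simp only [wirtinger]
  rw [h2.fderiv]
  simp only [smul_apply, fderiv_conj, smul_eq_mul]
  simp
  ring_nf
  simp

lemma contDiff_exp_conj (c : ℂ) : ContDiff ℝ (⊤ : ℕ∞) fun w : ℂ => cexp (c * conj w) :=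
  (contDiff_const.mul contDiff_conj).cexp

lemma wirtinger_comp_add (f : ℂ → ℂ) (z : ℂ) :
    wirtinger (fun u => f (z + u)) = fun u => wirtinger f (z + u) := by
  funext u
  simp only [wirtinger]
  rw [fderiv_comp_add_left]

lemma wirtinger_iterate_comp_add (f : ℂ → ℂ) (z : ℂ) (m : ℕ) :
    wirtinger^[m] (fun u => f (z + u)) = fun u => wirtinger^[m] f (z + u) := by
  induction m with
  | zero => simp
  | succ m ih =>
    rw [Function.iterate_succ_apply', ih, wirtinger_comp_add]
    simp only [Function.iterate_succ_apply']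

lemma wirtinger_gauss_mul (g : ℂ → ℂ) (hg : Differentiable ℂ g) :
    wirtinger (fun w => cexp (-(‖w‖ : ℂ) ^ 2) * g w) =
      fun w => cexp (-(‖w‖ : ℂ) ^ 2) * (deriv g w - conj w * g w) := by
  funext w
  have hE : (fun w : ℂ => cexp (-(‖w‖ : ℂ) ^ 2)) = fun w : ℂ => cexp (-(w * conj w)) := by
    funext w
    congr 2
    have := norm_sq_eq_mul_conj w
    push_cast at this
    exact this
  have h1 : HasFDerivAt (fun w : ℂ => conj w) (fderiv ℝ (fun w : ℂ => conj w) w) w :=
    ((contDiff_conj.differentiable (by simp)).differentiableAt (x := w)).hasFDerivAt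
  have h2 : HasFDerivAt (fun w : ℂ => w) (ContinuousLinearMap.id ℝ ℂ) w := hasFDerivAt_id w
  have h3 := ((h2.mul h1).neg).cexp
  have h4 : HasFDerivAt g ((ContinuousLinearMap.toSpanSingleton ℂ (deriv g w)).restrictScalars ℝ) w :=
    ((hg w).hasDerivAt.hasFDerivAt).restrictScalars ℝ
  have h5 := h3.mul h4
  have hfun : (fun w => cexp (-(‖w‖ : ℂ) ^ 2) * g w) = fun w => cexp (-(w * conj w)) * g w := by
    funext w
    rw [congrFun hE w]
  have e1 : cexp (-(‖w‖ : ℂ) ^ 2) = cexp (-(w * conj w)) := congrFun hE w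
  rw [hfun, e1]
  simp only [wirtinger]
  have h6 : HasFDerivAt (fun w => cexp (-(w * conj w)) * g w) _ w := h5
  rw [h6.fderiv]
  simp only [add_apply, smul_apply, fderiv_conj, smul_eq_mul, neg_apply,
    ContinuousLinearMap.coe_restrictScalars', ContinuousLinearMap.toSpanSingleton_apply,
    ContinuousLinearMap.coe_id', id, map_one, conj_I]
  have e2 : ((-((fun w : ℂ => w) * fun w : ℂ => conj w)) w) = -(w * conj w) := rfl
  rw [e2]
  linear_combination (cexp (-(w * conj w))) * (-(deriv g w) / 2) * I_mul_I +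
    cexp (-(w * conj w)) * g w * (conj w / 2 - w / 2) * I_mul_I

/-! ### The differential operator `T_m = e^{|z|^2} ∂^m e^{-|z|^2}` -/

/-- `T_m g = (∂ - conj z)^m g` -/
noncomputable def Top : ℕ → (ℂ → ℂ) → ℂ → ℂ
  | 0, g, v => g v
  | (m + 1), g, v => Top m (deriv g) v - conj v * Top m g v

lemma differentiable_deriv {g : ℂ → ℂ} (hg : Differentiable ℂ g) : Differentiable ℂ (deriv g) :=
  ((hg.contDiff (n := 2)).differentiable_deriv_two)

lemma wirtinger_gauss_eq (m : ℕ) : ∀ g : ℂ → ℂ, Differentiable ℂ g →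
    wirtinger^[m] (fun w => cexp (-(‖w‖ : ℂ) ^ 2) * g w) =
      fun v => cexp (-(‖v‖ : ℂ) ^ 2) * Top m g v := by
  induction m with
  | zero => intro g _; simp [Top]
  | succ m ih =>
    intro g hg
    have hg' := differentiable_deriv hg
    rw [Function.iterate_succ_apply, wirtinger_gauss_mul g hg]
    have e1 : (fun w : ℂ => cexp (-(‖w‖ : ℂ) ^ 2) * (deriv g w - conj w * g w)) =
        fun w => cexp (-(‖w‖ : ℂ) ^ 2) * deriv g w +
          (-1) * (conj w * (cexp (-(‖w‖ : ℂ) ^ 2) * g w)) := by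
      funext w; ring
    have hc1 := contDiff_gauss_mul hg'
    have hc2 := contDiff_gauss_mul hg
    have hc3 : ContDiff ℝ (⊤ : ℕ∞) fun w : ℂ => conj w * (cexp (-(‖w‖ : ℂ) ^ 2) * g w) :=
      contDiff_conj.mul hc2
    rw [e1, wirtinger_iterate_add hc1 (contDiff_const.mul hc3) m,
      wirtinger_iterate_const_mul hc3 (-1) m,
      wirtinger_iterate_mul_antihol contDiff_conj wirtinger_conj hc2 m, ih _ hg', ih _ hg]
    funext v
    simp only [Top]
    ring

lemma top_const_mul (m : ℕ) (c : ℂ) : ∀ g : ℂ → ℂ, Differentiable ℂ g → ∀ v,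
    Top m (fun w => c * g w) v = c * Top m g v := by
  induction m with
  | zero => intro g _ v; simp [Top]
  | succ m ih =>
    intro g hg v
    have e : deriv (fun w => c * g w) = fun w => c * deriv g w := by
      funext w; exact deriv_const_mul c (hg w)
    simp only [Top]
    rw [e, ih _ (differentiable_deriv hg), ih _ hg]
    ring

lemma continuous_top (m : ℕ) : ∀ g : ℂ → ℂ, Differentiable ℂ g → Continuous (Top m g) := by
  induction m with
  | zero => intro g hg; exact hg.continuous
  | succ m ih =>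
    intro g hg
    have h1 := ih _ (differentiable_deriv hg)
    have h2 := ih _ hg
    have : Top (m + 1) g = fun v => Top m (deriv g) v - conj v * Top m g v := rfl
    rw [this]
    fun_prop

lemma top_zero (m : ℕ) : ∀ g : ℂ → ℂ, Top m g 0 = iteratedDeriv m g 0 := by
  induction m with
  | zero => intro g; simp [Top]
  | succ m ih =>
    intro g
    simp only [Top, map_zero, zero_mul, sub_zero]
    rw [ih, iteratedDeriv_succ']

/-- Laguerre type polynomials defined by recursion. -/
noncomputable def lagP : ℕ → ℕ → ℝ[X]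
  | 0, j => Polynomial.C (1 / (j.factorial : ℝ))
  | (m + 1), j => lagP m j - X * lagP m (j + 1)

lemma lagP_eval_zero (m : ℕ) : ∀ j, (lagP m j).eval 0 = 1 / (j.factorial : ℝ) := by
  induction m with
  | zero => intro j; simp [lagP]
  | succ m ih => intro j; simp [lagP, ih]

lemma circleAverage_top (m : ℕ) : ∀ (g : ℂ → ℂ), Differentiable ℂ g → ∀ (j : ℕ) (r : ℝ), 0 < r →
    Real.circleAverage (fun v => conj v ^ j * Top m g v) 0 r =
      ((r ^ 2) ^ j : ℝ) * iteratedDeriv (m + j) g 0 * (((lagP m j).eval (r ^ 2) : ℝ) : ℂ) := by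
  induction m with
  | zero =>
    intro g hg j r hr
    have := circleAverage_conj_pow g hg j r hr
    have e : (fun v => conj v ^ j * Top 0 g v) = fun v => g v * conj v ^ j := by
      funext v; simp [Top, mul_comm]
    rw [e, this]
    simp [lagP]
    ring
  | succ m ih =>
    intro g hg j r hr
    have hg' := differentiable_deriv hg
    have e : (fun v => conj v ^ j * Top (m + 1) g v) = fun v =>
        conj v ^ j * Top m (deriv g) v - conj v ^ (j + 1) * Top m g v := by
      funext v; simp only [Top]; ring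
    have c1 : CircleIntegrable (fun v => conj v ^ j * Top m (deriv g) v) 0 r := by
      refine ContinuousOn.circleIntegrable hr.le (Continuous.continuousOn ?_)
      have := continuous_top m _ hg'
      fun_prop
    have c2 : CircleIntegrable (fun v => conj v ^ (j + 1) * Top m g v) 0 r := by
      refine ContinuousOn.circleIntegrable hr.le (Continuous.continuousOn ?_)
      have := continuous_top m _ hg
      fun_prop
    rw [e, Real.circleAverage_fun_sub c1 c2, ih _ hg' j r hr, ih _ hg (j + 1) r hr]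
    have e1 : iteratedDeriv (m + j) (deriv g) 0 = iteratedDeriv (m + 1 + j) g 0 := by
      rw [show m + 1 + j = (m + j) + 1 by ring, iteratedDeriv_succ']
    have e2 : m + (j + 1) = m + 1 + j := by ring
    rw [e1, e2]
    simp only [lagP, Polynomial.eval_sub, Polynomial.eval_mul, Polynomial.eval_X]
    push_cast
    ring

lemma top_pow (m : ℕ) : ∀ (j : ℕ) (u : ℂ), Top m (fun v => v ^ (m + j)) u =
    u ^ j * ((m + j).factorial : ℂ) * (((lagP m j).eval (‖u‖ ^ 2) : ℝ) : ℂ) := by
  induction m with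
  | zero =>
    intro j u
    have : (j.factorial : ℂ) ≠ 0 := by exact_mod_cast j.factorial_ne_zero
    simp only [Top, lagP, Polynomial.eval_C, zero_add]
    push_cast
    field_simp
  | succ m ih =>
    intro j u
    have e1 : deriv (fun v : ℂ => v ^ (m + 1 + j)) = fun v => ((m + 1 + j : ℕ) : ℂ) * v ^ (m + j) := by
      funext v
      rw [show m + 1 + j = (m + j) + 1 by ring, deriv_pow_field]
      simp
    have e2 : (fun v : ℂ => v ^ (m + 1 + j)) = fun v => v ^ (m + (j + 1)) := by
      funext v; congr 1; ring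
    simp only [Top]
    rw [e1, top_const_mul m _ _ (by fun_prop), ih j u, e2, ih (j + 1) u]
    have hf : (((m + 1 + j : ℕ).factorial : ℕ) : ℂ) = ((m + 1 + j : ℕ) : ℂ) * ((m + j).factorial : ℂ) := by
      rw [show m + 1 + j = (m + j) + 1 by ring, Nat.factorial_succ]
      push_cast; ring
    have hf2 : (((m + (j + 1) : ℕ).factorial : ℕ) : ℂ) = ((m + 1 + j : ℕ) : ℂ) * ((m + j).factorial : ℂ) := by
      rw [show m + (j + 1) = (m + j) + 1 by ring, Nat.factorial_succ]
      push_cast; ring
    have hn := norm_sq_eq_mul_conj u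
    simp only [lagP, Polynomial.eval_sub, Polynomial.eval_mul, Polynomial.eval_X]
    rw [hf, hf2, Complex.ofReal_sub, Complex.ofReal_mul, hn]
    ring

/-- functions of the form `T_m g`, `g` entire -/
def TrueCls (m : ℕ) (f : ℂ → ℂ) : Prop :=
  ∃ g : ℂ → ℂ, Differentiable ℂ g ∧ ∀ z, f z = Top m g z

lemma gauss_shift (z u : ℂ) : cexp (-(‖z + u‖ : ℂ) ^ 2) =
    cexp (-(‖z‖ : ℂ) ^ 2) * (cexp (-z * conj u) * (cexp (-(‖u‖ : ℂ) ^ 2) * cexp (-(conj z) * u))) := by
  rw [← Complex.exp_add, ← Complex.exp_add, ← Complex.exp_add]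
  congr 1
  have h1 := norm_sq_eq_mul_conj (z + u)
  have h2 := norm_sq_eq_mul_conj z
  have h3 := norm_sq_eq_mul_conj u
  push_cast at h1 h2 h3
  rw [h1, h2, h3, map_add]
  ring

lemma top_shift (m : ℕ) (g : ℂ → ℂ) (hg : Differentiable ℂ g) (z u : ℂ) :
    Top m g (z + u) * cexp (-(conj z) * u) =
      Top m (fun u => g (z + u) * cexp (-(conj z) * u)) u := by
  set g' : ℂ → ℂ := fun u => g (z + u) * cexp (-(conj z) * u) with hg'
  have hg'd : Differentiable ℂ g' := by
    have h1 : Differentiable ℂ fun u : ℂ => g (z + u) := hg.comp (by fun_prop)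
    have h2 : Differentiable ℂ fun u : ℂ => cexp (-(conj z) * u) := by fun_prop
    exact h1.mul h2
  have h1 := congrFun (wirtinger_gauss_eq m g hg) (z + u)
  have h2 := congrFun (wirtinger_gauss_eq m g' hg'd) u
  have h3 := congrFun (wirtinger_iterate_comp_add (fun w => cexp (-(‖w‖ : ℂ) ^ 2) * g w) z m) u
  have h4 : (fun u : ℂ => cexp (-(‖z + u‖ : ℂ) ^ 2) * g (z + u)) =
      fun u => cexp (-(‖z‖ : ℂ) ^ 2) * (cexp (-z * conj u) * (cexp (-(‖u‖ : ℂ) ^ 2) * g' u)) := by
    funext u
    rw [gauss_shift, hg']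
    ring
  have hc := contDiff_gauss_mul hg'd
  rw [h4, wirtinger_iterate_const_mul ((contDiff_exp_conj (-z)).mul hc),
    wirtinger_iterate_mul_antihol (contDiff_exp_conj (-z)) (wirtinger_exp_conj (-z)) hc] at h3
  rw [h1] at h3
  simp only at h3
  rw [h2, gauss_shift z u] at h3
  have n1 := Complex.exp_ne_zero (-(‖z‖ : ℂ) ^ 2)
  have n2 := Complex.exp_ne_zero (-z * conj u)
  have n3 := Complex.exp_ne_zero (-(‖u‖ : ℂ) ^ 2)
  have h5 : (cexp (-(‖z‖ : ℂ) ^ 2) * cexp (-z * conj u) * cexp (-(‖u‖ : ℂ) ^ 2)) *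
      (Top m g (z + u) * cexp (-(conj z) * u)) =
      (cexp (-(‖z‖ : ℂ) ^ 2) * cexp (-z * conj u) * cexp (-(‖u‖ : ℂ) ^ 2)) * Top m g' u := by
    linear_combination -h3
  exact mul_left_cancel₀ (mul_ne_zero (mul_ne_zero n1 n2) n3) h5

lemma trueCls_shift (m : ℕ) (f : ℂ → ℂ) (hf : TrueCls m f) (z : ℂ) :
    TrueCls m fun u => f (z + u) * cexp (-(conj z) * u) := by
  obtain ⟨g, hg, he⟩ := hf
  refine ⟨fun u => g (z + u) * cexp (-(conj z) * u), ?_, fun u => ?_⟩
  · have h1 : Differentiable ℂ fun u : ℂ => g (z + u) := hg.comp (by fun_prop)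
    have h2 : Differentiable ℂ fun u : ℂ => cexp (-(conj z) * u) := by fun_prop
    exact h1.mul h2
  · change f (z + u) * _ = _
    rw [he, top_shift m g hg]

lemma lagP_ne (m : ℕ) : lagP m 0 ≠ 0 := by
  intro h
  have := lagP_eval_zero m 0
  rw [h] at this
  simp at this

/-- normalisation constant -/
noncomputable def nc (m : ℕ) : ℝ := mom (lagP m 0 * lagP m 0)

lemma nc_ne (m : ℕ) : nc m ≠ 0 := fun h => lagP_ne m (mom_sq_eq_zero _ h)

/-- the kernel polynomial of the true polyanalytic Fock space -/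
noncomputable def tp (m : ℕ) : ℝ[X] := Polynomial.C (1 / nc m) * lagP m 0

lemma tp_ne (m : ℕ) : tp m ≠ 0 := by
  unfold tp
  refine mul_ne_zero ?_ (lagP_ne m)
  rw [Polynomial.C_ne_zero]
  exact one_div_ne_zero (nc_ne m)

lemma eval_map_ofReal (p : ℝ[X]) (t : ℝ) :
    (p.map (algebraMap ℝ ℂ)).eval ((t : ℝ) : ℂ) = ((p.eval t : ℝ) : ℂ) := by
  rw [Polynomial.eval_map]
  exact Polynomial.eval₂_at_apply (algebraMap ℝ ℂ) t

lemma reproClass_true (m : ℕ) : ReproClass (tp m) (TrueCls m) where
  cont := by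
    rintro f ⟨g, hg, he⟩
    have : f = Top m g := funext he
    rw [this]
    exact continuous_top m g hg
  shift := fun f hf z => trueCls_shift m f hf z
  avg := by
    rintro f ⟨g, hg, he⟩
    have hf0 : f 0 = iteratedDeriv m g 0 := by rw [he, top_zero]
    refine ⟨Polynomial.C (f 0) * (lagP m 0).map (algebraMap ℝ ℂ), fun r hr => ?_, ?_⟩
    · have h := circleAverage_top m g hg 0 r hr
      have e : (fun v => conj v ^ 0 * Top m g v) = f := by
        funext v; rw [he]; simp
      rw [e] at h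
      rw [h, Polynomial.eval_mul, Polynomial.eval_C, hf0]
      simp only [pow_zero, Complex.ofReal_one, one_mul, add_zero]
      congr 1
      exact (eval_map_ofReal _ _).symm
    · have h2 : ∀ v : ℂ, (((tp m).eval (‖v‖ ^ 2) : ℝ) : ℂ) *
          (Polynomial.C (f 0) * (lagP m 0).map (algebraMap ℝ ℂ)).eval (((‖v‖ ^ 2 : ℝ)) : ℂ) =
          (f 0 * (1 / (nc m : ℂ))) * ((((lagP m 0 * lagP m 0).eval (‖v‖ ^ 2) : ℝ)) : ℂ) := by
        intro v
        rw [Polynomial.eval_mul, Polynomial.eval_C, eval_map_ofReal]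
        simp only [tp, Polynomial.eval_mul, Polynomial.eval_C]
        push_cast
        ring
      simp_rw [h2]
      rw [integral_const_mul, integral_complex_ofReal]
      have h3 : ∫ v : ℂ, (lagP m 0 * lagP m 0).eval (‖v‖ ^ 2) ∂gaussianMeasure = nc m := rfl
      rw [h3]
      have h4 : (nc m : ℂ) ≠ 0 := by exact_mod_cast nc_ne m
      field_simp

/-- the entire function generating the kernel at `0` -/
noncomputable def kg (m : ℕ) (v : ℂ) : ℂ := (1 / ((nc m : ℂ) * (m.factorial : ℂ))) * v ^ m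

lemma top_kg (m : ℕ) (u : ℂ) : Top m (kg m) u = (((tp m).eval (‖u‖ ^ 2) : ℝ) : ℂ) := by
  have h1 : kg m = fun v => (1 / ((nc m : ℂ) * (m.factorial : ℂ))) * (fun v : ℂ => v ^ (m + 0)) v := rfl
  rw [h1, top_const_mul m _ _ (by fun_prop), top_pow m 0 u]
  have h4 : (nc m : ℂ) ≠ 0 := by exact_mod_cast nc_ne m
  have h5 : (m.factorial : ℂ) ≠ 0 := by exact_mod_cast m.factorial_ne_zero
  simp only [tp, Polynomial.eval_mul, Polynomial.eval_C, add_zero, pow_zero, one_mul]
  push_cast
  field_simp

lemma ker_eq_top (m : ℕ) (z u : ℂ) :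
    ker (tp m) z u = Top m (fun v => kg m (v - z) * cexp (conj z * v)) u := by
  have h := top_shift m (kg m) (by unfold kg; fun_prop) (-z) u
  rw [neg_add_eq_sub, map_neg, neg_neg, top_kg] at h
  unfold ker
  rw [mul_comm, h]
  congr 1
  funext v
  rw [neg_add_eq_sub]

lemma trueCls_ker (m : ℕ) (z : ℂ) : TrueCls m (ker (tp m) z) :=
  ⟨fun v => kg m (v - z) * cexp (conj z * v), by unfold kg; fun_prop, fun u => ker_eq_top m z u⟩

lemma conj_ker_eq (p : ℝ[X]) (z w : ℂ) : conj (ker p z w) = ker p w z := by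
  rw [conj_ker]
  unfold ker
  rw [norm_sub_rev, mul_comm z]

/-- exchange of `T_m` with parametric integrals -/
lemma top_integral (m : ℕ) : ∀ u : ℂ → ℂ → ℂ, u ∈ Par → ∀ (x : GaussL2) (z : ℂ),
    Integrable (fun w => Top m (fun z => u z w) z * x w) gaussianMeasure ∧
    Top m (fun z => ∫ w, u z w * x w ∂gaussianMeasure) z =
      ∫ w, Top m (fun z => u z w) z * x w ∂gaussianMeasure := by
  induction m with
  | zero =>
    intro u hu x z
    exact ⟨(parGood_of_mem u hu).int x z, rfl⟩
  | succ m ih =>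
    intro u hu x z
    have hg := parGood_of_mem u hu
    obtain ⟨i1, e1⟩ := ih _ hg.dmem x z
    obtain ⟨i2, e2⟩ := ih u hu x z
    have hd : deriv (fun z => ∫ w, u z w * x w ∂gaussianMeasure) =
        fun z => ∫ w, deriv (fun z' => u z' w) z * x w ∂gaussianMeasure := by
      funext z
      exact (hg.deriv x z).deriv
    have hT : ∀ w, Top (m + 1) (fun z => u z w) z * x w =
        Top m (fun z => deriv (fun z' => u z' w) z) z * x w -
          conj z * (Top m (fun z => u z w) z * x w) := by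
      intro w
      simp only [Top]
      have : (deriv fun z => u z w) = fun z => deriv (fun z' => u z' w) z := rfl
      rw [this]
      ring
    constructor
    · refine (i1.sub (i2.const_mul (conj z))).congr (Filter.Eventually.of_forall fun w => ?_)
      exact (hT w).symm
    · simp_rw [hT]
      rw [integral_sub i1 (i2.const_mul (conj z)), integral_const_mul, ← e1, ← e2]
      simp only [Top]
      rw [hd]

lemma trueCls_inner (m : ℕ) (x : GaussL2) : TrueCls m fun z => (inner ℂ (Kp (tp m) z) x : ℂ) := by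
  set u : ℂ → ℂ → ℂ := fun z w => (1 / ((nc m : ℂ) * (m.factorial : ℂ))) •
    ((z - w) ^ m * cexp (z * conj w)) with hu
  have huP : u ∈ Par := Par.smul_mem _ (par_sub_pow m)
  refine ⟨fun z => ∫ w, u z w * x w ∂gaussianMeasure,
    fun z => ((parGood_of_mem u huP).deriv x z).differentiableAt, fun z => ?_⟩
  change (inner ℂ (Kp (tp m) z) x : ℂ) = _
  rw [(top_integral m u huP x z).2, inner_Kp (tp m) z x x Filter.EventuallyEq.rfl]
  refine integral_congr_ae (Filter.Eventually.of_forall fun w => ?_)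
  simp only
  rw [conj_ker_eq, ker_eq_top]
  congr 2
  funext v
  rw [hu]
  simp only [kg, smul_eq_mul]
  rw [mul_comm (conj w)]
  ring

lemma mem_trueFock_iff (k : ℕ) (x : GaussL2) :
    x ∈ trueFock k ↔ ∃ f, TrueCls (k - 1) f ∧ x =ᵐ[gaussianMeasure] f := by
  have hfac : ((k - 1).factorial : ℂ) ≠ 0 := by exact_mod_cast (k - 1).factorial_ne_zero
  have key : ∀ (g : ℂ → ℂ), Differentiable ℂ g → ∀ z, 1 / ((k - 1).factorial : ℂ) * cexp ((‖z‖ : ℂ) ^ 2) *
      wirtinger^[k - 1] (fun w => cexp (-(‖w‖ : ℂ) ^ 2) * g w) z =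
      1 / ((k - 1).factorial : ℂ) * Top (k - 1) g z := by
    intro g hg z
    rw [congrFun (wirtinger_gauss_eq (k - 1) g hg) z, mul_assoc, ← mul_assoc (cexp _),
      ← Complex.exp_add]
    simp
  constructor
  · rintro ⟨g, hg, he⟩
    refine ⟨_, ⟨fun z => 1 / ((k - 1).factorial : ℂ) * g z, hg.const_mul _, fun z => rfl⟩, ?_⟩
    filter_upwards [he] with z hz
    rw [hz, key g hg z, top_const_mul _ _ _ hg]
  · rintro ⟨f, ⟨g, hg, he⟩, hx⟩
    refine ⟨fun z => ((k - 1).factorial : ℂ) * g z, hg.const_mul _, ?_⟩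
    filter_upwards [hx] with z hz
    rw [hz, he, key _ (hg.const_mul _) z, top_const_mul _ _ _ hg]
    field_simp

/-- The reproducing kernel data of the true polyanalytic Fock space. -/
noncomputable def rkTrue (k : ℕ) : RKData (trueFock k) :=
  mkRK (trueFock k) (tp (k - 1)) (tp_ne (k - 1)) (TrueCls (k - 1)) (reproClass_true (k - 1))
    (trueCls_ker (k - 1)) (mem_trueFock_iff k)

lemma isClosed_trueFock (k : ℕ) : IsClosed (trueFock k : Set GaussL2) := by
  refine (rkTrue k).isClosed_of_repr fun x y hy => ?_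
  rw [mem_trueFock_iff]
  exact ⟨_, trueCls_inner (k - 1) x, hy⟩

instance (k : ℕ) : CompleteSpace (trueFock k) :=
  (isClosed_trueFock k).completeSpace_coe

theorem true_main (k : ℕ) :
    bandDominated (trueFock k) = toeplitzCStar (trueFock k) :=
  bandDominated_eq (trueFock k) (rkTrue k)

end Pool.Agent.helper21.Fock
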